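import Pool.Agent.H141.PF.Main
import Pool.Agent.H141.PF.Cert5.Chk0
import Pool.Agent.H141.PF.Cert5.Chk1
import Pool.Agent.H141.PF.Cert5.Chk2
import Pool.Agent.H141.PF.Cert5.Chk3
import Pool.Agent.H141.PF.Cert5.Chk4
import Pool.Agent.H141.PF.Cert5.Chk5
import Pool.Agent.H141.PF.Cert5.Chk6
import Pool.Agent.H141.PF.Cert5.Chk7
import Pool.Agent.H141.PF.Cert5.Chk8
import Pool.Agent.H141.PF.Cert5.Chk9
import Pool.Agent.H141.PF.Cert5.Chk10
import Pool.Agent.H141.PF.Cert5.Chk11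
import Pool.Agent.H141.PF.Cert5.Chk12
import Pool.Agent.H141.PF.Cert5.Chk13
import Pool.Agent.H141.PF.Cert5.Chk14
import Pool.Agent.H141.PF.Cert5.Chk15

/-!
# The certificate with five outer directions
-/

namespace Pool.Agent.H141.PF.Cert5

set_option maxRecDepth 100000

theorem tree_all : tree.all (lemOK cfg) = true := by
  simp only [tree, BT.all, chk0, chk1, chk2, chk3, chk4, chk5, chk6, chk7, chk8, chk9, chk10, chk11,
    chk12, chk13, chk14, chk15, Bool.and_self]

theorem perms_all : perms.all (permOK 5) = true := by decide +kernel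

theorem tables_ok : tablesOK cfg = true := by decide +kernel

theorem roots_ok : rootsOK cfg 9569 roots = true := by decide +kernel

theorem cost_pos (s : ℕ) : 0 < cfg.cost s := by
  show 0 < (if s = 0 then 1000 else if s = 1 then 1603 else 2569)
  split_ifs <;> norm_num

/-- The bound for all sets of directions. -/
theorem bound {n : ℕ} (D : Finset (Fin n)) :
    ∃ T : ℕ, Solve D T ∧ (T : ℝ) + 5 ≤ 5 * (1.6026 : ℝ) ^ D.card := by
  have h := solve_bound (n := n) cfg tables_ok perms_all tree_all cost_pos 9569 roots roots_ok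
    1.6026 5 (by norm_num) (by norm_num) (by show 2 < 5; norm_num) ?_ ?_ ?_ D.card D rfl
  · simpa [show cfg.k = 5 from rfl] using h
  · intro s hs
    have hs' : s ≤ 2 := hs
    interval_cases s
    · show (1.6026 : ℝ) ^ 0 * ((1000 : ℕ) : ℝ) ≤ ((1000 : ℕ) : ℝ)
      norm_num
    · show (1.6026 : ℝ) ^ 1 * ((1000 : ℕ) : ℝ) ≤ ((1603 : ℕ) : ℝ)
      norm_num
    · show (1.6026 : ℝ) ^ 2 * ((1000 : ℕ) : ℝ) ≤ ((2569 : ℕ) : ℝ)
      norm_num
  · show ((9569 + 1000 : ℕ) : ℝ) ≤ ((1000 : ℕ) : ℝ) * (1.6026 : ℝ) ^ 5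
    norm_num
  · intro d hd
    have hd' : d < 5 := hd
    show (2 : ℝ) ^ d - 1 + ((5 : ℕ) : ℝ) ≤ 5 * (1.6026 : ℝ) ^ d
    interval_cases d <;> norm_num

end Pool.Agent.H141.PF.Cert5
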