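import Pool.Agent.H141.PF.Cert5.Data

namespace Pool.Agent.H141.PF.Cert5

set_option maxRecDepth 100000

theorem chk11 : T11.all (lemOK cfg) = true := by decide +kernel

end Pool.Agent.H141.PF.Cert5
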