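import Pool.Agent.H141.PF.Check

/-!
# Certificate data (Cert5)
-/

namespace Pool.Agent.H141.PF.Cert5

set_option maxRecDepth 100000

/-- The permutations, with their tables. -/
def perms : BT (List ℕ × ℕ) := (.node (.node (.node (.node (.node (.node (.node (.leaf ([0, 1, 2, 3, 4], 1459980823972598128486511383358617792788444579872))
(.leaf ([2, 3, 4, 0, 1], 1449336524262368737893680308865458991028900741376)))
(.node (.leaf ([1, 2, 3, 0, 4], 1450026409263694050337739402854861451276419630336))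
(.leaf ([4, 0, 1, 2, 3], 1458460010614293338769339142926772180550131322944))))
(.node (.node (.leaf ([0, 3, 4, 1, 2], 1459704312454192698211275803661853820514470240288))
(.leaf ([3, 1, 2, 0, 4], 1449980324010712235270089332992794202923323427072)))
(.node (.leaf ([2, 0, 1, 3, 4], 1458460325342595067608594861364860435838901882944))
(.leaf ([4, 2, 3, 0, 1], 1449336479301146023783119837622563491547976581376)))))
(.node (.node (.node (.leaf ([0, 2, 3, 1, 4], 1459704941910024346085784499751489607858915680288))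
(.leaf ([3, 0, 1, 2, 4], 1458460010614936513606008093582222783244377722944)))
(.node (.leaf ([1, 3, 4, 0, 2], 1450025779807862402463230706765225663931974190336))
(.leaf ([4, 1, 2, 0, 3], 1449980324010069060433420382337343600229077027072))))
(.node (.node (.leaf ([1, 0, 2, 3, 4], 1458598176451693800522504940944813770419516572736))
(.leaf ([3, 2, 4, 0, 1], 1449336479301274658750453627753653612086825861376)))
(.leaf ([2, 1, 3, 0, 4], 1449980458893994472699769376328210339749548067072)))))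
(.node (.node (.node (.node (.leaf ([0, 1, 4, 2, 3], 1459980644127707272044269498387035794864747939872))
(.leaf ([2, 4, 1, 0, 3], 1449888468231806862623151607106210129630358540544)))
(.node (.leaf ([1, 3, 0, 2, 4], 1455740710903921514459191916393071228975468151936))
(.leaf ([4, 0, 3, 1, 2], 1458275669602366078498738863478503187137746509888))))
(.node (.node (.leaf ([0, 4, 2, 1, 3], 1459704851987235891285106783582791620793469280288))
(.leaf ([3, 2, 0, 1, 4], 1455419013354930391850175049594708069345292329088)))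
(.node (.leaf ([2, 0, 4, 1, 3], 1458276344018905900614472870286673991807718989888))
(.leaf ([4, 3, 1, 0, 2], 1449887793815352797152306793718766071986285580544)))))
(.node (.node (.node (.leaf ([0, 3, 1, 2, 4], 1459888653466634498351211243634483296082252173344))
(.leaf ([3, 0, 4, 1, 2], 1458275669602494713466072653609593307676595789888)))
(.node (.leaf ([1, 4, 2, 0, 3], 1450026319340905595537061686686163464210973230336))
(.leaf ([4, 2, 0, 1, 3], 1455419013354287217013506098939257466651045929088))))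
(.node (.node (.leaf ([1, 0, 4, 2, 3], 1458597996606802944080263055973231772495819932736))
(.leaf ([3, 4, 1, 0, 2], 1449887793815395675474751390429129445499235340544)))
(.leaf ([2, 3, 0, 1, 4], 1455419058316024470993401730706513448287367209088))))))
(.node (.node (.node (.node (.node (.leaf ([0, 1, 3, 2, 4], 1459980644128221811913604658911396277020145059872))
(.leaf ([2, 4, 0, 1, 3], 1455419058315424174479177376761426219106070569088)))
(.node (.leaf ([1, 2, 4, 0, 3], 1450026409263179510468404242330500969121022510336))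
(.leaf ([4, 0, 2, 1, 3], 1458276209135495028217459036820167734442645069888))))
(.node (.node (.leaf ([0, 4, 1, 2, 3], 1459888653466034201836986889689396066900955533344))
(.leaf ([3, 1, 4, 0, 2], 1449979784477068745682033999126769173463027747072)))
(.node (.leaf ([2, 0, 3, 1, 4], 1458276344019420440483808030811034473963116109888))
(.leaf ([4, 3, 0, 1, 2], 1455418383898970109008332563373982161461997609088)))))
(.node (.node (.node (.leaf ([0, 2, 4, 1, 3], 1459704941909509806216449339227129125703518560288))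
(.leaf ([3, 0, 2, 1, 4], 1458276209136138203054127987475618337136891469888)))
(.node (.leaf ([1, 4, 0, 2, 3], 1455740710903321217944967562447983999794171511936))
(.leaf ([4, 1, 3, 0, 2], 1449979784476940110714700208995679052924178467072))))
(.node (.node (.leaf ([1, 0, 3, 2, 4], 1458597996607317483949598216497592254651217052736))
(.leaf ([3, 4, 0, 1, 2], 1455418383899012987330777160084345534974947369088)))
(.leaf ([2, 1, 4, 0, 3], 1449980458893479932830434215803849857594150947072)))))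
(.node (.node (.node (.node (.leaf ([0, 2, 1, 3, 4], 1459888923233198973210571330305315569734701453344))
(.leaf ([2, 4, 3, 0, 1], 1449336524262282981248791115444732244003001221376)))
(.node (.leaf ([1, 3, 2, 0, 4], 1450026319341505892051286040631250693392269870336))
(.leaf ([4, 1, 0, 2, 3], 1455694715572484682841326258099164135812275308672))))
(.node (.node (.leaf ([0, 4, 3, 1, 2], 1459704312454106941566386610241127073488570720288))
(.leaf ([3, 2, 1, 0, 4], 1449888423271313079994149279939491979869580300544)))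
(.node (.leaf ([2, 1, 0, 3, 4], 1455695030300786411680581976537252391101045868672))
(.leaf ([4, 3, 2, 0, 1], 1449336389378957865496666475398952733663826821376)))))
(.node (.node (.node (.leaf ([0, 3, 2, 1, 4], 1459704851987836187799331137527878849974765920288))
(.leaf ([3, 1, 0, 2, 4], 1455694715573127857677995208754614738506521708672)))
(.node (.leaf ([1, 4, 3, 0, 2], 1450025779807776645818341513344498916906074670336))
(.leaf ([4, 2, 1, 0, 3], 1449888423270669905157480329284041377175333900544))))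
(.node (.node (.leaf ([1, 2, 0, 3, 4], 1455740980670485989318552003063903502627917431936))
(.leaf ([3, 4, 2, 0, 1], 1449336389379000743819111072109316107176776581376)))
(.leaf ([2, 3, 1, 0, 4], 1449888468232407159137375961051297358811655180544)))))))
(.node (.node (.node (.node (.node (.node (.leaf ([0, 1, 2, 4, 3], 1459980823972255101906954609675710804684846499872))
(.leaf ([2, 3, 4, 1, 0], 1438275344095134114181628769555026812077476684288)))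
(.node (.leaf ([1, 2, 3, 4, 0], 1438597266449767145796557428753870360469825947136))
(.leaf ([4, 0, 1, 3, 2], 1458459650925540705623525694032329149013532282944))))
(.node (.node (.leaf ([0, 3, 4, 2, 1], 1459336709496596077107515591448644928299497734176))
(.leaf ([3, 1, 2, 4, 0], 1438551181196785330728907358891803112116729743872)))
(.node (.leaf ([2, 0, 1, 4, 3], 1458460325342252041029038087681953447735303802944))
(.leaf ([4, 2, 3, 1, 0], 1438275299133911400071068298312131312596552524288)))))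
(.node (.node (.node (.leaf ([0, 2, 3, 4, 1], 1459336979263332065256654064960930696003746054176))
(.leaf ([3, 0, 1, 4, 2], 1458459650925840853880637871004872763604180602944)))
(.node (.leaf ([1, 3, 4, 2, 0], 1438596996683031157647418955241584592765577627136))
(.leaf ([4, 1, 2, 3, 0], 1438551181196485182471795181919259497526081423872))))
(.node (.node (.leaf ([1, 0, 2, 4, 3], 1458598176451350773942948167261906782315918492736))
(.leaf ([3, 2, 4, 1, 0], 1438275299134040035038402088443221433135401804288)))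
(.leaf ([2, 1, 3, 4, 0], 1438551316080067568158587402227219248942954383872)))))
(.node (.node (.node (.node (.leaf ([0, 1, 4, 3, 2], 1459980284438954638898456049492592763328148899872))
(.leaf ([2, 4, 1, 3, 0], 1438459325418222984661526406688126026927362937344)))
(.node (.leaf ([1, 3, 0, 4, 2], 1455740351214825854733821693815721209335271031936))
(.leaf ([4, 0, 3, 2, 1], 1457908066644769457394978651265294294922774003776))))
(.node (.node (.leaf ([0, 4, 2, 3, 1], 1459336889340886637035533122475139697041897734176))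
(.leaf ([3, 2, 0, 4, 1], 1455051050708238111021044614804149157490122702976)))
(.node (.leaf ([2, 0, 4, 3, 1], 1457908381372556646364899209179022068056147443776))
(.leaf ([4, 3, 1, 2, 0], 1438459010690521552336495042195125000819889017344)))))
(.node (.node (.node (.leaf ([0, 3, 1, 4, 2], 1459888293777538838625841021057133276442055053344))
(.leaf ([3, 0, 4, 2, 1], 1457908066644898092362312441396384415461623283776)))
(.node (.leaf ([1, 4, 2, 3, 0], 1438597176527321717575436486268079361507977627136))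
(.leaf ([4, 2, 0, 3, 1], 1455051050707937962763932437831605542899474382976))))
(.node (.node (.leaf ([1, 0, 4, 3, 2], 1458597636918050310934449607078788740959220892736))
(.leaf ([3, 4, 1, 2, 0], 1438459010690564430658939638905488374332838777344)))
(.leaf ([2, 3, 0, 4, 1], 1455051095669332190164271295915954536432197582976))))))
(.node (.node (.node (.node (.node (.leaf ([0, 1, 3, 4, 2], 1459980284439126152188234436334046257379947939872))
(.leaf ([2, 4, 0, 3, 1], 1455051095669074920229603715653774295354499022976)))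
(.node (.leaf ([1, 2, 4, 3, 0], 1438597266449595632506779041912416866418026907136))
(.leaf ([4, 0, 2, 3, 1], 1457908246489145773967885375712515810691073523776))))
(.node (.node (.leaf ([0, 4, 1, 3, 2], 1459888293777281568691173440794953035364356493344))
(.leaf ([3, 1, 4, 2, 0], 1438551001352237500866222247603128102296631183872)))
(.node (.leaf ([2, 0, 3, 4, 1], 1457908381372728159654677596020475562107946483776))
(.leaf ([4, 3, 0, 2, 1], 1455050780941373487904572351160773269247025102976)))))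
(.node (.node (.node (.leaf ([0, 2, 4, 3, 1], 1459336979263160551966875678119477201951947014176))
(.leaf ([3, 0, 2, 4, 1], 1457908246489445922224997552685059425281721843776)))
(.node (.leaf ([1, 4, 0, 3, 2], 1455740351214568584799154113553540968257572471936))
(.leaf ([4, 1, 3, 2, 0], 1438551001352108865898888457472037981757781903872))))
(.node (.node (.leaf ([1, 0, 3, 4, 2], 1458597636918221824224227993920242235011019932736))
(.leaf ([3, 4, 0, 2, 1], 1455050780941416366227016947871136642759974862976)))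
(.leaf ([2, 1, 4, 3, 0], 1438551316079896054868809015385765754891155343872)))))
(.node (.node (.node (.node (.leaf ([0, 2, 1, 4, 3], 1459888923232855946631014556622408581631103373344))
(.leaf ([2, 4, 3, 1, 0], 1438275344095048357536739576134300065051577164288)))
(.node (.leaf ([1, 3, 2, 4, 0], 1438597176527578987510104066530259602585676187136))
(.leaf ([4, 1, 0, 3, 2], 1455694355883732049695512809204721104275676268672))))
(.node (.node (.leaf ([0, 4, 3, 2, 1], 1459336709496510320462626398027918181273598214176))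
(.leaf ([3, 2, 1, 4, 0], 1438459280457386175452967305838500889062986617344)))
(.node (.leaf ([2, 1, 0, 4, 3], 1455695030300443385101025202854345402997447788672))
(.leaf ([4, 3, 2, 1, 0], 1438275209211723241784614936088520554712402764288)))))
(.node (.node (.node (.leaf ([0, 3, 2, 4, 1], 1459336889341143906970200702737319938119596294176))
(.leaf ([3, 1, 0, 4, 2], 1455694355884032197952624986177264718866324588672)))
(.node (.leaf ([1, 4, 3, 2, 0], 1438596996682945401002529761820857845739678107136))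
(.leaf ([4, 2, 1, 3, 0], 1438459280457086027195855128865957274472338297344))))
(.node (.node (.leaf ([1, 2, 0, 4, 3], 1455740980670142962738995229380996514524319351936))
(.leaf ([3, 4, 2, 1, 0], 1438275209211766120107059532798883928225352524288)))
(.leaf ([2, 3, 1, 4, 0], 1438459325418480254596193986950306268005061497344))))))))

/-- A part of the certificate. -/
def T0 : BT Lem := (.node (.node (.node (.node (.node (.node (.leaf ⟨1000, 16, 0, 24, 4, [(17, 31), (18, 31), (20, 31), (24, 31)], [[], []]⟩)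
(.leaf ⟨7569, 16, 0, 16, 4, [(31, 31)], [[(1, 479, 35), (2, 479, 11), (3, 468, 70), (4, 479, 5), (5, 468, 46), (6, 468, 22), (7, 497, 90), (8, 479, 4), (9, 468, 44), (10, 468, 20), (11, 497, 66), (12, 468, 18), (13, 497, 42), (14, 497, 18)]]⟩))
(.leaf ⟨4206, 24, 0, 24, 3, [(23, 31), (17, 23), (2, 22), (28, 28)], [[(1, 45, 81), (4, 98, 90), (5, 71, 40)], [(2, 115, 67), (8, 60, 25), (10, 79, 10), (16, 111, 54)]]⟩))
(.node (.leaf ⟨3206, 24, 1, 24, 3, [(17, 31), (2, 7), (11, 31), (12, 30), (20, 20)], [[], [], [(8, 3, 25), (16, 2, 62)], [(2, 2, 11), (16, 2, 62)]]⟩)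
(.leaf ⟨5569, 28, 0, 28, 4, [(9, 31), (22, 30), (10, 11), (17, 19)], [[(2, 239, 67)], [(4, 281, 114), (16, 238, 0)], [(8, 263, 1), (16, 239, 0)], [(4, 240, 5), (8, 285, 25), (12, 278, 4), (16, 240, 0), (20, 276, 2), (24, 277, 0)]]⟩)))
(.node (.node (.leaf ⟨3000, 16, 0, 18, 4, [(29, 31), (17, 23), (26, 27), (20, 28)], [[(8, 2, 42)], [(1, 6, 45), (2, 6, 21)]]⟩)
(.leaf ⟨4569, 24, 0, 24, 3, [(26, 31), (20, 22), (9, 29), (22, 22)], [[(2, 56, 17), (4, 138, 5), (6, 149, 17)], [(1, 115, 111), (8, 138, 1), (9, 124, 104), (16, 111, 48)]]⟩))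
(.node (.leaf ⟨3603, 24, 0, 24, 3, [(10, 31), (12, 31), (6, 6), (17, 17)], [[(1, 26, 39)], [(2, 26, 77), (4, 26, 76), (8, 26, 25), (10, 28, 21), (12, 28, 19), (16, 6, 38)]]⟩)
(.leaf ⟨5569, 24, 0, 24, 3, [(13, 31), (26, 31), (20, 20)], [[(1, 286, 59), (2, 282, 91), (3, 213, 88), (4, 281, 90), (6, 305, 76)], [(1, 293, 81), (8, 281, 66), (9, 337, 58), (16, 246, 6), (17, 333, 32)]]⟩))))
(.node (.node (.node (.leaf ⟨2603, 24, 0, 8, 3, [(11, 27), (17, 23), (18, 19), (4, 6)], [[(1, 2, 41), (2, 1, 51), (16, 1, 72)]]⟩)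
(.leaf ⟨4569, 24, 0, 24, 3, [(5, 7), (19, 23), (6, 6)], [[(1, 138, 93), (2, 138, 11), (3, 134, 88), (4, 138, 5)], [(1, 115, 33), (2, 138, 23), (4, 138, 16), (8, 138, 1), (9, 142, 58), (10, 142, 52), (12, 135, 97), (16, 138, 0), (17, 108, 87), (18, 107, 85), (20, 135, 73)]]⟩))
(.node (.leaf ⟨3569, 24, 0, 24, 3, [(18, 31), (25, 31), (10, 26), (20, 20)], [[(1, 9, 117), (4, 23, 3), (5, 4, 41)], [(2, 24, 17), (8, 23, 1), (16, 23, 6)]]⟩)
(.leaf ⟨5569, 24, 0, 24, 3, [(12, 31), (9, 13), (22, 22)], [[(2, 281, 91)], [(2, 281, 67), (4, 282, 43), (8, 246, 31), (10, 304, 52), (12, 305, 28), (16, 285, 2), (18, 295, 9)]]⟩)))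
(.node (.node (.leaf ⟨3000, 24, 0, 24, 3, [(20, 31), (10, 31), (25, 31), (12, 30), (18, 30), (6, 6)], [[(1, 10, 65)], [(2, 6, 88), (4, 6, 82), (8, 6, 44), (16, 6, 38)]]⟩)
(.leaf ⟨4603, 16, 0, 16, 4, [(24, 24)], [[(1, 170, 39), (2, 170, 15), (3, 176, 64), (4, 170, 13), (5, 176, 40), (6, 176, 16), (7, 190, 90)]]⟩))
(.node (.leaf ⟨4000, 24, 0, 26, 3, [(18, 31), (14, 31), (28, 28), (1, 3)], [[(4, 58, 90)], [(1, 64, 93), (2, 64, 91)], [(8, 63, 49), (16, 68, 8)], [(1, 60, 89), (2, 60, 88), (16, 60, 6), (17, 61, 32), (18, 61, 8)]]⟩)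
(.leaf ⟨6569, 16, 0, 17, 4, [(28, 31), (6, 14)], [[(2, 394, 11), (4, 394, 5), (8, 395, 10), (10, 391, 11)], [(1, 396, 47), (2, 394, 11), (3, 389, 70), (4, 394, 5), (5, 389, 46), (8, 403, 18), (9, 419, 44), (10, 398, 10), (11, 422, 108), (12, 398, 4)]]⟩)))))
(.node (.node (.node (.node (.leaf ⟨2000, 16, 0, 20, 4, [(25, 31), (26, 31), (18, 30), (20, 22)], [[(1, 0, 33), (8, 0, 1)], []]⟩)
(.leaf ⟨4206, 24, 0, 24, 3, [(25, 31), (22, 31), (17, 27), (10, 30), (28, 28)], [[(1, 66, 45), (4, 74, 3), (5, 71, 40)], [(2, 115, 67), (8, 111, 25), (10, 113, 10), (16, 111, 54)]]⟩))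
(.node (.leaf ⟨3569, 24, 0, 24, 3, [(25, 31), (12, 14), (18, 22), (6, 6)], [[(1, 10, 65), (2, 23, 15), (3, 11, 88)], [(8, 24, 7), (16, 24, 0)]]⟩)
(.leaf ⟨5569, 24, 0, 25, 3, [(30, 31), (10, 14), (20, 22)], [[(4, 281, 92)], [(1, 281, 93), (4, 311, 13), (5, 211, 40)], [(8, 285, 52), (16, 285, 26)], [(1, 241, 35), (8, 285, 52), (9, 300, 58), (16, 285, 26), (17, 300, 32)]]⟩)))
(.node (.node (.leaf ⟨3000, 24, 0, 26, 3, [(17, 31), (4, 7), (13, 15), (2, 6)], [[(1, 16, 111)], [], [(1, 19, 57), (8, 9, 55), (16, 16, 86), (17, 14, 57)], []]⟩)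
(.leaf ⟨4569, 24, 0, 28, 3, [(25, 31), (12, 28), (18, 22), (1, 9)], [[(1, 154, 113), (2, 138, 15), (3, 136, 70)], [], [(8, 138, 31), (16, 138, 0)], [(1, 154, 71), (2, 138, 17), (3, 142, 71), (4, 66, 22), (8, 138, 1), (10, 140, 66), (12, 158, 42)]]⟩))
(.node (.leaf ⟨4000, 24, 0, 25, 3, [(21, 31), (9, 31), (12, 13), (18, 22)], [[(2, 59, 61)], [], [(8, 68, 1), (16, 63, 24)], [(1, 66, 41), (4, 74, 106), (8, 63, 1), (9, 61, 34)]]⟩)
(.leaf ⟨6569, 28, 0, 28, 2, [(13, 31), (18, 31), (19, 19)], [[(1, 395, 35), (2, 395, 11), (3, 410, 64)], [(2, 366, 51), (4, 394, 13), (6, 407, 16), (8, 394, 7), (10, 407, 10)], [(1, 417, 63), (2, 417, 61), (4, 394, 19), (5, 413, 40), (16, 417, 0), (17, 412, 32), (18, 411, 8)], [(1, 394, 57), (2, 394, 51), (4, 374, 5), (5, 416, 40), (6, 409, 16), (8, 374, 4), (9, 416, 34), (10, 409, 10), (12, 408, 4), (13, 406, 42), (16, 395, 50), (18, 415, 8), (20,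 414, 2), (22, 405, 12), (24, 414, 0), (26, 405, 6)]]⟩))))
(.node (.node (.node (.leaf ⟨2603, 16, 0, 24, 4, [(29, 31), (17, 29), (26, 26), (20, 29)], [[(2, 3, 99)], [(1, 2, 95), (4, 2, 90), (8, 1, 25)]]⟩)
(.leaf ⟨4569, 24, 0, 26, 3, [(14, 31), (9, 13), (20, 20)], [[(4, 138, 3)], [(2, 138, 11)], [(8, 138, 1), (16, 111, 48)], [(2, 138, 17), (8, 138, 1), (10, 146, 10), (16, 111, 48), (18, 160, 8)]]⟩))
(.node (.leaf ⟨3603, 24, 0, 24, 3, [(3, 7), (4, 4)], [[(1, 26, 41), (2, 26, 17)], [(1, 26, 83), (2, 26, 77), (8, 26, 7), (9, 34, 45), (10, 34, 21), (16, 26, 6), (17, 34, 39), (18, 34, 15)]]⟩)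
(.leaf ⟨5569, 28, 0, 20, 2, [(17, 31), (6, 23), (1, 19), (26, 26)], [[(8, 286, 34)], [(1, 254, 63), (2, 255, 9), (3, 273, 64), (4, 254, 3), (6, 267, 77), (8, 255, 49), (9, 267, 34), (12, 249, 96), (16, 281, 2), (24, 325, 0)]]⟩)))
(.node (.node (.leaf ⟨3206, 24, 1, 26, 3, [(12, 30), (20, 22), (2, 6)], [[], [], [], [], [(8, 1, 1), (16, 1, 0)], [(8, 1, 1), (16, 1, 0)], [], []]⟩)
(.leaf ⟨5000, 16, 0, 17, 4, [(24, 31), (22, 30)], [[(2, 202, 15), (4, 202, 13)], [(1, 202, 39), (2, 202, 15), (3, 219, 64), (4, 202, 13), (5, 219, 40), (8, 203, 1), (10, 219, 10), (12, 219, 4)]]⟩))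
(.node (.leaf ⟨4206, 16, 0, 24, 4, [(21, 31), (18, 27), (28, 28)], [[(1, 115, 113), (4, 111, 13)], [(1, 111, 87), (2, 111, 15), (3, 114, 64), (8, 111, 1), (9, 113, 34)]]⟩)
(.leaf ⟨6569, 24, 0, 26, 3, [(17, 31), (12, 29), (6, 6)], [[(1, 394, 39)], [(1, 394, 89), (2, 395, 9), (3, 447, 64)], [(1, 395, 39), (4, 394, 3), (5, 407, 82), (8, 394, 18), (12, 398, 4), (16, 394, 12), (17, 407, 38)], [(1, 394, 89), (2, 369, 11), (3, 449, 64), (8, 394, 10), (9, 409, 68), (10, 448, 52), (16, 394, 8), (17, 409, 62), (18, 448, 8), (19, 397, 61)]]⟩))))))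

/-- A part of the certificate. -/
def T1 : BT Lem := (.node (.node (.node (.node (.node (.node (.leaf ⟨1603, 16, 1, 24, 4, [(18, 30), (20, 30), (24, 30)], [[], [], [], []]⟩)
(.leaf ⟨8569, 30, 0, 22, 1, [(31, 31)], [[(1, 508, 57), (8, 508, 1), (9, 504, 34)], [(1, 509, 41), (2, 509, 17), (3, 507, 64), (4, 509, 16), (5, 507, 40), (8, 509, 1), (9, 506, 34), (10, 505, 10), (11, 501, 66), (12, 505, 4), (13, 501, 42)], [(1, 509, 33), (2, 509, 9), (3, 507, 112), (8, 509, 4), (9, 506, 44), (10, 505, 20), (11, 501, 108), (16, 509, 8), (17, 507, 32), (24, 505, 1), (25, 501, 31)], [(1, 508, 39), (2, 508, 15), (3, 507, 89), (4, 508, 13), (5, 507, 83), (6, 503, 22), (7, 500, 114), (8, 510, 1), (10, 507, 10), (12, 507, 4), (14, 502, 19), (16, 508, 12), (17, 507, 81), (18, 503, 8), (19, 500, 60), (20, 503, 2), (21, 500, 36), (24, 507, 1), (26, 502, 6), (28, 502, 0)]]⟩))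
(.leaf ⟨4206, 16, 0, 16, 4, [(21, 31), (25, 29), (18, 26)], [[(1, 111, 63), (4, 111, 79), (8, 111, 49), (12, 110, 4)]]⟩))
(.node (.leaf ⟨3206, 24, 4, 24, 3, [(20, 31), (9, 27), (17, 21), (22, 30), (10, 10)], [[], [], [(8, 2, 20), (16, 1, 48)], [(1, 3, 59), (16, 1, 48)]]⟩)
(.leaf ⟨5569, 28, 0, 12, 3, [(13, 31), (18, 30), (10, 11), (17, 19)], [[(1, 239, 63), (16, 281, 0)], [(4, 281, 92), (8, 238, 25), (16, 282, 0), (20, 280, 2), (24, 279, 0)]]⟩)))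
(.node (.node (.leaf ⟨3000, 16, 0, 26, 4, [(21, 31), (17, 23), (18, 27), (28, 28)], [[(4, 5, 73)], [], [(8, 2, 42)], [(1, 6, 45), (2, 6, 21)]]⟩)
(.leaf ⟨4569, 24, 0, 24, 3, [(18, 31), (19, 19), (12, 12)], [[(1, 138, 35), (2, 138, 11), (3, 155, 65)], [(1, 138, 47), (2, 138, 23), (8, 115, 102), (9, 148, 34), (16, 138, 0), (17, 135, 32), (18, 135, 8)]]⟩))
(.node (.leaf ⟨3603, 24, 0, 26, 3, [(12, 28), (1, 7), (20, 20)], [[], [(1, 45, 41), (2, 45, 17)], [(8, 37, 25), (16, 37, 24)], [(1, 45, 83), (2, 45, 77), (8, 26, 7), (9, 39, 34), (10, 39, 10), (16, 26, 6), (17, 34, 80), (18, 34, 74)]]⟩)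
(.leaf ⟨5569, 24, 0, 24, 3, [(26, 31), (21, 31), (9, 31), (6, 6)], [[(2, 282, 91), (4, 285, 73)], [(1, 202, 39), (4, 281, 37), (5, 321, 93), (8, 281, 108), (9, 322, 34), (12, 317, 28), (16, 282, 72), (20, 304, 26)]]⟩))))
(.node (.node (.node (.leaf ⟨2603, 24, 8, 16, 4, [(19, 31), (12, 31), (9, 15), (10, 15), (20, 20)], [[(1, 0, 33), (2, 0, 9)], [(16, 0, 0)]]⟩)
(.leaf ⟨4569, 24, 0, 26, 3, [(12, 31), (19, 31), (9, 11), (20, 20)], [[], [(1, 138, 35), (2, 138, 11), (4, 138, 3), (5, 137, 47)], [(8, 138, 1), (16, 111, 24)], [(1, 138, 41), (2, 138, 17), (8, 138, 1), (10, 135, 10), (16, 138, 48), (17, 119, 32), (18, 147, 8)]]⟩))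
(.node (.leaf ⟨3569, 24, 0, 10, 3, [(25, 31), (22, 31), (17, 27), (9, 31), (2, 7), (28, 28)], [[(4, 23, 3), (16, 19, 24)], []]⟩)
(.leaf ⟨5569, 16, 0, 24, 4, [(25, 31), (20, 29)], [[(1, 286, 81), (2, 286, 51), (3, 219, 64)], [(2, 246, 61), (4, 285, 82), (6, 302, 77), (8, 285, 58), (10, 302, 53)]]⟩)))
(.node (.node (.leaf ⟨3000, 16, 0, 17, 4, [(24, 31), (19, 31), (20, 29), (28, 28)], [[(2, 6, 21)], [(1, 6, 71), (4, 5, 79), (8, 5, 55)]]⟩)
(.leaf ⟨4603, 24, 16, 10, 3, [(9, 11), (20, 20)], [[(4, 55, 3)], [(1, 65, 39), (2, 65, 15), (4, 55, 3), (5, 82, 40), (6, 82, 16)], [(8, 55, 1)], [(1, 64, 39), (2, 64, 15), (8, 55, 1), (9, 57, 35), (10, 57, 11)]]⟩))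
(.node (.leaf ⟨4000, 24, 0, 24, 3, [(9, 31), (18, 31), (13, 29), (20, 20)], [[(2, 68, 15), (4, 55, 3), (6, 81, 16)], [(1, 74, 41), (2, 66, 91), (3, 94, 64), (8, 55, 1), (9, 72, 44), (16, 60, 24), (18, 76, 8)]]⟩)
(.leaf ⟨6569, 16, 0, 28, 4, [(17, 31), (10, 14)], [[(2, 394, 17)], [(1, 394, 45), (2, 394, 21), (3, 387, 70), (4, 394, 19), (6, 408, 22)], [(1, 395, 41), (8, 395, 28)], [(1, 396, 47), (2, 394, 11), (3, 389, 70), (4, 394, 5), (5, 389, 46), (8, 403, 18), (9, 419, 44), (10, 398, 10), (11, 422, 108), (12, 398, 4)]]⟩)))))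
(.node (.node (.node (.node (.leaf ⟨2000, 24, 0, 24, 3, [(10, 31), (1, 7), (18, 31), (12, 31), (27, 31), (20, 21)], [[], [(2, 0, 9), (8, 0, 1), (16, 0, 0)]]⟩)
(.leaf ⟨4206, 24, 0, 24, 3, [(22, 31), (21, 23), (12, 28), (18, 22)], [[(1, 45, 41), (2, 70, 9), (3, 32, 70)], [(1, 89, 33), (4, 89, 3), (8, 111, 55), (9, 61, 58), (12, 69, 4), (16, 111, 6), (17, 118, 32)]]⟩))
(.node (.leaf ⟨3569, 24, 0, 24, 3, [(25, 31), (19, 31), (26, 31), (4, 4)], [[(1, 6, 89), (2, 6, 88), (3, 17, 94)], [(8, 23, 1), (16, 23, 0)]]⟩)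
(.leaf ⟨5569, 24, 0, 30, 3, [(10, 31), (21, 31), (4, 22), (17, 21)], [[(1, 311, 39)], [], [], [(1, 285, 39)], [(8, 285, 4), (16, 282, 54)], [(2, 285, 17), (8, 285, 4), (10, 302, 10)], [(1, 282, 69), (4, 281, 19), (8, 286, 1), (12, 304, 4)], [(1, 281, 69), (2, 254, 75), (3, 213, 64), (4, 282, 19), (6, 259, 90), (8, 246, 1), (9, 304, 58), (10, 322, 10), (12, 305, 4), (14, 261, 18), (16, 282, 30), (17, 298, 33)]]⟩)))
(.node (.node (.leaf ⟨3000, 24, 0, 8, 3, [(14, 31), (17, 23), (18, 31), (10, 14), (20, 20)], [[(1, 9, 117), (4, 5, 73), (5, 7, 40), (16, 16, 0)]]⟩)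
(.leaf ⟨4569, 24, 0, 10, 3, [(9, 31), (17, 21), (20, 20)], [[(4, 138, 3), (16, 138, 36)], [(1, 138, 35), (2, 138, 11), (4, 138, 3), (5, 146, 40), (6, 146, 16), (16, 138, 36), (18, 135, 74)]]⟩))
(.node (.leaf ⟨4000, 24, 0, 24, 3, [(29, 31), (1, 7), (22, 22), (2, 6)], [[(4, 68, 16)], [(4, 66, 22), (8, 55, 10), (12, 85, 4), (16, 56, 2), (20, 84, 2)]]⟩)
(.leaf ⟨6569, 24, 0, 26, 3, [(28, 31), (1, 7)], [[(4, 362, 3)], [(1, 417, 33), (2, 417, 9), (4, 417, 27), (5, 411, 40), (6, 412, 16)], [(8, 395, 28), (16, 395, 26)], [(1, 394, 83), (2, 394, 77), (4, 395, 82), (5, 415, 40), (8, 403, 18), (9, 409, 44), (10, 409, 20), (12, 414, 29), (13, 405, 43), (16, 403, 12), (17, 409, 38), (18, 409, 14), (20, 414, 27), (21, 405, 37)]]⟩))))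
(.node (.node (.node (.leaf ⟨2603, 16, 0, 20, 4, [(25, 31), (17, 27), (18, 22), (28, 28)], [[(8, 1, 1)], [(2, 1, 9), (4, 2, 43)]]⟩)
(.leaf ⟨4569, 24, 0, 24, 3, [(12, 31), (9, 13), (20, 20)], [[(2, 138, 11)], [(2, 138, 17), (8, 138, 1), (10, 146, 10), (16, 111, 48), (18, 160, 8)]]⟩))
(.node (.leaf ⟨3603, 24, 0, 24, 3, [(19, 31), (9, 27), (26, 26), (4, 4)], [[(2, 26, 17)], [(1, 44, 41), (8, 26, 7), (9, 34, 58), (16, 26, 48)]]⟩)
(.leaf ⟨5569, 24, 0, 24, 3, [(28, 29), (13, 29), (18, 22)], [[(1, 257, 39), (2, 281, 94), (3, 268, 64), (4, 319, 27), (6, 252, 16)], [(1, 306, 117), (8, 285, 28), (9, 302, 34), (16, 246, 6), (17, 318, 56)]]⟩)))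
(.node (.node (.leaf ⟨3206, 24, 1, 24, 3, [(26, 31), (13, 31), (10, 30), (12, 31), (17, 29), (20, 20)], [[], [], [(8, 1, 25), (16, 2, 38)], [(2, 0, 9), (16, 2, 38)]]⟩)
(.leaf ⟨5000, 16, 0, 16, 4, [(25, 31), (22, 31)], [[(1, 203, 81), (2, 203, 51), (3, 219, 64), (4, 203, 27), (5, 219, 40), (8, 203, 1), (10, 219, 10), (12, 219, 4)]]⟩))
(.node (.leaf ⟨4206, 16, 0, 24, 4, [(18, 31), (17, 27), (28, 28)], [[(4, 111, 13)], [(1, 111, 39), (2, 111, 85), (3, 114, 64), (8, 111, 25)]]⟩)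
(.leaf ⟨6569, 28, 0, 29, 2, [(14, 31), (18, 18)], [[(2, 395, 11)], [(1, 395, 35), (2, 395, 11), (3, 421, 64)], [(4, 394, 13), (8, 394, 7)], [(1, 366, 71), (2, 394, 21), (4, 394, 13), (5, 425, 82), (6, 399, 16), (8, 394, 7), (9, 425, 58), (10, 399, 10)], [(4, 394, 19), (16, 417, 24)], [(1, 417, 63), (4, 394, 19), (5, 419, 82), (16, 394, 6), (17, 452, 32)], [(4, 394, 3), (8, 394, 1), (12, 408, 4), (16, 395, 56), (20, 414, 26), (24, 414, 24)], [(1, 394, 57), (4, 394, 3), (5, 420, 82), (8, 394, 1), (9, 420, 58), (12, 408, 4), (13, 451, 42), (16, 369, 8), (17, 453, 32), (20, 431, 78), (21, 450, 36), (24, 431, 54), (25, 450, 30)]]⟩))))))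

/-- A part of the certificate. -/
def T2 : BT Lem := (.node (.node (.node (.node (.node (.node (.leaf ⟨1603, 16, 8, 18, 4, [(28, 31), (17, 23), (20, 31), (18, 23)], [[], [], [], []]⟩)
(.leaf ⟨8569, 28, 0, 30, 2, [(29, 31)], [[(1, 509, 41)], [(1, 508, 33), (2, 508, 9), (3, 504, 64)], [(1, 508, 45), (4, 508, 19), (5, 503, 40), (8, 508, 18), (9, 503, 34)], [(1, 508, 45), (2, 508, 21), (3, 506, 64), (4, 508, 19), (5, 503, 40), (6, 503, 16), (7, 501, 91), (8, 508, 18), (9, 503, 34), (10, 503, 10), (11, 501, 67)], [(1, 508, 39), (4, 508, 13), (5, 503, 46), (16, 508, 12), (17, 503, 32)], [(1, 508, 39), (2, 508, 15), (3, 506, 70), (4, 508, 13), (5, 503, 46), (6, 503, 22), (7, 501, 115), (16, 508, 12), (17, 503, 32), (18, 503, 8), (19, 501, 61)], [(4, 508, 3), (8, 508, 1), (12, 503, 18), (16, 508, 0), (20, 503, 12), (24, 503, 6)], [(1, 508, 57), (2, 508, 51), (4, 508, 3), (5, 507,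 41), (6, 507, 17), (8, 508, 1), (9, 507, 35), (10, 507, 11), (12, 503, 18), (13, 502, 44), (14, 502, 20), (16, 508, 0), (17, 507, 33), (18, 507, 9), (20, 503, 12), (21, 502, 38), (22, 502, 14), (24, 503, 6), (25, 502, 32), (26, 502, 8)]]⟩))
(.leaf ⟨4206, 24, 0, 28, 3, [(26, 31), (10, 31), (12, 14), (17, 21)], [[(1, 59, 63)], [], [(8, 111, 49), (16, 111, 30)], []]⟩))
(.node (.leaf ⟨3206, 24, 2, 24, 3, [(12, 31), (19, 31), (1, 7), (10, 31), (15, 31), (20, 20)], [[], [], [(8, 2, 66), (16, 3, 0)], [(1, 3, 33), (8, 2, 66)]]⟩)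
(.leaf ⟨5569, 28, 0, 28, 2, [(9, 31), (22, 23), (10, 26), (17, 25)], [[(1, 263, 57), (2, 319, 9), (3, 253, 71)], [(1, 285, 33), (4, 286, 5), (8, 281, 68), (9, 283, 34)], [(4, 246, 3), (16, 306, 80)], [(1, 254, 57), (4, 247, 3), (5, 244, 40), (8, 241, 1), (12, 245, 4), (16, 285, 24), (17, 243, 32), (20, 242, 2), (24, 284, 0)]]⟩)))
(.node (.node (.leaf ⟨3000, 16, 0, 18, 4, [(17, 31), (30, 31), (24, 26), (23, 31)], [[(4, 16, 16)], [(1, 6, 45), (2, 5, 85), (4, 6, 22), (6, 7, 23), (8, 5, 25), (9, 7, 68)]]⟩)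
(.leaf ⟨4569, 24, 0, 24, 3, [(11, 15), (12, 31), (20, 20)], [[(1, 138, 35), (2, 138, 11)], [(1, 138, 41), (2, 138, 17), (8, 138, 1), (9, 146, 34), (10, 146, 10), (16, 89, 48), (17, 160, 32), (18, 160, 8)]]⟩))
(.node (.leaf ⟨3603, 24, 0, 24, 3, [(26, 31), (9, 11), (20, 28), (2, 18)], [[(4, 49, 5)], [(4, 50, 13), (8, 23, 1), (16, 26, 0), (20, 27, 2)]]⟩)
(.leaf ⟨5569, 28, 0, 20, 4, [(21, 31), (26, 26), (1, 17)], [[(1, 286, 57), (2, 282, 91), (3, 305, 89), (8, 202, 25), (9, 334, 34)], [(2, 281, 94), (4, 254, 3), (6, 213, 76), (8, 202, 25), (12, 259, 18), (16, 285, 54), (18, 300, 60), (24, 331, 49)]]⟩))))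
(.node (.node (.node (.leaf ⟨2603, 24, 0, 28, 3, [(26, 31), (10, 30), (12, 30), (17, 21), (20, 21)], [[(1, 3, 105)], [], [(8, 1, 25), (16, 1, 0)], []]⟩)
(.leaf ⟨4569, 24, 0, 24, 3, [(14, 31), (25, 31), (13, 29), (20, 28), (10, 15)], [[(1, 115, 63), (4, 115, 13)], [(4, 138, 29), (8, 138, 1), (16, 138, 24), (20, 134, 36)]]⟩))
(.node (.leaf ⟨3569, 24, 0, 24, 3, [(25, 31), (17, 27), (18, 19), (28, 30), (10, 26)], [[(1, 2, 41), (4, 16, 22), (5, 4, 41)], [(8, 1, 49), (16, 23, 6)]]⟩)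
(.leaf ⟨5569, 28, 0, 26, 3, [(30, 31), (6, 31), (1, 3)], [[(4, 218, 92)], [(1, 286, 89), (2, 286, 88), (4, 216, 76), (5, 220, 40), (6, 220, 16)], [(4, 217, 3), (8, 238, 28), (12, 312, 4), (16, 238, 26), (20, 312, 2)], [(1, 311, 81), (2, 311, 75), (8, 202, 52), (9, 317, 34), (10, 317, 10), (16, 202, 50), (17, 317, 32), (18, 317, 8)]]⟩)))
(.node (.node (.leaf ⟨3000, 16, 0, 18, 4, [(29, 31), (25, 31), (17, 27), (18, 19)], [[(4, 2, 43), (8, 2, 42), (12, 20, 4)], []]⟩)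
(.leaf ⟨4603, 24, 0, 28, 3, [(21, 31), (9, 25), (2, 6)], [[], [(2, 168, 15), (4, 168, 13)], [(1, 188, 35), (8, 170, 1), (9, 191, 34), (16, 168, 0)], [(1, 169, 33), (2, 183, 51), (3, 192, 64), (4, 183, 27), (5, 192, 40), (8, 169, 31), (10, 174, 10), (12, 174, 4), (16, 168, 12), (18, 178, 14), (20, 178, 12)]]⟩))
(.node (.leaf ⟨4000, 24, 0, 25, 4, [(14, 31), (20, 22), (2, 6)], [[], [(1, 58, 35)], [(8, 58, 34), (16, 59, 0)], [(1, 65, 33), (8, 58, 34), (9, 61, 34), (16, 60, 0), (17, 95, 32)]]⟩)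
(.leaf ⟨6569, 16, 0, 18, 4, [(28, 28)], [[(1, 394, 45), (4, 394, 13), (5, 390, 40), (8, 394, 7), (9, 390, 34)], [(1, 394, 45), (2, 394, 21), (3, 408, 64), (4, 394, 13), (5, 390, 40), (6, 390, 16), (7, 418, 118), (8, 394, 7), (9, 390, 34), (10, 390, 10), (11, 418, 112)]]⟩)))))
(.node (.node (.node (.node (.leaf ⟨2000, 16, 0, 16, 4, [(26, 31), (25, 31), (19, 31), (28, 31), (20, 28)], [[(1, 0, 33), (2, 0, 9), (8, 0, 1)]]⟩)
(.leaf ⟨4206, 24, 8, 20, 4, [(14, 30), (18, 22), (1, 3)], [[], [(2, 24, 17), (4, 43, 90)], [(16, 26, 48)], [(2, 24, 17), (4, 49, 5), (16, 26, 0), (20, 53, 73)]]⟩))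
(.node (.leaf ⟨3569, 24, 0, 8, 3, [(9, 31), (2, 6), (20, 20)], [[(4, 23, 3), (16, 23, 12)]]⟩)
(.leaf ⟨5569, 24, 0, 27, 3, [(9, 31), (22, 31), (4, 7), (18, 22)], [[], [], [(2, 319, 118), (4, 311, 37)], [(1, 282, 93), (4, 306, 3), (5, 262, 40)], [(8, 285, 28), (16, 286, 0)], [(1, 282, 57), (4, 306, 90), (8, 281, 96), (9, 276, 58), (12, 296, 5)], [], []]⟩)))
(.node (.node (.leaf ⟨3000, 24, 0, 8, 3, [(10, 31), (9, 11), (18, 22), (20, 20)], [[(4, 5, 79), (16, 5, 36)]]⟩)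
(.leaf ⟨4603, 24, 0, 28, 4, [(25, 29), (2, 7), (20, 22)], [[(1, 171, 33)], [], [(8, 170, 1), (16, 170, 0)], []]⟩))
(.node (.leaf ⟨4000, 24, 0, 25, 3, [(10, 31), (2, 14), (12, 28), (20, 20)], [[], [(1, 56, 39), (2, 55, 23)], [(2, 55, 23), (8, 55, 1), (16, 55, 0)], [(1, 55, 39), (2, 55, 15), (3, 88, 65), (8, 55, 1), (9, 81, 34), (16, 55, 0), (17, 86, 32), (18, 87, 50)]]⟩)
(.leaf ⟨6569, 24, 0, 27, 3, [(28, 31), (26, 30)], [[(4, 362, 3)], [(1, 417, 33), (4, 417, 3), (5, 419, 40)], [(2, 417, 51), (4, 417, 27), (6, 419, 16)], [(1, 394, 39), (2, 394, 15), (3, 420, 64), (4, 394, 13), (5, 420, 40), (6, 420, 16), (7, 418, 90)], [(8, 403, 18), (16, 403, 12)], [(1, 395, 83), (4, 395, 76), (8, 403, 18), (9, 421, 34), (12, 421, 4), (16, 403, 12), (17, 421, 32), (20, 421, 2)], [], []]⟩))))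
(.node (.node (.node (.leaf ⟨2603, 16, 0, 20, 4, [(17, 23), (26, 31), (18, 26), (28, 30)], [[(8, 0, 1)], [(1, 2, 47), (4, 2, 19)]]⟩)
(.leaf ⟨4569, 16, 0, 16, 4, [(29, 31), (19, 19), (20, 29)], [[(1, 138, 57), (2, 138, 61), (8, 138, 55), (9, 134, 68), (10, 109, 67)]]⟩))
(.node (.leaf ⟨3603, 24, 0, 24, 3, [(28, 31), (12, 28), (17, 19), (18, 22)], [[(1, 45, 41), (2, 24, 15), (3, 30, 64)], [(8, 26, 1), (16, 23, 0)]]⟩)
(.leaf ⟨5569, 24, 0, 24, 3, [(10, 31), (17, 31), (28, 28)], [[(1, 293, 57), (4, 217, 90), (5, 226, 40)], [(1, 286, 83), (2, 286, 101), (3, 227, 64), (8, 286, 1), (10, 326, 10), (16, 286, 24), (17, 326, 32)]]⟩)))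
(.node (.node (.leaf ⟨3206, 24, 2, 24, 3, [(11, 31), (20, 23), (1, 7), (12, 31), (18, 31), (6, 6)], [[], [], [(8, 3, 1), (16, 3, 74)], [(1, 2, 35), (16, 3, 74)]]⟩)
(.leaf ⟨5000, 16, 0, 17, 4, [(26, 31), (28, 28)], [[(2, 202, 51), (4, 202, 3), (6, 207, 16), (8, 202, 1)], [(1, 202, 33), (2, 202, 9), (3, 212, 88), (4, 202, 3), (5, 212, 82), (6, 212, 76), (7, 233, 90), (8, 202, 1), (9, 201, 45), (10, 201, 21)]]⟩))
(.node (.leaf ⟨4206, 24, 0, 24, 3, [(25, 31), (13, 29), (18, 22), (28, 29)], [[(1, 70, 33), (2, 55, 17), (3, 36, 64), (4, 1, 27), (6, 30, 16)], [(8, 111, 55), (16, 117, 0)]]⟩)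
(.leaf ⟨6569, 24, 0, 30, 3, [(20, 31), (9, 29), (2, 6)], [[], [], [(1, 394, 39), (4, 394, 13)], [(1, 396, 89), (2, 403, 15), (3, 430, 64)], [(1, 394, 83), (8, 394, 4), (9, 409, 44), (16, 394, 2)], [], [(1, 396, 47), (4, 394, 3), (5, 390, 82), (16, 394, 12), (17, 389, 86), (20, 388, 12)], [(1, 394, 89), (2, 366, 15), (3, 339, 64), (8, 394, 10), (9, 409, 68), (16, 394, 8), (17, 387, 86), (18, 454, 8), (19, 332, 60)]]⟩))))))

/-- A part of the certificate. -/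
def T3 : BT Lem := (.node (.node (.node (.node (.node (.node (.leaf ⟨1603, 16, 8, 16, 4, [(17, 23), (20, 31), (26, 31), (18, 31), (28, 31)], [[], []]⟩)
(.leaf ⟨8569, 28, 0, 28, 2, [(31, 31)], [[(1, 508, 33), (2, 508, 9), (3, 504, 64)], [(1, 508, 45), (2, 508, 21), (3, 506, 64), (4, 508, 19), (5, 503, 40), (6, 503, 16), (7, 501, 91), (8, 508, 18), (9, 503, 34), (10, 503, 10), (11, 501, 67)], [(1, 508, 39), (2, 508, 15), (3, 506, 70), (4, 508, 13), (5, 503, 46), (6, 503, 22), (7, 501, 115), (16, 508, 12), (17, 503, 32), (18, 503, 8), (19, 501, 61)], [(1, 508, 57), (2, 508, 51), (4, 508, 3), (5, 507, 41), (6, 507, 17), (8, 508, 1), (9, 507, 35), (10, 507, 11), (12, 503, 18), (13, 502, 44), (14, 502, 20), (16, 508, 0), (17, 507, 33), (18, 507, 9), (20, 503, 12), (21, 502, 38), (22, 502, 14), (24, 503, 6), (25, 502, 32), (26, 502, 8)]]⟩))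
(.leaf ⟨4206, 24, 0, 24, 3, [(10, 31), (14, 30), (19, 19), (20, 22)], [[(1, 68, 65), (4, 115, 106), (5, 32, 46)], [(1, 66, 71), (2, 115, 21), (8, 111, 31), (9, 61, 34), (10, 107, 20), (16, 115, 80), (17, 118, 32)]]⟩))
(.node (.leaf ⟨3206, 24, 4, 26, 3, [(17, 31), (10, 27), (21, 31), (9, 11), (18, 19)], [[], [], [], [], [(8, 2, 42), (16, 1, 48)], [], [(8, 2, 42), (16, 1, 48)], []]⟩)
(.leaf ⟨5569, 24, 0, 24, 3, [(26, 27), (2, 22), (21, 21)], [[(1, 285, 39), (4, 281, 92), (5, 283, 40)], [(1, 281, 69), (4, 241, 3), (8, 246, 7), (9, 304, 58), (12, 245, 5), (16, 285, 26), (17, 300, 32), (20, 284, 2)]]⟩)))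
(.node (.node (.leaf ⟨3000, 24, 0, 28, 3, [(22, 31), (5, 7), (12, 15), (17, 31), (2, 6)], [[(1, 5, 47)], [], [(1, 5, 47), (8, 16, 4), (16, 9, 56), (17, 7, 81)], []]⟩)
(.leaf ⟨4569, 28, 0, 12, 2, [(13, 31), (15, 31), (17, 19), (2, 3)], [[(1, 154, 89), (16, 138, 60)], [(4, 138, 90), (8, 138, 66), (16, 138, 60), (20, 140, 3), (24, 140, 1)]]⟩))
(.node (.leaf ⟨3603, 24, 0, 28, 3, [(22, 31), (12, 29), (17, 19), (2, 6)], [[(1, 43, 57)], [], [(8, 26, 1), (16, 26, 30)], [(2, 6, 88), (4, 26, 76), (8, 26, 49), (12, 28, 4)]]⟩)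
(.leaf ⟨5569, 28, 0, 20, 2, [(7, 31), (26, 26), (1, 3)], [[(2, 202, 15), (8, 202, 1), (10, 335, 10)], [(2, 218, 11), (4, 281, 3), (6, 275, 16), (8, 311, 52), (12, 274, 4), (16, 311, 50), (18, 336, 8), (24, 294, 7)]]⟩))))
(.node (.node (.node (.leaf ⟨2603, 24, 0, 24, 3, [(25, 31), (17, 29), (10, 14), (12, 30), (20, 21)], [[(1, 0, 33)], [(8, 1, 25), (16, 1, 0)]]⟩)
(.leaf ⟨4569, 24, 0, 24, 3, [(28, 29), (5, 7), (10, 14), (19, 23)], [[(1, 138, 93), (4, 139, 37)], [(1, 65, 33), (8, 68, 1), (9, 140, 58), (16, 111, 54), (17, 140, 56)]]⟩))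
(.node (.leaf ⟨3569, 24, 0, 24, 3, [(9, 15), (12, 15), (18, 22), (6, 6)], [[(2, 23, 15)], [(8, 24, 7), (16, 6, 14)]]⟩)
(.leaf ⟨5569, 24, 0, 29, 3, [(28, 31), (2, 6)], [[], [(1, 281, 35)], [(2, 285, 75), (4, 285, 73)], [(1, 282, 93), (2, 285, 75), (3, 312, 94), (4, 285, 73), (5, 312, 92)], [(8, 285, 28), (16, 285, 26)], [(1, 282, 33), (8, 285, 28), (9, 312, 34), (16, 285, 26), (17, 312, 32)], [], [(2, 306, 94), (4, 306, 92), (8, 306, 34), (10, 317, 52), (12, 317, 28), (16, 306, 32), (18, 317, 50), (20, 317, 26)]]⟩)))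
(.node (.node (.leaf ⟨3000, 24, 0, 24, 3, [(26, 31), (13, 31), (1, 7), (10, 27), (20, 20)], [[(4, 5, 73)], [(8, 5, 55), (16, 22, 2)]]⟩)
(.leaf ⟨4603, 24, 0, 24, 4, [(20, 23), (9, 25), (2, 6)], [[(1, 189, 35)], [(1, 189, 35), (8, 169, 20), (9, 193, 34), (16, 168, 0)]]⟩))
(.node (.leaf ⟨4000, 24, 0, 24, 3, [(20, 31), (10, 31), (1, 7), (6, 6)], [[(4, 59, 16)], [(2, 60, 23), (4, 60, 16), (8, 56, 20), (10, 76, 10), (16, 56, 12), (20, 76, 2)]]⟩)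
(.leaf ⟨6569, 16, 0, 25, 4, [(20, 31), (14, 14)], [[(2, 394, 21)], [(1, 394, 45), (2, 394, 21), (3, 387, 70), (4, 394, 19), (6, 408, 22)], [(2, 394, 11), (4, 394, 5), (8, 395, 10), (10, 391, 11)], [(1, 396, 47), (2, 394, 11), (3, 389, 70), (4, 394, 5), (5, 389, 46), (8, 403, 18), (9, 419, 44), (10, 398, 10), (11, 422, 108), (12, 398, 4)]]⟩)))))
(.node (.node (.node (.node (.leaf ⟨2000, 16, 0, 24, 4, [(29, 31), (18, 31), (17, 23), (26, 27), (20, 31)], [[], [(4, 0, 3), (8, 0, 1)]]⟩)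
(.leaf ⟨4206, 24, 0, 26, 3, [(13, 31), (10, 14), (28, 30), (1, 9)], [[(1, 111, 59), (4, 133, 3)], [], [(1, 111, 59), (8, 111, 25), (16, 111, 54), (17, 103, 32)], []]⟩))
(.node (.leaf ⟨3569, 24, 0, 28, 4, [(26, 31), (25, 31), (10, 26), (20, 20)], [[(1, 13, 69), (2, 24, 17), (3, 17, 118)], [], [(8, 23, 1), (16, 23, 6)], []]⟩)
(.leaf ⟨5569, 16, 0, 21, 4, [(26, 31), (18, 26)], [[(8, 286, 25)], [(1, 285, 35), (8, 246, 1), (9, 212, 34)], [(4, 285, 29), (8, 246, 31), (12, 212, 28)], [(1, 285, 35), (4, 285, 29), (5, 302, 40), (8, 254, 18), (9, 214, 58), (12, 214, 4), (13, 307, 42)]]⟩)))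
(.node (.node (.leaf ⟨3000, 16, 0, 28, 4, [(25, 31), (18, 22), (20, 28)], [[(1, 10, 33)], [], [(8, 5, 49)], [(1, 6, 71), (2, 5, 51), (3, 4, 95), (4, 5, 37)]]⟩)
(.leaf ⟨4603, 24, 0, 24, 3, [(18, 31), (13, 15), (1, 21), (22, 22)], [[(2, 168, 75), (4, 168, 16), (6, 172, 16)], [(1, 115, 111), (2, 138, 17), (3, 75, 64), (4, 168, 5), (8, 170, 1), (9, 73, 34), (12, 173, 4), (16, 170, 24), (18, 167, 14), (20, 166, 27)]]⟩))
(.node (.leaf ⟨4000, 24, 0, 26, 3, [(29, 31), (1, 19), (20, 21), (2, 6)], [[(4, 59, 13)], [], [(1, 70, 89), (8, 56, 34), (9, 62, 34), (16, 56, 2)], []]⟩)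
(.leaf ⟨6569, 24, 0, 28, 3, [(25, 31), (22, 22)], [[(1, 394, 39), (2, 394, 15), (3, 416, 88)], [(1, 417, 33), (2, 394, 23), (3, 413, 88), (4, 417, 3), (5, 419, 40), (6, 423, 16), (7, 422, 90)], [(2, 394, 9), (8, 394, 18), (10, 399, 11), (16, 403, 12), (18, 398, 8)], [(1, 395, 83), (4, 395, 76), (8, 395, 4), (9, 402, 68), (12, 421, 4), (16, 403, 12), (17, 401, 86), (20, 421, 2)]]⟩))))
(.node (.node (.node (.leaf ⟨2603, 24, 0, 25, 3, [(26, 31), (18, 27), (28, 31), (1, 3), (10, 27)], [[(4, 0, 3)], [], [(8, 1, 49), (16, 1, 48)], []]⟩)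
(.leaf ⟨4569, 28, 12, 16, 4, [(29, 31), (1, 19), (2, 2)], [[(1, 8, 59)], [(1, 5, 33), (16, 5, 14)], [(1, 5, 39), (16, 5, 8)], [(16, 8, 48)]]⟩))
(.node (.leaf ⟨3603, 24, 0, 28, 3, [(10, 31), (21, 29), (9, 31), (12, 14), (18, 22)], [[], [], [(1, 10, 105), (8, 26, 1), (9, 38, 34), (16, 37, 0)], []]⟩)
(.leaf ⟨5569, 24, 0, 24, 3, [(20, 31), (10, 31), (9, 15), (22, 22)], [[(4, 311, 37)], [(2, 282, 67), (4, 286, 76), (8, 286, 49), (10, 305, 52), (16, 286, 0), (20, 326, 2)]]⟩)))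
(.node (.node (.leaf ⟨3206, 16, 4, 24, 4, [(22, 31), (18, 31), (17, 27), (27, 27)], [[], [], [(1, 1, 57), (2, 2, 23), (8, 2, 18)], [(1, 1, 57), (2, 2, 23), (8, 2, 18)]]⟩)
(.leaf ⟨5000, 16, 0, 19, 4, [(24, 31), (28, 28)], [[(4, 202, 3)], [(1, 202, 57), (4, 202, 3), (5, 207, 40), (8, 202, 1)], [(2, 202, 51), (4, 202, 3), (6, 207, 16), (8, 202, 1)], [(1, 202, 33), (2, 202, 9), (3, 212, 88), (4, 202, 3), (5, 212, 82), (6, 212, 76), (7, 233, 90), (8, 202, 1), (9, 201, 45), (10, 201, 21)]]⟩))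
(.node (.leaf ⟨4206, 24, 0, 24, 3, [(26, 31), (12, 28), (17, 21), (22, 22)], [[(1, 115, 113), (2, 115, 61), (3, 132, 64)], [(4, 115, 43), (8, 111, 49), (12, 107, 42), (16, 111, 6)]]⟩)
(.leaf ⟨6569, 24, 0, 25, 3, [(12, 31), (26, 30), (1, 9)], [[(2, 395, 23)], [(1, 417, 33), (2, 395, 70), (3, 419, 64), (4, 395, 27), (6, 447, 16)], [(4, 395, 22), (8, 394, 18), (12, 421, 102), (16, 395, 8)], [(1, 395, 83), (4, 417, 3), (5, 449, 46), (16, 403, 12), (17, 421, 32), (20, 419, 36)]]⟩))))))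

/-- A part of the certificate. -/
def T4 : BT Lem := (.node (.node (.node (.node (.node (.node (.leaf ⟨2000, 24, 0, 28, 3, [(20, 31), (1, 7), (12, 15), (2, 7)], [[], [], [(8, 0, 1), (16, 0, 0)], []]⟩)
(.leaf ⟨8569, 24, 0, 30, 3, [(25, 31)], [[(1, 508, 45)], [(1, 508, 45), (2, 508, 21), (3, 503, 64)], [(1, 508, 45), (4, 508, 19), (5, 503, 40)], [(1, 508, 39), (2, 508, 15), (3, 503, 64), (4, 508, 13), (5, 503, 40), (6, 503, 16), (7, 511, 90)], [(8, 508, 1), (16, 508, 0)], [(1, 508, 33), (2, 508, 9), (8, 508, 1), (9, 503, 44), (10, 503, 20), (16, 508, 0), (17, 503, 38), (18, 503, 14)], [(1, 508, 33), (4, 508, 3), (8, 508, 1), (9, 503, 44), (12, 503, 18), (16, 508, 0), (17, 503, 38), (20, 503, 12)], [(1, 508, 33), (2, 508, 9), (3, 506, 94), (4, 508, 3), (5, 506, 92), (6, 506, 90), (8, 508, 1), (9, 503, 44), (10, 503, 20), (11, 501, 109), (12, 503, 18), (13, 501, 103), (14, 501,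 97), (16, 508, 0), (17, 503, 38), (18, 503, 14), (19, 501, 85), (20, 503, 12), (21, 501, 79), (22, 501, 73)]]⟩))
(.leaf ⟨4206, 24, 0, 28, 3, [(20, 31), (17, 23), (12, 28), (18, 22)], [[(1, 70, 33), (2, 70, 9), (3, 124, 118)], [], [(8, 111, 55), (16, 111, 6)], [(1, 115, 111), (2, 115, 67), (3, 124, 64), (4, 66, 22)]]⟩))
(.node (.leaf ⟨3206, 24, 2, 16, 4, [(26, 31), (1, 7), (10, 30), (12, 13), (21, 21)], [[(4, 1, 27), (8, 2, 7)], [(1, 2, 35), (4, 1, 27)]]⟩)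
(.leaf ⟨5569, 24, 0, 24, 3, [(25, 27), (12, 28), (18, 22)], [[(1, 281, 95), (2, 311, 15), (3, 258, 89)], [(4, 286, 3), (8, 285, 28), (12, 248, 4), (16, 281, 60)]]⟩)))
(.node (.node (.leaf ⟨3000, 16, 0, 16, 4, [(21, 31), (26, 31), (19, 31), (28, 28)], [[(1, 6, 45), (2, 6, 23), (4, 5, 79), (6, 7, 22), (8, 5, 49), (9, 7, 44)]]⟩)
(.leaf ⟨4569, 24, 0, 25, 3, [(10, 31), (14, 31), (18, 22), (4, 6)], [[], [(1, 138, 93), (2, 138, 15)], [(8, 138, 18), (16, 111, 30)], [(1, 65, 35), (8, 138, 18), (9, 141, 45), (16, 138, 12), (17, 140, 56)]]⟩))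
(.node (.leaf ⟨3603, 16, 0, 16, 4, [(18, 23), (25, 27), (20, 28)], [[(1, 26, 63), (8, 37, 55)]]⟩)
(.leaf ⟨5569, 24, 0, 24, 3, [(29, 31), (18, 23), (9, 25)], [[(2, 319, 51), (4, 236, 3), (6, 237, 16)], [(1, 286, 57), (4, 216, 13), (8, 286, 25), (9, 225, 58), (12, 225, 4), (16, 281, 12), (20, 337, 2)]]⟩))))
(.node (.node (.node (.leaf ⟨2603, 24, 0, 26, 3, [(12, 31), (21, 31), (9, 15), (20, 23), (2, 6)], [[], [], [(8, 2, 44), (16, 3, 24)], []]⟩)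
(.leaf ⟨4569, 24, 5, 24, 3, [(26, 31), (13, 31), (10, 26), (19, 31), (20, 28)], [[], [], [], [], [(8, 8, 10), (16, 8, 2)], [(2, 9, 91), (8, 5, 49), (16, 5, 24)], [(2, 13, 67), (16, 5, 30)], [(2, 16, 17)]]⟩))
(.node (.leaf ⟨3603, 24, 0, 24, 4, [(9, 27), (20, 22), (2, 6)], [[(1, 45, 89)], [(1, 46, 89), (8, 26, 1), (9, 36, 105), (16, 26, 0)]]⟩)
(.leaf ⟨5569, 24, 0, 28, 3, [(29, 31), (2, 6)], [[(1, 281, 35)], [(1, 282, 93), (2, 285, 75), (3, 312, 94), (4, 285, 73), (5, 312, 92)], [(1, 282, 33), (8, 285, 28), (9, 312, 34), (16, 285, 26), (17, 312, 32)], [(2, 306, 94), (4, 306, 92), (8, 306, 34), (10, 317, 52), (12, 317, 28), (16, 306, 32), (18, 317, 50), (20, 317, 26)]]⟩)))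
(.node (.node (.leaf ⟨3000, 24, 0, 28, 3, [(17, 31), (9, 31), (2, 7), (28, 31), (3, 3)], [[], [(1, 6, 57), (2, 5, 23), (4, 13, 82)], [(1, 6, 83), (8, 6, 18), (16, 6, 12)], []]⟩)
(.leaf ⟨4603, 24, 16, 8, 3, [(3, 7), (20, 20)], [[(1, 64, 33), (2, 64, 9), (4, 55, 3), (5, 57, 41), (6, 57, 17)], [(1, 65, 33), (2, 65, 9), (8, 55, 1), (9, 82, 34), (10, 82, 10)]]⟩))
(.node (.leaf ⟨4000, 24, 0, 24, 3, [(18, 31), (9, 15), (20, 31), (6, 6)], [[(2, 59, 17), (4, 59, 16)], [(2, 60, 17), (4, 60, 16), (8, 60, 1), (16, 60, 24), (18, 76, 8), (20, 76, 2)]]⟩)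
(.leaf ⟨6569, 16, 0, 18, 4, [(21, 31), (14, 14)], [[(1, 394, 45), (4, 394, 19), (8, 394, 18), (9, 387, 44), (12, 408, 18)], [(1, 396, 69), (2, 403, 21), (3, 419, 94), (4, 394, 16), (5, 389, 92), (6, 398, 17), (8, 394, 10), (9, 389, 68), (10, 398, 11), (11, 422, 109)]]⟩)))))
(.node (.node (.node (.node (.leaf ⟨2000, 24, 0, 30, 3, [(25, 31), (17, 31), (9, 31), (2, 7), (4, 5)], [[], [], [], [], [(8, 0, 1), (16, 0, 0)], [], [], []]⟩)
(.leaf ⟨4569, 24, 0, 17, 4, [(25, 31), (9, 27), (2, 7), (28, 28)], [[(4, 138, 3), (8, 154, 1)], [(1, 138, 33), (2, 138, 9), (4, 138, 3), (5, 140, 93), (6, 140, 91)]]⟩))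
(.node (.leaf ⟨3569, 24, 0, 24, 3, [(25, 29), (17, 31), (10, 26), (20, 20)], [[(1, 24, 35), (4, 23, 3), (5, 4, 41)], [(2, 24, 17), (8, 23, 1), (10, 7, 10), (16, 23, 6)]]⟩)
(.leaf ⟨5569, 16, 0, 28, 4, [(18, 31), (21, 29), (24, 31)], [[(1, 285, 59)], [(2, 286, 9), (4, 286, 27)], [], [(1, 285, 83), (2, 246, 15), (3, 300, 89), (8, 285, 1), (10, 290, 53)]]⟩)))
(.node (.node (.leaf ⟨3000, 24, 0, 24, 3, [(9, 31), (17, 31), (10, 26), (18, 30), (20, 20)], [[(4, 5, 73)], [(1, 13, 87), (2, 13, 67), (3, 12, 88), (8, 5, 49), (16, 5, 30)]]⟩)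
(.leaf ⟨4603, 24, 0, 24, 4, [(18, 31), (13, 29), (1, 7), (22, 22)], [[(4, 66, 37)], [(2, 66, 91), (4, 138, 16), (8, 169, 31), (12, 174, 4), (16, 170, 24), (18, 76, 8), (20, 148, 2)]]⟩))
(.node (.leaf ⟨4000, 24, 0, 26, 3, [(25, 31), (11, 31), (12, 14), (20, 20)], [[(1, 56, 39)], [(2, 68, 17), (4, 55, 3)], [(8, 55, 1), (16, 68, 0)], [(1, 56, 35), (2, 66, 17), (8, 55, 1), (9, 57, 35), (10, 57, 11), (16, 60, 24), (18, 61, 50)]]⟩)
(.leaf ⟨6569, 24, 0, 29, 3, [(26, 31), (7, 7)], [[(2, 394, 15)], [(1, 417, 33), (2, 417, 9), (3, 412, 65)], [(2, 417, 9), (4, 417, 27), (6, 412, 16)], [(1, 394, 39), (4, 394, 13), (5, 420, 40)], [(8, 394, 18), (16, 394, 12)], [(1, 395, 83), (2, 394, 88), (8, 403, 18), (9, 414, 35), (10, 409, 66), (16, 403, 12), (17, 414, 33), (18, 409, 60)], [(2, 394, 77), (4, 395, 82), (8, 403, 18), (10, 409, 20), (12, 414, 29), (16, 403, 12), (18, 409, 14), (20, 414,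 27)], [(1, 369, 41), (4, 369, 16), (5, 425, 40), (8, 395, 4), (9, 426, 34), (12, 426, 4), (13, 424, 42), (16, 395, 2), (17, 426, 32), (20, 426, 2), (21, 424, 36)]]⟩))))
(.node (.node (.node (.leaf ⟨2603, 24, 0, 25, 3, [(22, 31), (18, 23), (28, 31), (1, 3), (10, 27)], [[(4, 0, 3)], [], [(8, 2, 18), (16, 1, 48)], []]⟩)
(.leaf ⟨4569, 24, 0, 28, 4, [(26, 31), (10, 26), (17, 21), (20, 30)], [[(2, 115, 115)], [], [(8, 111, 31), (16, 138, 6)], [(1, 138, 41), (2, 115, 109), (3, 75, 65), (4, 138, 40), (16, 138, 6), (17, 135, 56), (20, 135, 2)]]⟩))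
(.node (.leaf ⟨3603, 24, 0, 24, 3, [(22, 31), (9, 27), (2, 22), (17, 25), (28, 28)], [[(4, 54, 40)], [(1, 46, 35), (2, 45, 9), (3, 40, 118), (8, 26, 25), (10, 34, 10), (16, 26, 0)]]⟩)
(.leaf ⟨5569, 24, 0, 24, 3, [(18, 31), (13, 31), (10, 30), (28, 28)], [[(1, 293, 57), (4, 319, 27)], [(1, 285, 59), (2, 285, 53), (3, 228, 64), (8, 286, 25), (9, 327, 34), (16, 285, 24), (17, 320, 56)]]⟩)))
(.node (.node (.leaf ⟨3206, 24, 8, 16, 4, [(28, 30), (21, 29), (9, 27), (10, 11), (18, 22)], [[(1, 3, 35), (4, 2, 22)], [(1, 3, 35), (16, 1, 48)]]⟩)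
(.leaf ⟨5000, 28, 0, 28, 2, [(1, 17), (18, 18)], [[(2, 202, 9)], [(2, 202, 9), (4, 202, 3), (6, 220, 100), (8, 202, 1), (10, 220, 98)], [(1, 202, 33), (4, 202, 27), (5, 212, 41), (16, 202, 24)], [(1, 202, 33), (4, 202, 13), (5, 207, 83), (8, 202, 7), (9, 207, 59), (12, 223, 28), (13, 221, 45), (16, 202, 6), (20, 206, 72), (24, 206, 48)]]⟩))
(.node (.leaf ⟨4206, 24, 0, 24, 3, [(28, 31), (5, 7), (10, 14), (22, 30)], [[(1, 58, 57), (4, 115, 90)], [(1, 65, 59), (8, 117, 25), (9, 118, 34), (16, 111, 54), (17, 61, 56)]]⟩)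
(.leaf ⟨7206, 28, 4, 26, 3, [(6, 31), (25, 27)], [[(1, 417, 35)], [(1, 368, 59), (2, 368, 53), (3, 457, 64)], [(1, 368, 33), (8, 379, 1), (9, 458, 34)], [(1, 369, 33), (2, 369, 9), (3, 456, 64)], [(8, 375, 4), (16, 375, 2)], [(1, 417, 87), (2, 417, 85), (8, 403, 18), (9, 460, 34), (10, 460, 10), (16, 403, 12), (17, 460, 32), (18, 460, 8)], [(8, 370, 1), (16, 370, 0), (24, 455, 0)], [(1, 365, 33), (2, 365, 9), (8, 371, 1), (9, 459, 34), (10, 459, 10), (16, 371, 0), (17, 459, 32), (18, 459, 8)]]⟩))))))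

/-- A part of the certificate. -/
def T5 : BT Lem := (.node (.node (.node (.node (.node (.node (.leaf ⟨2000, 16, 0, 26, 4, [(20, 31), (17, 25), (24, 25)], [[], [(2, 0, 9), (4, 0, 3)], [], []]⟩)
(.leaf ⟨8569, 24, 0, 28, 3, [(27, 31)], [[(1, 508, 45), (2, 508, 21), (3, 503, 64)], [(1, 508, 39), (2, 508, 15), (3, 503, 64), (4, 508, 13), (5, 503, 40), (6, 503, 16), (7, 511, 90)], [(1, 508, 33), (2, 508, 9), (8, 508, 1), (9, 503, 44), (10, 503, 20), (16, 508, 0), (17, 503, 38), (18, 503, 14)], [(1, 508, 33), (2, 508, 9), (3, 506, 94), (4, 508, 3), (5, 506, 92), (6, 506, 90), (8, 508, 1), (9, 503, 44), (10, 503, 20), (11, 501, 109), (12, 503, 18), (13, 501, 103), (14, 501, 97), (16, 508, 0), (17, 503, 38), (18, 503, 14), (19, 501, 85), (20, 503, 12), (21, 501, 79), (22, 501, 73)]]⟩))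
(.leaf ⟨4206, 28, 0, 12, 2, [(10, 31), (21, 31), (6, 30), (9, 11), (18, 18)], [[(1, 115, 81), (16, 115, 26)], [(2, 111, 61), (4, 56, 13), (8, 115, 31), (16, 111, 74), (20, 121, 12), (24, 125, 0)]]⟩))
(.node (.leaf ⟨3206, 16, 8, 18, 4, [(17, 31), (24, 30), (20, 29), (21, 21)], [[], [(1, 2, 69), (2, 2, 94)], [], [(1, 2, 69), (4, 1, 27)]]⟩)
(.leaf ⟨5569, 24, 0, 28, 3, [(26, 27), (6, 22), (17, 21)], [[(1, 311, 39), (2, 281, 94), (3, 253, 95)], [(1, 285, 39), (4, 281, 92), (5, 283, 40)], [(8, 285, 4), (16, 306, 32)], [(1, 281, 69), (4, 241, 3), (8, 246, 7), (9, 304, 58), (12, 245, 5), (16, 285, 26), (17, 300, 32), (20, 284, 2)]]⟩)))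
(.node (.node (.leaf ⟨3000, 24, 0, 24, 3, [(26, 31), (19, 31), (12, 28), (9, 15), (20, 20)], [[(2, 13, 61)], [(8, 8, 10), (16, 5, 54)]]⟩)
(.leaf ⟨4569, 24, 0, 24, 3, [(26, 31), (10, 26), (25, 27), (20, 28)], [[(1, 70, 57), (4, 115, 37), (5, 159, 40)], [(4, 66, 19), (8, 138, 1), (16, 138, 6), (20, 158, 2)]]⟩))
(.node (.leaf ⟨3603, 24, 16, 12, 3, [(9, 27), (20, 29), (2, 6), (17, 17)], [[], [(2, 16, 15), (4, 6, 3)], [(8, 5, 1)], [(2, 6, 9), (4, 16, 73)]]⟩)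
(.leaf ⟨5569, 24, 0, 24, 3, [(25, 31), (22, 22), (9, 25)], [[(2, 285, 75), (4, 285, 73), (6, 315, 16)], [(2, 281, 67), (4, 281, 43), (8, 246, 31), (10, 302, 52), (12, 302, 28), (16, 281, 12), (18, 279, 14), (20, 279, 12)]]⟩))))
(.node (.node (.node (.leaf ⟨2603, 16, 0, 19, 4, [(18, 31), (20, 30), (24, 24)], [[], [(1, 3, 105)], [], [(2, 1, 9), (4, 1, 3)]]⟩)
(.leaf ⟨4569, 16, 0, 24, 4, [(23, 31), (4, 14), (9, 13)], [[(1, 138, 45), (2, 68, 9), (3, 140, 88)], [(2, 60, 51), (4, 111, 37), (6, 76, 17), (8, 111, 31), (10, 76, 11)]]⟩))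
(.node (.leaf ⟨3603, 24, 0, 24, 3, [(26, 31), (12, 28), (17, 21), (20, 22)], [[(1, 45, 41), (2, 19, 70), (3, 36, 65)], [(8, 26, 7), (16, 23, 0)]]⟩)
(.leaf ⟨5569, 24, 0, 30, 4, [(9, 31), (20, 20)], [[(1, 281, 71)], [(1, 293, 41), (2, 293, 17), (3, 222, 64)], [], [], [(1, 282, 69), (8, 281, 66), (9, 305, 58), (16, 286, 0)], [(1, 281, 69), (2, 281, 67), (3, 223, 64), (8, 281, 66), (9, 300, 58), (10, 300, 52), (11, 221, 66), (16, 246, 0), (17, 318, 32), (18, 318, 8)], [], []]⟩)))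
(.node (.node (.leaf ⟨3000, 16, 0, 19, 4, [(28, 31), (25, 31), (26, 31), (20, 28)], [[(8, 10, 1)], [(1, 16, 35)], [(2, 16, 11)], [(1, 6, 71), (2, 6, 70), (3, 17, 64), (8, 6, 18)]]⟩)
(.leaf ⟨4603, 28, 0, 20, 2, [(17, 31), (6, 23), (9, 11), (18, 18)], [[(1, 168, 63), (8, 74, 110)], [(1, 169, 69), (4, 169, 16), (8, 59, 98), (12, 195, 4), (16, 196, 0), (17, 185, 32), (24, 194, 0)]]⟩))
(.node (.leaf ⟨4000, 24, 0, 24, 3, [(10, 31), (17, 31), (9, 27), (18, 27), (28, 28)], [[(4, 66, 13)], [(1, 97, 35), (2, 97, 9), (3, 96, 64), (8, 63, 49), (16, 63, 48)]]⟩)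
(.leaf ⟨6569, 28, 0, 14, 2, [(5, 31), (26, 31), (17, 19)], [[(16, 394, 50)], [(1, 395, 35), (2, 395, 11), (16, 369, 8), (17, 431, 32), (18, 431, 8)], [(1, 394, 71), (4, 417, 3), (5, 413, 83), (8, 417, 1), (16, 417, 36), (20, 412, 72), (24, 411, 48)], [(1, 374, 41), (2, 374, 17), (3, 408, 64), (4, 394, 13), (5, 416, 83), (6, 416, 77), (7, 406, 94), (8, 394, 7), (9, 409, 59), (10, 409, 53), (16, 395, 6), (17, 414, 62), (18, 414, 60), (24, 415, 48), (25, 405, 56), (26, 405, 50)]]⟩)))))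
(.node (.node (.node (.node (.leaf ⟨2000, 24, 0, 26, 3, [(25, 31), (17, 31), (9, 31), (2, 7), (12, 31), (20, 23)], [[], [], [(8, 0, 1), (16, 0, 0)], []]⟩)
(.leaf ⟨4569, 24, 0, 24, 3, [(21, 31), (10, 30), (1, 19), (2, 11), (28, 28)], [[(4, 138, 3)], [(1, 115, 69), (2, 139, 9), (3, 114, 64), (8, 138, 66), (9, 113, 34), (16, 111, 24)]]⟩))
(.node (.leaf ⟨3569, 24, 0, 18, 4, [(17, 31), (12, 30), (28, 28), (2, 6)], [[(4, 23, 3), (8, 24, 20)], []]⟩)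
(.leaf ⟨5569, 28, 0, 20, 2, [(17, 31), (14, 31), (5, 21), (26, 26)], [[(2, 285, 51), (8, 216, 1)], [(1, 254, 45), (2, 281, 94), (3, 310, 88), (4, 263, 3), (6, 215, 16), (8, 311, 1), (9, 310, 34), (12, 309, 4), (16, 311, 26), (18, 308, 14), (24, 308, 0)]]⟩)))
(.node (.node (.leaf ⟨3000, 24, 0, 12, 3, [(9, 31), (17, 31), (10, 14), (18, 31), (20, 20)], [[(16, 16, 0)], [(1, 13, 63), (2, 13, 61), (3, 4, 95), (4, 13, 5)]]⟩)
(.leaf ⟨4603, 24, 0, 28, 3, [(22, 31), (9, 15), (12, 28), (18, 22)], [[(2, 169, 15)], [], [(8, 170, 1), (16, 169, 30)], [(1, 115, 111), (2, 138, 17), (3, 75, 64), (4, 168, 5), (8, 170, 1), (9, 77, 34), (12, 173, 4)]]⟩))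
(.node (.leaf ⟨4000, 24, 0, 25, 3, [(9, 13), (20, 31), (6, 6)], [[(2, 56, 15), (4, 59, 16)], [], [(2, 55, 15), (4, 60, 16), (8, 60, 7), (10, 76, 21), (16, 55, 8), (18, 61, 50), (20, 76, 2)], []]⟩)
(.leaf ⟨6569, 24, 0, 28, 3, [(14, 31), (17, 31), (18, 22)], [[(1, 396, 39), (2, 394, 23), (3, 419, 64)], [(1, 394, 39), (4, 394, 13), (5, 407, 41)], [(1, 395, 83), (8, 395, 4), (16, 403, 12), (17, 421, 32)], [(1, 396, 41), (2, 394, 9), (3, 416, 65), (4, 394, 3), (5, 409, 41), (8, 394, 18), (9, 408, 34), (10, 399, 11), (11, 406, 68), (12, 399, 5), (16, 395, 2), (17, 414, 32), (20, 398, 2), (21, 405, 38)]]⟩))))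
(.node (.node (.node (.leaf ⟨2603, 24, 0, 24, 3, [(18, 22), (20, 28), (12, 29), (9, 9)], [[(2, 2, 94)], [(4, 1, 27), (8, 1, 1), (16, 1, 24)]]⟩)
(.leaf ⟨4569, 24, 0, 24, 3, [(9, 31), (22, 31), (21, 29), (12, 28), (18, 22)], [[(2, 138, 15)], [(1, 89, 33), (4, 138, 27), (5, 127, 40), (8, 138, 25), (9, 156, 34), (12, 134, 42), (16, 138, 0)]]⟩))
(.node (.leaf ⟨3603, 24, 0, 26, 3, [(12, 31), (17, 29), (13, 31), (10, 14), (20, 22)], [[(1, 19, 33)], [], [(1, 22, 35), (8, 26, 7), (16, 26, 0), (17, 21, 56)], []]⟩)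
(.leaf ⟨5569, 24, 0, 24, 3, [(17, 31), (12, 31), (9, 29), (30, 30)], [[(2, 263, 9)], [(1, 286, 81), (2, 285, 53), (3, 228, 65), (4, 286, 100), (5, 228, 41), (8, 286, 1), (10, 327, 10), (12, 326, 4), (16, 285, 2), (18, 320, 50)]]⟩)))
(.node (.node (.leaf ⟨3206, 16, 2, 16, 4, [(21, 29), (24, 24)], [[(1, 1, 33), (4, 1, 27)], [(1, 1, 33), (4, 1, 27)]]⟩)
(.leaf ⟨5206, 24, 0, 24, 3, [(17, 31), (14, 15), (5, 21), (18, 22)], [[(1, 257, 39), (2, 255, 15), (3, 253, 89), (4, 239, 5)], [(1, 247, 33), (4, 240, 5), (5, 251, 83), (8, 246, 1), (12, 251, 4), (16, 238, 26), (17, 250, 56), (20, 250, 2)]]⟩))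
(.node (.leaf ⟨4206, 24, 0, 24, 3, [(13, 31), (18, 31), (14, 30), (17, 21), (28, 28)], [[(1, 55, 33), (2, 55, 9), (3, 126, 64), (4, 98, 90)], [(2, 115, 61), (8, 111, 49), (16, 117, 24), (18, 119, 8)]]⟩)
(.leaf ⟨7569, 28, 0, 29, 2, [(22, 31), (9, 27)], [[(2, 477, 9)], [(1, 478, 33), (2, 478, 9), (3, 465, 64)], [(2, 480, 9), (4, 479, 3), (6, 469, 16), (8, 479, 1), (10, 466, 10)], [], [(4, 479, 5), (16, 479, 0)], [(1, 481, 33), (2, 481, 9), (4, 479, 5), (5, 471, 40), (6, 471, 16), (16, 479, 0), (17, 470, 32), (18, 470, 8)], [(2, 483, 9), (4, 482, 3), (6, 473, 22), (8, 482, 1), (12, 474, 4), (16, 482, 0), (18, 473, 8), (20, 466, 36), (22, 462, 12), (24, 472, 0)], [(1, 484, 33), (2, 484, 9), (3, 468, 64), (4, 482, 3), (5, 476, 40), (6, 476, 16), (7, 464, 90), (8, 482, 1), (9, 467, 34), (10, 467, 10), (12, 475, 4), (13, 463, 42), (14, 463, 18)]]⟩))))))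

/-- A part of the certificate. -/
def T6 : BT Lem := (.node (.node (.node (.node (.node (.node (.leaf ⟨2000, 16, 0, 24, 4, [(29, 31), (17, 31), (20, 31), (18, 18)], [[], [(1, 0, 33), (4, 0, 3), (8, 0, 1)]]⟩)
(.leaf ⟨8569, 24, 0, 24, 3, [(31, 31)], [[(1, 508, 39), (2, 508, 15), (3, 503, 64), (4, 508, 13), (5, 503, 40), (6, 503, 16), (7, 511, 90)], [(1, 508, 33), (2, 508, 9), (3, 506, 94), (4, 508, 3), (5, 506, 92), (6, 506, 90), (8, 508, 1), (9, 503, 44), (10, 503, 20), (11, 501, 109), (12, 503, 18), (13, 501, 103), (14, 501, 97), (16, 508, 0), (17, 503, 38), (18, 503, 14), (19, 501, 85), (20, 503, 12), (21, 501, 79), (22, 501, 73)]]⟩))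
(.leaf ⟨4206, 24, 0, 24, 3, [(30, 31), (12, 31), (25, 25), (2, 6)], [[(1, 58, 93)], [(4, 56, 29), (8, 111, 55), (12, 123, 28), (16, 111, 54)]]⟩))
(.node (.leaf ⟨3569, 24, 0, 24, 3, [(25, 31), (18, 26), (28, 30), (10, 26)], [[(1, 2, 41), (4, 1, 3), (5, 4, 41)], [(2, 23, 9), (8, 23, 7), (16, 23, 6)]]⟩)
(.leaf ⟨5569, 24, 0, 24, 3, [(28, 29), (5, 7), (18, 22)], [[(1, 281, 59), (2, 281, 94), (3, 249, 64), (4, 281, 5), (6, 287, 16)], [(1, 282, 57), (8, 281, 96), (9, 276, 58), (16, 311, 12), (17, 279, 57)]]⟩)))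
(.node (.node (.leaf ⟨3000, 16, 0, 27, 4, [(24, 31), (18, 31), (29, 31), (20, 28)], [[], [(1, 10, 33)], [], [(2, 16, 11)], [], [(8, 8, 10)], [(4, 8, 16)], [(1, 6, 47), (2, 6, 21), (4, 5, 73), (5, 7, 46), (8, 5, 55), (10, 7, 20)]]⟩)
(.leaf ⟨4569, 24, 0, 24, 3, [(17, 31), (12, 31), (10, 30), (20, 20)], [[(1, 66, 45)], [(1, 138, 41), (2, 138, 17), (3, 75, 65), (8, 138, 1), (10, 149, 10), (16, 111, 54), (17, 160, 32)]]⟩))
(.node (.leaf ⟨3603, 16, 0, 24, 4, [(19, 19), (20, 28)], [[(1, 26, 33), (2, 26, 9)], [(1, 26, 57), (2, 26, 51), (4, 26, 13), (5, 34, 41), (6, 34, 17), (8, 26, 7), (9, 34, 35), (10, 34, 11)]]⟩)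
(.leaf ⟨5569, 24, 0, 24, 3, [(12, 31), (2, 10), (28, 28)], [[(1, 293, 57), (2, 293, 51), (3, 322, 70)], [(1, 285, 57), (2, 285, 51), (3, 302, 70), (8, 281, 42), (9, 283, 58), (16, 286, 48), (17, 303, 56), (18, 210, 9), (19, 301, 61)]]⟩))))
(.node (.node (.node (.leaf ⟨2603, 24, 0, 16, 4, [(26, 30), (1, 7), (12, 31), (10, 31), (20, 20)], [[(2, 1, 9), (8, 3, 1)]]⟩)
(.leaf ⟨4569, 24, 0, 24, 3, [(13, 31), (10, 26), (17, 21), (20, 28)], [[(1, 138, 39), (4, 115, 37)], [(2, 138, 9), (4, 138, 5), (6, 120, 17), (8, 138, 1), (10, 134, 20), (16, 138, 0), (20, 134, 12)]]⟩))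
(.node (.leaf ⟨3603, 24, 0, 24, 3, [(13, 31), (26, 31), (10, 26), (17, 25), (28, 28)], [[(1, 45, 59), (4, 46, 3)], [(1, 45, 35), (8, 23, 31), (16, 26, 0), (17, 34, 32)]]⟩)
(.leaf ⟨5569, 28, 0, 29, 2, [(22, 31), (10, 26), (1, 3)], [[(2, 319, 9)], [], [(4, 293, 13), (8, 281, 4)], [], [(4, 238, 29), (16, 281, 0)], [], [(2, 286, 75), (4, 306, 114), (6, 264, 16), (8, 282, 1), (12, 224, 4), (16, 281, 36), (20, 297, 2), (24, 298, 0)], []]⟩)))
(.node (.node (.leaf ⟨3000, 16, 0, 27, 4, [(20, 31), (17, 31), (18, 31), (28, 28)], [[], [], [], [(4, 8, 16)], [(8, 10, 1)], [(1, 16, 35)], [(2, 16, 11)], [(1, 6, 71), (2, 6, 70), (3, 17, 64), (8, 6, 18)]]⟩)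
(.leaf ⟨4603, 24, 0, 28, 3, [(9, 15), (20, 21), (2, 6)], [[], [(1, 198, 33), (2, 168, 91), (3, 197, 64), (4, 168, 16)], [(8, 168, 31), (16, 170, 0)], []]⟩))
(.node (.leaf ⟨4000, 24, 0, 24, 3, [(18, 31), (1, 7), (10, 27), (28, 28)], [[(4, 98, 90)], [(2, 97, 11), (8, 63, 49), (16, 63, 48)]]⟩)
(.leaf ⟨6569, 28, 0, 28, 2, [(22, 31), (9, 27), (26, 26)], [[(1, 374, 35), (2, 395, 88), (3, 435, 64)], [(2, 394, 21), (4, 394, 13), (6, 364, 16), (8, 417, 25), (10, 363, 10)], [(1, 369, 35), (4, 394, 19), (5, 376, 40), (16, 417, 0), (17, 433, 32)], [(1, 365, 33), (4, 395, 82), (5, 377, 40), (8, 395, 58), (9, 437, 34), (12, 436, 4), (13, 432, 42), (16, 395, 50), (20, 434, 2), (24, 434, 0)]]⟩)))))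
(.node (.node (.node (.node (.leaf ⟨2000, 16, 0, 16, 4, [(22, 31), (25, 31), (17, 27), (18, 23), (28, 31)], [[(4, 0, 3), (8, 0, 1)]]⟩)
(.leaf ⟨4569, 24, 0, 24, 3, [(18, 30), (9, 15), (2, 19), (28, 28)], [[(4, 138, 3)], [(2, 139, 11), (8, 111, 55), (16, 111, 0)]]⟩))
(.node (.leaf ⟨3569, 24, 0, 8, 3, [(9, 29), (13, 31), (18, 22), (20, 20)], [[(2, 24, 11), (4, 23, 3), (6, 7, 16), (16, 23, 12)]]⟩)
(.leaf ⟨5569, 28, 0, 24, 3, [(6, 31), (25, 31), (5, 7), (26, 26)], [[(1, 281, 57), (2, 218, 9), (3, 314, 64), (4, 281, 3), (6, 313, 16)], [(4, 217, 3), (8, 238, 28), (12, 312, 4), (16, 238, 26), (20, 312, 2)]]⟩)))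
(.node (.node (.leaf ⟨3000, 24, 0, 16, 4, [(25, 31), (5, 7), (18, 23), (28, 28), (10, 26)], [[(1, 13, 69), (4, 5, 79), (8, 10, 25)]]⟩)
(.leaf ⟨4603, 24, 0, 28, 3, [(22, 31), (9, 15), (5, 21), (18, 22)], [[(2, 138, 15)], [(2, 168, 75), (4, 168, 16), (6, 172, 16)], [(8, 170, 1), (16, 170, 24)], [(1, 115, 111), (2, 138, 17), (3, 75, 64), (4, 168, 5), (8, 170, 1), (9, 73, 34), (12, 173, 4), (16, 170, 24), (18, 167, 14), (20, 166, 27)]]⟩))
(.node (.leaf ⟨4000, 24, 0, 24, 3, [(27, 31), (10, 31), (4, 4)], [[(1, 68, 41)], [(1, 60, 83), (2, 56, 11), (8, 55, 1), (9, 57, 35), (10, 57, 11), (16, 55, 0), (17, 57, 33)]]⟩)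
(.leaf ⟨6569, 24, 0, 28, 3, [(9, 31), (20, 29), (18, 22)], [[(2, 394, 23)], [(1, 394, 39), (2, 394, 15), (3, 420, 64), (4, 394, 13), (6, 408, 16)], [(1, 395, 83), (8, 395, 4), (9, 410, 35), (16, 395, 26)], [(1, 396, 87), (2, 394, 9), (3, 425, 64), (4, 394, 3), (5, 425, 40), (16, 403, 12), (17, 426, 32), (18, 398, 8), (19, 427, 60), (20, 398, 2)]]⟩))))
(.node (.node (.node (.leaf ⟨2603, 16, 0, 25, 4, [(24, 31), (18, 30), (30, 30), (20, 30)], [[], [(1, 0, 33)], [], [(2, 1, 9), (4, 1, 3), (8, 1, 1)]]⟩)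
(.leaf ⟨4569, 24, 0, 26, 3, [(10, 31), (21, 31), (14, 31), (12, 14), (17, 21)], [[(1, 59, 63)], [], [(8, 111, 49), (16, 111, 30)], [(2, 138, 23), (4, 66, 114), (8, 111, 49), (10, 142, 99), (12, 76, 4)]]⟩))
(.node (.leaf ⟨3603, 24, 0, 26, 4, [(20, 31), (9, 31), (21, 23), (12, 13), (18, 22)], [[(1, 2, 35)], [], [(1, 2, 35), (8, 26, 1), (9, 14, 59), (16, 37, 24)], []]⟩)
(.leaf ⟨5569, 28, 0, 28, 2, [(22, 31), (9, 27), (10, 11), (17, 19)], [[(1, 239, 87), (2, 239, 109), (3, 328, 64)], [(4, 281, 92), (8, 281, 68)], [(4, 281, 114), (16, 281, 60)], [(4, 240, 5), (8, 241, 1), (12, 230, 4), (16, 240, 0), (20, 276, 2), (24, 229, 0)]]⟩)))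
(.node (.node (.leaf ⟨3206, 24, 8, 16, 4, [(9, 27), (19, 23), (10, 27), (20, 20)], [[(1, 2, 35), (2, 2, 11)], [(1, 2, 35), (2, 2, 11), (16, 1, 48)]]⟩)
(.leaf ⟨5206, 16, 0, 16, 4, [(26, 31), (19, 31), (29, 29)], [[(1, 246, 63), (2, 254, 21), (4, 246, 13), (5, 250, 82), (6, 214, 16), (8, 246, 7), (9, 250, 58), (12, 250, 5)]]⟩))
(.node (.leaf ⟨4206, 16, 0, 16, 4, [(29, 31), (19, 31), (30, 30), (24, 28)], [[(1, 111, 63), (2, 111, 61), (4, 117, 27), (5, 119, 40), (6, 119, 16)]]⟩)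
(.leaf ⟨7569, 28, 0, 28, 2, [(9, 31), (22, 30)], [[(1, 478, 33), (2, 477, 9), (3, 465, 64)], [(1, 494, 33), (2, 480, 9), (3, 490, 64), (4, 479, 3), (6, 469, 16), (8, 479, 1), (9, 489, 34), (10, 466, 10), (11, 485, 66)], [(1, 481, 33), (4, 479, 5), (5, 491, 46), (16, 479, 0), (17, 491, 32)], [(1, 484, 33), (2, 483, 9), (3, 468, 64), (4, 482, 3), (5, 493, 46), (6, 473, 22), (7, 488, 114), (8, 482, 1), (9, 467, 34), (12, 492, 5), (13, 486, 43), (16, 482, 0), (17, 493, 32), (18, 473, 8), (19, 488, 60), (20, 466, 36), (22, 487, 12), (24, 492, 0), (25, 486, 30)]]⟩))))))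

/-- A part of the certificate. -/
def T7 : BT Lem := (.node (.node (.node (.node (.node (.node (.leaf ⟨2000, 24, 0, 24, 3, [(12, 31), (17, 31), (20, 22), (9, 31), (2, 6)], [[], [(1, 0, 33), (8, 0, 1), (16, 0, 0)]]⟩)
(.leaf ⟨9569, 31, 0, 31, 0, [], [[], [(1, 510, 33), (2, 510, 9)], [(1, 510, 57), (4, 510, 3)], [(1, 509, 41), (2, 509, 17), (3, 516, 64), (4, 509, 16), (5, 516, 40), (6, 516, 16)], [(1, 510, 81), (8, 510, 1)], [(1, 509, 35), (2, 509, 11), (3, 516, 88), (8, 509, 10), (9, 516, 34), (10, 516, 10)], [(1, 509, 59), (4, 509, 5), (5, 516, 82), (8, 509, 4), (9, 516, 58), (12, 516, 4)], [(1, 508, 45), (2, 508, 21), (3, 517, 64), (4, 508, 19), (5, 517, 40), (6, 517, 16), (7, 514, 90), (8, 508, 18), (9, 517, 34), (10, 517, 10), (11, 514, 66), (12, 517, 4), (13, 514, 42), (14, 514, 18)], [(1, 510, 105), (16, 510, 0)], [(1, 509, 33), (2, 509, 9), (3, 516, 112), (16, 509,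 8), (17, 516, 32), (18, 516, 8)], [(1, 509, 57), (4, 509, 3), (5, 516, 106), (16, 509, 2), (17, 516, 56), (20, 516, 2)], [(1, 508, 39), (2, 508, 15), (3, 517, 70), (4, 508, 13), (5, 517, 46), (6, 517, 22), (7, 514, 114), (16, 508, 12), (17, 517, 32), (18, 517, 8), (19, 514, 60), (20, 517, 2), (21, 514, 36), (22, 514, 12)], [(1, 509, 81), (8, 509, 1), (9, 516, 104), (16, 509, 0), (17, 516, 80), (24, 516, 0)], [(1, 508, 33), (2, 508, 9), (3, 517, 94), (8, 508, 7), (9, 517, 44), (10, 517, 20), (11, 514, 108), (16, 508, 6), (17, 517, 38), (18, 517, 14), (19, 514, 84), (24, 517, 0), (25, 514, 30), (26, 514, 6)], [(1, 508, 57), (4, 508, 3), (5, 517, 92), (8, 508, 1), (9, 517, 68), (12, 517, 18), (13, 514, 102), (16, 508, 0), (17, 517, 62), (20, 517, 12), (21, 514, 78), (24, 517, 6), (25, 514, 54), (28, 514, 0)], [(1, 512, 33), (2, 512, 9), (3, 518, 64), (4, 512, 3), (5, 518, 40),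 (6, 518, 16), (7, 515, 90), (8, 512, 1), (9, 518, 34), (10, 518, 10), (11, 515, 66), (12, 518, 4), (13, 515, 42), (14, 515, 18), (15, 513, 96), (16, 512, 0), (17, 518, 32), (18, 518, 8), (19, 515, 60), (20, 518, 2), (21, 515, 36), (22, 515, 12), (23, 513, 72), (24, 518, 0), (25, 515, 30), (26, 515, 6), (27, 513, 48), (28, 515, 0), (29, 513, 24), (30, 513, 0)]]⟩))
(.leaf ⟨4206, 16, 0, 28, 4, [(17, 31), (22, 30), (26, 30)], [[(2, 111, 61)], [(1, 60, 33), (4, 117, 27)], [(1, 60, 39), (8, 117, 25)], [(1, 68, 33), (2, 111, 61), (3, 69, 65), (4, 111, 79), (5, 69, 41), (8, 111, 55), (9, 69, 35), (12, 110, 28)]]⟩))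
(.node (.leaf ⟨3569, 24, 0, 24, 3, [(9, 25), (18, 22), (20, 20)], [[(2, 24, 11), (4, 23, 3), (6, 4, 17)], [(1, 24, 41), (8, 23, 1), (9, 4, 35), (16, 23, 30)]]⟩)
(.leaf ⟨5569, 24, 0, 24, 3, [(10, 31), (21, 23), (12, 28), (18, 26)], [[(1, 238, 33)], [(1, 306, 119), (2, 286, 99), (3, 288, 64), (4, 286, 3), (6, 267, 77), (8, 281, 42), (9, 242, 58), (12, 290, 5), (16, 281, 60), (17, 337, 56)]]⟩)))
(.node (.node (.leaf ⟨3000, 24, 0, 24, 3, [(12, 31), (9, 31), (20, 22), (2, 6)], [[], [(1, 19, 59), (8, 16, 7), (9, 4, 35), (16, 9, 54)]]⟩)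
(.leaf ⟨4569, 24, 0, 24, 3, [(17, 31), (10, 30), (13, 31), (20, 20)], [[(1, 56, 39), (4, 138, 3)], [(1, 138, 41), (2, 138, 17), (3, 67, 89), (8, 138, 1), (10, 149, 10), (16, 111, 54), (17, 147, 32)]]⟩))
(.node (.leaf ⟨3603, 24, 0, 25, 3, [(13, 31), (18, 23), (17, 31), (10, 26), (20, 20)], [[(4, 26, 3)], [(1, 45, 65)], [(8, 37, 1), (16, 26, 0)], [(1, 45, 89), (2, 45, 77), (16, 37, 6), (17, 42, 56)]]⟩)
(.leaf ⟨5603, 24, 0, 25, 3, [(26, 31), (28, 28)], [[(2, 348, 51), (4, 217, 90), (6, 231, 17)], [(1, 348, 35), (2, 348, 11), (3, 350, 64), (4, 217, 90), (5, 232, 41), (6, 232, 17), (7, 349, 90)], [(8, 352, 1), (16, 352, 0)], [(1, 346, 57), (2, 346, 51), (8, 352, 1), (9, 351, 34), (10, 351, 10), (16, 352, 0), (17, 351, 32), (18, 351, 8)]]⟩))))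
(.node (.node (.node (.leaf ⟨2603, 24, 0, 24, 3, [(14, 31), (9, 11), (2, 6), (20, 22)], [[(4, 3, 97)], [(8, 1, 1), (16, 2, 12)]]⟩)
(.leaf ⟨4569, 24, 0, 24, 3, [(31, 31), (1, 7), (12, 28), (18, 26)], [[(2, 115, 61)], [(2, 68, 9), (4, 68, 5), (6, 144, 17), (8, 138, 7), (12, 122, 4), (16, 138, 0), (18, 122, 8)]]⟩))
(.node (.leaf ⟨3603, 24, 0, 24, 3, [(26, 31), (21, 31), (12, 28), (17, 21), (22, 22)], [[(1, 46, 41), (2, 45, 17), (3, 32, 71)], [(4, 24, 16), (8, 26, 25), (12, 35, 4), (16, 23, 0)]]⟩)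
(.leaf ⟨5569, 24, 0, 26, 3, [(21, 31), (12, 28), (2, 6)], [[(1, 293, 39)], [], [(1, 281, 33), (4, 247, 3), (5, 320, 40), (8, 281, 31), (9, 287, 104), (12, 265, 4), (16, 281, 30), (17, 296, 33)], []]⟩)))
(.node (.node (.leaf ⟨3000, 24, 0, 26, 3, [(26, 31), (1, 7), (12, 28), (20, 20)], [[], [(1, 9, 57), (2, 9, 51)], [(8, 5, 55), (16, 5, 54)], []]⟩)
(.leaf ⟨4603, 24, 0, 24, 3, [(22, 31), (9, 31), (28, 28), (18, 22)], [[(2, 138, 11), (4, 138, 3), (6, 112, 16)], [(1, 168, 33), (8, 170, 1), (9, 121, 34), (16, 170, 24)]]⟩))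
(.node (.leaf ⟨4000, 24, 0, 25, 3, [(20, 31), (10, 30), (12, 14), (18, 22)], [[], [(1, 58, 33)], [(8, 63, 1), (16, 63, 0)], [(1, 65, 35), (8, 68, 1), (9, 99, 34), (16, 63, 0), (17, 99, 56)]]⟩)
(.leaf ⟨6569, 28, 0, 20, 2, [(25, 31), (6, 30), (26, 26)], [[(1, 365, 57), (8, 366, 1), (9, 441, 34)], [(1, 396, 35), (2, 394, 15), (3, 444, 64), (4, 394, 19), (5, 443, 40), (6, 232, 22), (7, 438, 114), (8, 367, 1), (9, 442, 58), (12, 440, 4), (16, 379, 0), (17, 442, 32), (24, 378, 0), (25, 439, 30)]]⟩)))))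
(.node (.node (.node (.node (.leaf ⟨2569, 16, 3, 16, 4, [(20, 28), (24, 28)], [[], [], [], []]⟩)
(.leaf ⟨4569, 24, 0, 26, 4, [(30, 31), (18, 27), (12, 28), (17, 19)], [[(4, 154, 29)], [], [(4, 154, 29), (8, 139, 52), (12, 136, 4), (16, 138, 0)], [(1, 138, 65), (2, 138, 64), (16, 138, 0), (17, 135, 32), (18, 135, 8)]]⟩))
(.node (.leaf ⟨3569, 24, 0, 24, 3, [(18, 31), (9, 31), (10, 30), (12, 31), (25, 31), (20, 20)], [[], [(2, 24, 17), (8, 23, 1), (16, 10, 0)]]⟩)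
(.leaf ⟨5569, 24, 0, 24, 3, [(30, 31), (13, 13), (18, 22)], [[(1, 281, 95), (2, 281, 94), (3, 310, 71), (4, 311, 29), (6, 308, 22)], [(1, 281, 63), (4, 241, 5), (8, 285, 28), (9, 295, 35), (12, 331, 43), (16, 246, 6), (17, 304, 56), (20, 245, 3)]]⟩)))
(.node (.node (.leaf ⟨3000, 24, 0, 16, 4, [(26, 31), (12, 13), (17, 23), (22, 22), (9, 25)], [[(2, 13, 67), (4, 13, 43), (8, 9, 7)]]⟩)
(.leaf ⟨4603, 24, 0, 24, 3, [(22, 31), (9, 29), (12, 14), (18, 22)], [[(2, 184, 77)], [(1, 65, 35), (8, 170, 1), (9, 175, 34), (16, 168, 6)]]⟩))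
(.node (.leaf ⟨4000, 24, 0, 24, 3, [(17, 31), (13, 29), (10, 14), (20, 22)], [[(1, 58, 57), (4, 83, 16)], [(1, 65, 59), (8, 56, 10), (16, 55, 32), (17, 38, 32)]]⟩)
(.leaf ⟨6569, 24, 0, 26, 3, [(9, 31), (6, 15), (20, 22)], [[(4, 394, 22)], [(1, 394, 39), (2, 394, 15), (4, 394, 13), (5, 420, 40), (6, 408, 16)], [(1, 395, 89), (8, 395, 10), (9, 421, 58), (16, 395, 26)], [(1, 396, 81), (2, 394, 9), (3, 425, 64), (4, 394, 3), (5, 425, 40), (8, 394, 18), (9, 408, 34), (10, 399, 11), (11, 385, 108), (16, 403, 12), (17, 426, 32), (18, 398, 8), (20, 398, 2), (21, 427, 36)]]⟩))))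
(.node (.node (.node (.leaf ⟨3000, 16, 0, 16, 4, [(25, 31), (26, 30), (28, 31), (20, 28)], [[(1, 2, 71), (2, 1, 9), (3, 4, 71), (8, 10, 1)]]⟩)
(.leaf ⟨4569, 16, 0, 20, 4, [(26, 31), (25, 29), (18, 26)], [[(1, 111, 63), (8, 111, 49)], [(1, 138, 39), (4, 138, 27), (5, 134, 46), (8, 138, 25), (9, 127, 34), (12, 134, 42)]]⟩))
(.node (.leaf ⟨3603, 16, 0, 20, 4, [(26, 31), (17, 21), (28, 28)], [[(2, 26, 75), (8, 26, 7)], [(1, 26, 33), (2, 26, 15), (3, 27, 89), (4, 26, 27), (6, 34, 16)]]⟩)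
(.leaf ⟨5569, 28, 0, 28, 2, [(14, 31), (17, 27), (9, 25), (18, 26)], [[(1, 319, 33), (2, 319, 11), (3, 253, 65)], [(4, 246, 5), (8, 281, 66)], [(4, 286, 3), (16, 281, 62)], [(1, 286, 81), (2, 286, 99), (3, 231, 64), (4, 247, 5), (5, 244, 46), (6, 269, 16), (7, 329, 90), (8, 285, 25), (12, 242, 4), (16, 241, 0), (20, 245, 2), (24, 284, 1)]]⟩)))
(.node (.node (.leaf ⟨3206, 24, 8, 16, 4, [(19, 31), (12, 31), (9, 31), (10, 31), (27, 31), (20, 20)], [[(1, 3, 59), (2, 3, 53)], [(1, 3, 59), (2, 3, 53), (16, 0, 0)]]⟩)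
(.leaf ⟨5206, 16, 0, 25, 4, [(30, 31), (20, 28)], [[(2, 246, 9)], [(1, 246, 33), (2, 246, 9), (3, 209, 70)], [(2, 246, 61), (4, 238, 3), (8, 238, 1), (10, 244, 11)], [(1, 246, 33), (2, 246, 9), (3, 244, 94), (4, 238, 3), (5, 242, 40), (6, 242, 16), (8, 238, 1), (9, 244, 35), (10, 244, 11), (11, 261, 67)]]⟩))
(.node (.leaf ⟨4206, 16, 0, 16, 4, [(21, 31), (26, 30), (28, 28)], [[(1, 115, 113), (2, 111, 61), (3, 67, 71), (4, 111, 13), (6, 109, 22), (8, 111, 7), (9, 61, 35)]]⟩)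
(.leaf ⟨7569, 24, 0, 28, 3, [(26, 30)], [[(1, 478, 39), (2, 477, 15), (3, 465, 88)], [(1, 479, 33), (2, 478, 61), (3, 489, 64), (4, 478, 37), (5, 489, 40), (6, 465, 76), (7, 485, 90)], [(1, 481, 39), (8, 479, 4), (9, 473, 68), (16, 479, 2), (17, 473, 62)], [(1, 482, 33), (2, 481, 61), (3, 467, 64), (4, 481, 37), (5, 467, 40), (8, 479, 4), (9, 475, 35), (10, 473, 20), (11, 463, 67), (12, 473, 18), (13, 463, 43), (16, 479, 2), (17, 475, 33), (18, 473, 14), (19, 463, 61), (20, 473, 12), (21, 463, 37)]]⟩))))))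

/-- A part of the certificate. -/
def T8 : BT Lem := (.node (.node (.node (.node (.node (.node (.leaf ⟨2000, 16, 0, 20, 4, [(25, 31), (20, 22), (18, 22)], [[(1, 0, 33), (8, 0, 1)], []]⟩)
(.leaf ⟨9569, 30, 0, 30, 1, [], [[(1, 510, 33)], [(1, 509, 41), (2, 509, 17), (3, 516, 64), (4, 509, 16), (5, 516, 40)], [(1, 509, 35), (2, 509, 11), (3, 516, 88), (8, 509, 10), (9, 516, 34)], [(1, 508, 45), (2, 508, 21), (3, 517, 64), (4, 508, 19), (5, 517, 40), (6, 516, 76), (7, 514, 90), (8, 508, 18), (9, 517, 34), (10, 516, 52), (11, 514, 66), (12, 516, 28), (13, 514, 42)], [(1, 509, 33), (2, 509, 9), (3, 516, 112), (16, 509, 8), (17, 516, 32)], [(1, 508, 39), (2, 508, 15), (3, 517, 70), (4, 508, 13), (5, 517, 46), (6, 516, 100), (7, 514, 114), (16, 508, 12), (17, 517, 32), (18, 516, 50), (19, 514, 60), (20, 516, 26), (21, 514, 36)], [(1, 508, 33), (2, 508, 9), (3, 517, 94), (8, 508,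 7), (9, 517, 44), (10, 516, 98), (11, 514, 108), (16, 508, 6), (17, 517, 38), (18, 516, 74), (19, 514, 84), (24, 516, 24), (25, 514, 30)], [(1, 512, 33), (2, 508, 51), (3, 518, 64), (4, 508, 27), (5, 518, 40), (6, 517, 90), (7, 515, 90), (8, 508, 25), (9, 518, 34), (10, 517, 66), (11, 515, 66), (12, 517, 42), (13, 515, 42), (14, 514, 96), (15, 513, 96), (16, 508, 24), (17, 518, 32), (18, 517, 60), (19, 515, 60), (20, 517, 36), (21, 515, 36), (22, 514, 72), (23, 513, 72), (24, 517, 30), (25, 515, 30), (26, 514, 48), (27, 513, 48), (28, 514, 24), (29, 513, 24)]]⟩))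
(.leaf ⟨4206, 24, 0, 24, 3, [(10, 31), (12, 14), (22, 22), (1, 9)], [[(1, 111, 35)], [(1, 111, 35), (2, 74, 77), (3, 129, 64), (8, 111, 25), (10, 82, 66), (16, 111, 30), (17, 128, 32)]]⟩))
(.node (.leaf ⟨3569, 24, 0, 26, 4, [(18, 23), (12, 28), (17, 23), (20, 23)], [[], [], [(8, 10, 1), (16, 23, 0)], []]⟩)
(.leaf ⟨5569, 24, 0, 24, 3, [(10, 31), (21, 29), (12, 14), (26, 30)], [[(1, 286, 59)], [(1, 306, 95), (8, 246, 7), (9, 250, 58), (16, 285, 50), (17, 220, 81)]]⟩)))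
(.node (.node (.leaf ⟨3000, 24, 0, 24, 3, [(10, 31), (17, 31), (15, 31), (18, 22), (4, 6)], [[(1, 18, 33)], [(1, 10, 81), (8, 9, 31), (16, 6, 38), (17, 17, 56)]]⟩)
(.leaf ⟨4569, 24, 0, 28, 3, [(20, 31), (10, 30), (1, 7), (12, 28), (18, 26)], [[], [], [(2, 138, 11), (8, 138, 7), (16, 138, 0)], [(1, 64, 119), (2, 138, 11), (3, 142, 95), (4, 89, 3), (6, 140, 90)]]⟩))
(.node (.leaf ⟨3603, 24, 16, 8, 3, [(25, 31), (14, 31), (2, 6), (20, 20)], [[(1, 9, 117), (4, 5, 73), (5, 7, 40)], [(8, 5, 49)]]⟩)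
(.leaf ⟨5603, 24, 0, 24, 3, [(28, 30), (3, 7)], [[(1, 281, 35), (2, 236, 9), (4, 236, 3), (5, 355, 40), (6, 354, 16)], [(1, 282, 33), (2, 216, 15), (8, 347, 4), (9, 353, 34), (10, 353, 10), (16, 347, 2), (17, 353, 32), (18, 353, 8)]]⟩))))
(.node (.node (.node (.leaf ⟨2603, 24, 0, 24, 3, [(9, 31), (4, 7), (10, 15), (17, 21), (22, 31)], [[], [(8, 2, 20), (16, 3, 48)]]⟩)
(.leaf ⟨4569, 24, 0, 24, 3, [(12, 31), (27, 31), (17, 27), (10, 30), (28, 28)], [[(1, 138, 35)], [(1, 115, 81), (2, 115, 67), (8, 111, 25), (10, 123, 10), (16, 111, 54), (17, 151, 32)]]⟩))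
(.node (.leaf ⟨3603, 16, 0, 24, 4, [(17, 27), (18, 30), (28, 28)], [[(4, 37, 27)], [(1, 26, 33), (2, 26, 9), (3, 33, 65), (8, 26, 1)]]⟩)
(.leaf ⟨5569, 28, 0, 12, 2, [(13, 31), (1, 13), (18, 18)], [[(1, 282, 63), (2, 285, 53), (3, 312, 64), (16, 311, 2), (17, 312, 62)], [(2, 246, 61), (4, 306, 106), (6, 321, 16), (8, 306, 104), (10, 321, 10), (16, 254, 0), (20, 321, 13), (24, 321, 7)]]⟩)))
(.node (.node (.leaf ⟨3000, 24, 0, 24, 3, [(12, 31), (17, 31), (10, 11), (18, 22), (5, 5)], [[(1, 16, 39)], [(1, 6, 33), (4, 6, 29), (8, 6, 18), (12, 15, 18), (16, 6, 38), (17, 15, 62)]]⟩)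
(.leaf ⟨4603, 24, 0, 24, 3, [(19, 31), (12, 30), (10, 15), (20, 20)], [[(1, 66, 69)], [(1, 183, 59), (8, 170, 7), (9, 200, 34), (16, 170, 0), (17, 199, 32)]]⟩))
(.node (.leaf ⟨4000, 24, 0, 24, 3, [(21, 31), (10, 30), (12, 14), (18, 22)], [[(1, 58, 33)], [(1, 65, 35), (8, 68, 1), (9, 99, 34), (16, 63, 0), (17, 99, 56)]]⟩)
(.leaf ⟨6569, 28, 0, 28, 2, [(21, 31), (10, 27), (19, 19)], [[(1, 395, 35), (2, 395, 11), (3, 410, 65)], [(1, 396, 39), (4, 394, 13), (5, 383, 40), (8, 394, 7), (9, 382, 34)], [(2, 394, 51), (4, 394, 19), (6, 413, 16), (16, 417, 24), (18, 412, 8)], [(1, 394, 57), (2, 394, 51), (4, 396, 79), (5, 383, 83), (6, 416, 16), (8, 395, 52), (10, 416, 10), (12, 408, 4), (14, 381, 18), (16, 395, 56), (17, 415, 32), (20, 414, 26), (21, 380, 36), (24, 414, 24)]]⟩)))))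
(.node (.node (.node (.node (.leaf ⟨2569, 16, 3, 16, 4, [(20, 30), (22, 30), (24, 28)], [[], [], [], []]⟩)
(.leaf ⟨4569, 24, 0, 24, 3, [(30, 30), (2, 7), (12, 28), (17, 19)], [[(1, 138, 63)], [(4, 115, 43), (8, 111, 25), (12, 151, 4), (16, 138, 0)]]⟩))
(.node (.leaf ⟨3569, 24, 0, 24, 3, [(20, 31), (25, 31), (12, 30), (18, 22), (6, 6)], [[(1, 10, 65), (2, 23, 15), (3, 11, 88)], [(4, 24, 16), (8, 24, 7), (16, 24, 0)]]⟩)
(.leaf ⟨5569, 24, 0, 24, 3, [(3, 7), (28, 28)], [[(1, 281, 33), (2, 281, 9), (4, 217, 90), (5, 279, 92), (6, 279, 90)], [(1, 282, 33), (2, 282, 9), (8, 311, 20), (9, 308, 45), (10, 308, 21), (16, 311, 14), (17, 308, 39), (18, 308, 15)]]⟩)))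
(.node (.node (.leaf ⟨3000, 24, 0, 24, 3, [(28, 31), (5, 7), (10, 11), (22, 31), (1, 5)], [[(4, 13, 100)], [(8, 16, 28), (16, 16, 26)]]⟩)
(.leaf ⟨4603, 24, 0, 28, 4, [(22, 31), (9, 29), (5, 7), (18, 22)], [[(1, 169, 93)], [(4, 66, 37)], [(1, 169, 93), (8, 170, 1), (9, 175, 34), (16, 170, 24)], [(2, 66, 91), (4, 138, 16), (8, 169, 31), (12, 174, 4), (16, 170, 24), (18, 76, 8), (20, 148, 2)]]⟩))
(.node (.leaf ⟨4000, 16, 0, 20, 4, [(17, 31), (26, 26)], [[(2, 55, 9), (8, 55, 7)], [(1, 60, 33), (2, 55, 9), (3, 57, 71), (4, 60, 27), (6, 57, 22), (8, 55, 7), (9, 57, 69), (12, 57, 19)]]⟩)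
(.leaf ⟨6569, 24, 0, 24, 3, [(10, 31), (17, 31), (28, 28)], [[(1, 394, 39), (4, 394, 13), (5, 419, 40)], [(1, 395, 89), (2, 395, 88), (3, 425, 64), (8, 395, 28), (10, 421, 52), (16, 395, 2), (17, 421, 56)]]⟩))))
(.node (.node (.node (.leaf ⟨3000, 16, 0, 24, 4, [(17, 31), (18, 30), (20, 31), (28, 28)], [[], [(1, 2, 71), (2, 1, 9), (3, 4, 71), (8, 10, 1)]]⟩)
(.leaf ⟨4569, 24, 0, 26, 3, [(30, 31), (10, 31), (9, 11), (20, 28)], [[(4, 89, 3)], [], [(4, 89, 27), (8, 138, 1), (16, 111, 24), (20, 61, 2)], [(1, 138, 71), (2, 138, 70), (8, 138, 1), (9, 135, 34), (10, 135, 10)]]⟩))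
(.node (.leaf ⟨3603, 16, 0, 28, 4, [(18, 31), (17, 21), (20, 28)], [[], [], [(2, 26, 75), (8, 26, 7)], [(1, 26, 33), (2, 26, 15), (3, 27, 89), (4, 26, 27), (6, 34, 16)]]⟩)
(.leaf ⟨5569, 24, 0, 28, 3, [(25, 31), (12, 28), (18, 22)], [[(1, 293, 39), (2, 311, 15), (3, 258, 89)], [], [(8, 285, 28), (16, 281, 60)], [(1, 286, 57), (2, 281, 67), (3, 213, 65), (4, 241, 27), (8, 246, 31), (9, 322, 34), (10, 304, 52), (11, 330, 66), (12, 245, 29)]]⟩)))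
(.node (.node (.leaf ⟨3206, 24, 16, 8, 3, [(17, 29), (13, 31), (10, 14), (20, 22), (6, 7)], [[(1, 3, 33), (4, 2, 43)], [(1, 3, 33), (8, 2, 20)]]⟩)
(.leaf ⟨5206, 24, 0, 24, 3, [(14, 15), (3, 7), (20, 22)], [[(1, 238, 33), (2, 239, 11), (4, 255, 13), (5, 260, 92)], [(1, 240, 33), (2, 240, 11), (8, 238, 52), (9, 258, 110), (10, 271, 11), (16, 238, 50), (17, 208, 62), (18, 258, 84)]]⟩))
(.node (.leaf ⟨4206, 24, 0, 24, 3, [(1, 23), (2, 14), (12, 28), (20, 20)], [[(2, 115, 61)], [(1, 68, 33), (2, 115, 61), (3, 127, 118), (8, 111, 7), (9, 72, 44), (16, 111, 6), (18, 110, 50)]]⟩)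
(.leaf ⟨7569, 24, 0, 24, 3, [(30, 31), (1, 23)], [[(2, 478, 61), (4, 478, 37), (6, 465, 76)], [(1, 482, 33), (2, 481, 61), (3, 496, 64), (4, 481, 37), (5, 496, 40), (8, 479, 4), (9, 495, 34), (10, 471, 52), (11, 461, 67), (12, 471, 28), (13, 461, 43), (16, 479, 2), (18, 470, 60), (20, 470, 36)]]⟩))))))

/-- A part of the certificate. -/
def T9 : BT Lem := (.node (.node (.node (.node (.node (.node (.leaf ⟨2000, 16, 0, 24, 4, [(17, 31), (20, 31), (18, 19), (25, 27)], [[], [(4, 0, 3), (8, 0, 1)]]⟩)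
(.leaf ⟨9569, 28, 0, 28, 2, [], [[(1, 509, 41), (2, 509, 17), (3, 516, 64)], [(1, 508, 45), (2, 508, 21), (3, 517, 64), (4, 508, 19), (5, 516, 82), (6, 516, 76), (7, 514, 90), (8, 508, 18), (9, 516, 58), (10, 516, 52), (11, 514, 66)], [(1, 508, 39), (2, 508, 15), (3, 517, 70), (4, 508, 13), (5, 516, 106), (6, 516, 100), (7, 514, 114), (16, 508, 12), (17, 516, 56), (18, 516, 50), (19, 514, 60)], [(1, 508, 57), (2, 508, 51), (3, 518, 64), (4, 508, 3), (5, 517, 92), (6, 517, 90), (7, 515, 90), (8, 508, 1), (9, 517, 68), (10, 517, 66), (11, 515, 66), (12, 516, 96), (13, 514, 102), (14, 514, 96), (15, 513, 96), (16, 508, 0), (17, 517, 62), (18, 517, 60), (19, 515, 60), (20, 516, 72), (21, 514, 78), (22, 514, 72), (23, 513, 72), (24, 516, 48), (25, 514, 54), (26, 514, 48), (27, 513, 48)]]⟩))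
(.leaf ⟨4206, 24, 0, 24, 3, [(25, 31), (12, 30), (2, 10), (30, 30)], [[(1, 66, 69), (2, 117, 53), (3, 119, 70)], [(2, 111, 109), (4, 115, 43), (8, 111, 1), (12, 110, 28), (16, 111, 30), (18, 110, 50)]]⟩))
(.node (.leaf ⟨3569, 24, 0, 20, 4, [(10, 30), (17, 23), (26, 26), (4, 6)], [[(2, 23, 9), (8, 24, 18)], []]⟩)
(.leaf ⟨5569, 24, 0, 24, 3, [(18, 31), (13, 29), (3, 7), (20, 22)], [[(1, 281, 35), (2, 311, 15), (4, 311, 13), (6, 290, 16)], [(1, 281, 33), (2, 306, 115), (8, 281, 98), (9, 276, 34), (16, 281, 74), (17, 279, 33), (18, 289, 8)]]⟩)))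
(.node (.node (.leaf ⟨3000, 24, 0, 24, 3, [(10, 31), (17, 31), (3, 7), (20, 21), (12, 14)], [[(1, 16, 111)], [(1, 19, 57), (2, 19, 53), (8, 19, 52), (10, 14, 11), (16, 19, 56), (17, 14, 33)]]⟩)
(.leaf ⟨4569, 28, 12, 16, 4, [(10, 31), (5, 31), (6, 7), (9, 11), (19, 19)], [[(1, 16, 57), (2, 16, 75)], [(1, 13, 81), (16, 19, 24)], [(2, 13, 51), (16, 19, 2)], [(16, 22, 0)]]⟩))
(.node (.leaf ⟨4000, 24, 0, 28, 3, [(11, 31), (22, 31), (25, 31), (12, 14), (18, 22)], [[(1, 58, 33), (2, 66, 9)], [], [(8, 59, 1), (16, 68, 0)], []]⟩)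
(.leaf ⟨5603, 24, 0, 25, 3, [(28, 30), (2, 7)], [[(4, 236, 3)], [(1, 281, 35), (2, 236, 9), (4, 236, 3), (5, 355, 40), (6, 354, 16)], [(8, 345, 7), (16, 345, 6)], [(1, 282, 33), (2, 216, 15), (8, 347, 4), (9, 353, 34), (10, 353, 10), (16, 347, 2), (17, 353, 32), (18, 353, 8)]]⟩))))
(.node (.node (.node (.leaf ⟨2603, 24, 0, 24, 3, [(17, 27), (9, 31), (12, 14), (22, 31), (2, 6)], [[], [(1, 2, 33), (8, 2, 18), (16, 1, 0)]]⟩)
(.leaf ⟨4569, 24, 0, 28, 3, [(25, 31), (9, 27), (18, 22), (28, 28)], [[(2, 138, 11)], [(2, 138, 11), (4, 138, 5), (6, 149, 16)], [(8, 111, 55), (16, 111, 24)], []]⟩))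
(.node (.leaf ⟨3603, 16, 0, 16, 4, [(20, 31), (19, 27), (24, 28)], [[(1, 26, 39), (2, 26, 15)]]⟩)
(.leaf ⟨5569, 24, 0, 24, 3, [(25, 31), (6, 6)], [[(1, 282, 93), (2, 285, 75), (3, 312, 94), (4, 285, 73), (5, 312, 92)], [(2, 306, 94), (4, 306, 92), (8, 306, 34), (10, 317, 52), (12, 317, 28), (16, 306, 32), (18, 317, 50), (20, 317, 26)]]⟩)))
(.node (.node (.leaf ⟨3206, 24, 4, 24, 3, [(9, 11), (18, 22), (20, 28), (10, 26)], [[], [], [(8, 1, 1), (16, 1, 48)], [(2, 1, 9), (16, 1, 48)]]⟩)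
(.leaf ⟨4809, 24, 8, 16, 4, [(25, 31), (22, 31), (2, 22), (28, 28)], [[(1, 74, 33), (2, 66, 61), (3, 73, 64), (4, 98, 90), (5, 72, 40)], [(2, 115, 67), (16, 111, 54)]]⟩))
(.node (.leaf ⟨4000, 28, 0, 28, 2, [(22, 31), (13, 31), (10, 11), (17, 19), (3, 3)], [[(1, 55, 63), (2, 55, 67)], [(4, 66, 43), (8, 89, 66)], [(4, 66, 13), (16, 89, 60)], [(4, 68, 3), (8, 97, 108), (12, 100, 28), (16, 97, 86), (20, 100, 2), (24, 96, 49)]]⟩)
(.leaf ⟨6569, 24, 0, 28, 3, [(29, 31), (26, 30)], [[(1, 417, 33), (2, 417, 9), (3, 419, 64)], [(1, 394, 39), (2, 394, 15), (3, 420, 64), (4, 394, 13), (5, 420, 40), (6, 419, 16), (7, 418, 90)], [(1, 395, 83), (8, 403, 18), (9, 421, 34), (16, 403, 12), (17, 421, 32)], [(2, 395, 88), (4, 395, 82), (8, 403, 18), (10, 421, 52), (12, 421, 28), (16, 403, 12), (18, 421, 50), (20, 421, 26)]]⟩)))))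
(.node (.node (.node (.node (.leaf ⟨2569, 16, 3, 16, 4, [(24, 31), (25, 31), (26, 30), (20, 28)], [[], [], [], []]⟩)
(.leaf ⟨4569, 16, 0, 20, 4, [(26, 30), (22, 31), (17, 19)], [[(2, 111, 61), (8, 111, 25)], [(4, 138, 3), (8, 138, 1), (12, 134, 18)]]⟩))
(.node (.leaf ⟨3569, 24, 0, 10, 3, [(9, 31), (2, 7), (17, 23), (20, 20)], [[(4, 23, 3), (16, 1, 72)], []]⟩)
(.leaf ⟨5569, 24, 0, 28, 3, [(26, 31), (9, 13), (22, 22)], [[(2, 281, 91)], [(1, 281, 95), (2, 281, 94), (3, 310, 71), (4, 311, 29), (6, 308, 22)], [(8, 246, 31), (16, 285, 2)], [(1, 281, 63), (4, 241, 5), (8, 285, 28), (9, 295, 35), (12, 331, 43), (16, 246, 6), (17, 304, 56), (20, 245, 3)]]⟩)))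
(.node (.node (.leaf ⟨3000, 16, 0, 16, 4, [(17, 31), (26, 31), (22, 31), (28, 28)], [[(2, 6, 70), (4, 5, 73), (8, 5, 49)]]⟩)
(.leaf ⟨4603, 16, 0, 16, 4, [(20, 31), (27, 31), (28, 28)], [[(1, 138, 33), (2, 138, 9), (3, 176, 64), (8, 170, 7), (9, 165, 58), (10, 165, 52)]]⟩))
(.node (.leaf ⟨4000, 16, 0, 16, 4, [(30, 31), (18, 31), (17, 19)], [[(4, 68, 16), (8, 68, 10), (12, 90, 4)]]⟩)
(.leaf ⟨6569, 24, 0, 24, 3, [(12, 31), (19, 31), (22, 22)], [[(1, 394, 39), (2, 394, 15), (3, 407, 65)], [(1, 396, 65), (2, 394, 9), (3, 409, 65), (4, 394, 3), (5, 416, 41), (8, 394, 18), (9, 408, 34), (10, 399, 11), (12, 399, 5), (13, 406, 44), (16, 395, 8), (17, 414, 56), (18, 398, 8), (19, 405, 62)]]⟩))))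
(.node (.node (.node (.leaf ⟨3000, 24, 0, 28, 3, [(12, 14), (17, 31), (23, 31), (2, 6)], [[(1, 16, 111)], [], [(1, 19, 57), (8, 6, 18), (16, 16, 6), (17, 4, 33)], []]⟩)
(.leaf ⟨4569, 24, 0, 24, 3, [(26, 31), (10, 30), (12, 14), (17, 25)], [[(1, 89, 33)], [(1, 89, 57), (8, 138, 31), (16, 139, 2), (17, 136, 32)]]⟩))
(.node (.leaf ⟨3603, 24, 0, 29, 3, [(10, 31), (17, 27), (9, 29), (12, 13), (18, 22)], [[], [], [], [(2, 49, 17)], [(8, 26, 1), (16, 26, 24)], [(1, 49, 33)], [], [(2, 50, 9), (4, 13, 79), (16, 26, 24), (18, 47, 8)]]⟩)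
(.leaf ⟨5569, 24, 0, 24, 3, [(30, 31), (9, 31), (2, 22), (21, 21)], [[(4, 281, 92)], [(1, 281, 69), (2, 286, 51), (3, 213, 64), (4, 241, 3), (8, 246, 7), (9, 304, 58), (10, 322, 10), (11, 329, 68), (12, 245, 5), (16, 285, 26), (20, 284, 2)]]⟩)))
(.node (.node (.leaf ⟨3206, 24, 2, 24, 3, [(12, 31), (19, 31), (1, 7), (10, 30), (20, 20)], [[], [], [(8, 2, 66), (16, 3, 0)], [(1, 2, 35), (8, 2, 66)]]⟩)
(.leaf ⟨5206, 24, 0, 26, 3, [(12, 15), (1, 7), (22, 22)], [[], [(1, 238, 33), (2, 239, 11), (4, 255, 13), (5, 260, 92)], [(8, 240, 28), (16, 240, 26)], [(1, 240, 33), (2, 240, 11), (8, 238, 52), (9, 258, 110), (10, 271, 11), (16, 238, 50), (17, 208, 62), (18, 258, 84)]]⟩))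
(.node (.leaf ⟨4206, 24, 0, 24, 3, [(5, 15), (9, 25), (20, 21), (3, 7)], [[(2, 55, 91), (4, 70, 27), (6, 32, 22)], [(1, 64, 35), (2, 65, 9), (8, 111, 7), (9, 69, 34), (10, 61, 10), (16, 111, 24), (18, 116, 50)]]⟩)
(.leaf ⟨7569, 24, 0, 24, 3, [(21, 31), (10, 30)], [[(1, 477, 65), (4, 479, 3), (5, 491, 40)], [(1, 480, 47), (2, 480, 64), (3, 468, 70), (4, 480, 46), (5, 468, 40), (6, 473, 16), (7, 464, 91), (8, 479, 4), (9, 466, 44), (10, 473, 10), (11, 463, 66), (12, 466, 42), (14, 463, 20), (16, 479, 2), (17, 466, 62), (20, 469, 36), (21, 464, 78)]]⟩))))))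

/-- A part of the certificate. -/
def T10 : BT Lem := (.node (.node (.node (.node (.node (.node (.leaf ⟨2000, 16, 0, 24, 4, [(17, 31), (30, 31), (18, 31), (20, 31), (25, 25)], [[], [(2, 0, 9), (4, 0, 3), (8, 0, 1)]]⟩)
(.leaf ⟨9569, 24, 0, 24, 3, [], [[(1, 508, 45), (2, 508, 21), (3, 516, 88), (4, 508, 19), (5, 516, 82), (6, 516, 76), (7, 514, 90)], [(1, 508, 33), (2, 508, 9), (3, 517, 94), (4, 508, 3), (5, 517, 92), (6, 517, 90), (7, 515, 90), (8, 508, 1), (9, 516, 104), (10, 516, 98), (11, 514, 108), (12, 516, 96), (13, 514, 102), (14, 514, 96), (15, 513, 96), (16, 508, 0), (17, 516, 80), (18, 516, 74), (19, 514, 84), (20, 516, 72), (21, 514, 78), (22, 514, 72), (23, 513, 72)]]⟩))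
(.leaf ⟨4206, 28, 0, 20, 2, [(5, 31), (6, 22), (9, 11), (18, 18)], [[(8, 74, 110)], [(1, 55, 63), (4, 66, 37), (5, 93, 40), (8, 59, 98), (12, 106, 5), (16, 58, 0), (24, 105, 0)]]⟩))
(.node (.leaf ⟨3569, 16, 0, 20, 4, [(22, 30), (21, 31), (24, 28)], [[(1, 2, 95), (2, 1, 9), (3, 4, 95)], [(4, 23, 3), (8, 23, 1)]]⟩)
(.leaf ⟨5569, 16, 0, 24, 4, [(29, 31), (18, 26)], [[(1, 285, 33), (4, 285, 27), (5, 290, 82)], [(1, 286, 57), (2, 281, 91), (3, 288, 64), (4, 286, 3), (6, 288, 17), (8, 281, 42), (9, 288, 34), (12, 288, 4)]]⟩)))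
(.node (.node (.leaf ⟨3000, 16, 0, 18, 4, [(20, 31), (23, 31), (29, 31), (24, 28)], [[(1, 16, 41)], [(1, 6, 71), (2, 6, 70), (3, 17, 88), (4, 6, 19)]]⟩)
(.leaf ⟨4569, 28, 0, 28, 2, [(5, 31), (2, 19), (9, 11), (18, 18)], [[], [(4, 138, 5), (8, 115, 25)], [(1, 138, 65), (4, 138, 3), (5, 31, 40), (16, 138, 60)], [(4, 138, 16), (8, 138, 10), (12, 127, 18), (16, 65, 2), (20, 161, 26), (24, 162, 0)]]⟩))
(.node (.leaf ⟨4000, 16, 0, 16, 4, [(21, 31), (26, 26)], [[(1, 60, 33), (2, 55, 9), (3, 57, 71), (4, 60, 27), (6, 57, 22), (8, 55, 7), (9, 57, 69), (12, 57, 19)]]⟩)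
(.leaf ⟨5603, 24, 0, 29, 3, [(17, 31), (12, 29), (18, 22)], [[(2, 311, 15)], [(1, 348, 39), (2, 347, 9), (3, 358, 64)], [], [(2, 241, 75), (4, 311, 37), (6, 359, 16)], [(8, 345, 7), (16, 345, 0)], [(1, 346, 39), (16, 345, 2), (17, 318, 56)], [(2, 345, 11), (4, 285, 27), (8, 345, 4), (10, 305, 52), (12, 320, 28)], [(1, 345, 35), (2, 281, 67), (3, 213, 65), (4, 286, 76), (5, 213, 41), (8, 345, 1), (9, 356, 34), (10, 304, 52), (11, 357, 66), (16, 345, 30), (18, 300, 8), (20, 326, 2)]]⟩))))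
(.node (.node (.node (.leaf ⟨2603, 24, 16, 8, 3, [(17, 31), (14, 31), (9, 25), (18, 22), (20, 22)], [[(2, 0, 9), (4, 0, 3)], [(1, 0, 33), (8, 0, 1)]]⟩)
(.leaf ⟨4569, 24, 0, 24, 3, [(10, 31), (9, 27), (18, 26), (28, 28)], [[(4, 138, 3)], [(1, 68, 33), (2, 115, 61), (3, 152, 64), (8, 138, 7), (9, 150, 58), (16, 111, 24)]]⟩))
(.node (.leaf ⟨3603, 16, 0, 21, 4, [(18, 31), (24, 24)], [[], [(1, 37, 57), (2, 37, 51)], [(2, 37, 9), (4, 37, 3)], [(1, 26, 39), (2, 26, 15), (3, 29, 64), (4, 26, 13), (5, 29, 40), (6, 29, 16)]]⟩)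
(.leaf ⟨5569, 24, 0, 24, 3, [(11, 31), (20, 20)], [[(1, 293, 57), (2, 293, 51), (4, 281, 90), (5, 337, 82), (6, 337, 76)], [(1, 281, 69), (2, 281, 67), (3, 223, 64), (8, 281, 66), (9, 300, 58), (10, 300, 52), (11, 221, 66), (16, 246, 0), (17, 318, 32), (18, 318, 8)]]⟩)))
(.node (.node (.leaf ⟨3206, 24, 4, 24, 3, [(14, 30), (9, 11), (20, 28), (2, 6)], [[], [], [(8, 1, 1), (16, 2, 12)], [(2, 1, 9), (16, 2, 12)]]⟩)
(.leaf ⟨5000, 16, 0, 23, 4, [(24, 31), (20, 28)], [[], [(1, 202, 39), (8, 203, 1)], [(2, 202, 15), (8, 203, 25)], [(1, 202, 33), (2, 202, 9), (3, 235, 64), (8, 202, 7), (9, 212, 34), (10, 212, 10)], [], [], [], []]⟩))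
(.node (.leaf ⟨4000, 24, 0, 26, 3, [(17, 31), (12, 31), (10, 14), (20, 22)], [[(1, 101, 33)], [], [(1, 102, 33), (8, 56, 10), (16, 63, 0), (17, 62, 32)], []]⟩)
(.leaf ⟨6569, 24, 0, 28, 3, [(9, 31), (22, 31), (3, 7)], [[(2, 394, 77)], [(1, 394, 39), (2, 394, 15), (3, 420, 64), (4, 394, 13), (6, 420, 16)], [(1, 394, 83), (2, 394, 77), (8, 396, 102), (9, 409, 44), (10, 409, 20), (16, 395, 26), (18, 409, 14)], [(1, 396, 47), (2, 395, 15), (3, 408, 94), (4, 396, 46), (5, 408, 92), (6, 408, 90), (8, 394, 18), (9, 407, 44), (12, 407, 18), (13, 406, 106), (16, 394, 12), (17, 407, 38), (18, 407, 14), (19, 405, 88), (20, 407, 12), (22, 405, 77)]]⟩)))))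
(.node (.node (.node (.node (.leaf ⟨2603, 16, 0, 20, 4, [(21, 31), (18, 30), (24, 24)], [[(1, 3, 105)], [(2, 1, 9), (4, 1, 3)]]⟩)
(.leaf ⟨4569, 16, 0, 16, 4, [(30, 30), (18, 31), (17, 19)], [[(4, 138, 3), (8, 138, 1), (12, 134, 18)]]⟩))
(.node (.leaf ⟨3569, 16, 0, 26, 4, [(25, 31), (17, 31), (18, 23), (20, 28)], [[], [], [(4, 23, 3), (8, 23, 1)], []]⟩)
(.leaf ⟨5569, 24, 0, 30, 3, [(10, 31), (1, 7), (28, 28)], [[], [], [(1, 281, 59), (4, 319, 114)], [(1, 282, 93), (2, 282, 91), (3, 276, 94)], [(8, 286, 1), (16, 286, 0)], [(1, 282, 33), (2, 282, 9), (8, 311, 20), (9, 308, 45), (10, 308, 21)], [], []]⟩)))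
(.node (.node (.leaf ⟨3000, 24, 0, 30, 3, [(26, 31), (1, 7), (4, 4)], [[], [(1, 5, 47), (2, 5, 23)], [], [], [(8, 5, 55), (16, 5, 54)], [], [], []]⟩)
(.leaf ⟨4603, 16, 0, 16, 4, [(29, 31), (1, 13), (14, 14)], [[(2, 168, 99), (4, 183, 97), (6, 177, 16), (8, 183, 96), (10, 177, 10), (12, 134, 18)]]⟩))
(.node (.leaf ⟨4000, 16, 0, 18, 4, [(22, 31), (21, 31), (24, 28)], [[(1, 63, 33), (4, 63, 73)], [(1, 68, 33), (2, 68, 9), (3, 90, 88)]]⟩)
(.leaf ⟨6569, 24, 0, 24, 3, [(18, 31), (5, 23), (28, 28)], [[(1, 394, 39), (2, 394, 15), (3, 420, 64), (4, 394, 13), (6, 419, 16)], [(1, 395, 89), (2, 395, 88), (3, 425, 64), (8, 395, 4), (9, 421, 58), (16, 403, 12), (17, 387, 32), (18, 421, 50), (19, 428, 60)]]⟩))))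
(.node (.node (.node (.leaf ⟨3000, 16, 0, 30, 4, [(17, 31), (18, 23), (25, 27), (20, 28)], [[], [], [], [], [(8, 5, 49)], [], [(4, 2, 43)], [(1, 6, 47), (2, 6, 23)]]⟩)
(.leaf ⟨4569, 24, 0, 24, 3, [(19, 31), (2, 7), (9, 25), (20, 22)], [[(4, 138, 13)], [(1, 89, 57), (8, 154, 34), (9, 157, 34), (16, 138, 30)]]⟩))
(.node (.leaf ⟨3603, 24, 0, 24, 3, [(2, 7), (28, 28), (1, 3)], [[(4, 23, 3)], [(8, 37, 55), (16, 37, 54)]]⟩)
(.leaf ⟨5569, 24, 0, 28, 3, [(14, 31), (25, 31), (5, 21), (18, 22)], [[(1, 319, 33), (2, 311, 15), (3, 253, 89)], [(4, 281, 90)], [(8, 285, 28), (16, 281, 86)], [(1, 286, 57), (2, 281, 67), (3, 213, 65), (4, 241, 27), (8, 246, 31), (9, 322, 34), (10, 304, 52), (11, 329, 66), (12, 245, 29), (16, 285, 2), (20, 284, 26)]]⟩)))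
(.node (.node (.leaf ⟨3206, 24, 16, 8, 3, [(11, 31), (1, 15), (12, 28), (18, 22), (20, 22)], [[(1, 3, 81), (2, 1, 9)], [(1, 3, 81), (8, 1, 1)]]⟩)
(.leaf ⟨5206, 24, 0, 24, 3, [(13, 31), (18, 30), (10, 26), (20, 28)], [[(1, 246, 35), (4, 246, 5)], [(1, 247, 35), (2, 247, 9), (3, 244, 71), (4, 247, 3), (5, 244, 41), (6, 232, 16), (7, 233, 90), (8, 238, 1), (9, 242, 34), (16, 238, 6), (17, 242, 56), (20, 242, 2)]]⟩))
(.node (.leaf ⟨4206, 24, 0, 8, 3, [(10, 31), (25, 29), (20, 20)], [[(1, 115, 93), (4, 111, 13), (5, 110, 82), (16, 111, 72)]]⟩)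
(.leaf ⟨7569, 24, 0, 24, 3, [(28, 31), (3, 23)], [[(1, 477, 65), (2, 477, 64), (4, 477, 13), (5, 498, 40), (6, 498, 16)], [(1, 480, 65), (2, 480, 64), (3, 468, 70), (8, 479, 4), (9, 495, 34), (10, 495, 10), (11, 497, 66), (16, 479, 2), (17, 466, 62), (18, 466, 60)]]⟩))))))

/-- A part of the certificate. -/
def T11 : BT Lem := (.node (.node (.node (.node (.node (.node (.leaf ⟨2000, 24, 0, 24, 3, [(17, 31), (9, 31), (10, 31), (12, 31), (18, 22), (20, 22)], [[], [(1, 0, 33), (8, 0, 1), (16, 0, 0)]]⟩)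
(.leaf ⟨9569, 16, 0, 16, 4, [], [[(1, 508, 33), (2, 508, 9), (3, 516, 112), (4, 508, 3), (5, 516, 106), (6, 516, 100), (7, 514, 114), (8, 508, 1), (9, 516, 104), (10, 516, 98), (11, 514, 108), (12, 516, 96), (13, 514, 102), (14, 514, 96), (15, 513, 96)]]⟩))
(.leaf ⟨4206, 24, 0, 24, 3, [(10, 31), (21, 31), (7, 23), (12, 13), (17, 21)], [[(1, 83, 41)], [(2, 115, 23), (8, 111, 49), (10, 130, 10), (16, 111, 6)]]⟩))
(.node (.leaf ⟨3569, 16, 0, 17, 4, [(24, 30), (18, 30), (20, 21)], [[], [(1, 23, 39), (4, 23, 37)]]⟩)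
(.leaf ⟨5569, 16, 0, 24, 4, [(18, 31), (29, 31), (21, 29)], [[(1, 285, 59), (4, 285, 5)], [(1, 286, 57), (2, 286, 75), (3, 288, 65), (4, 286, 3), (6, 288, 16), (8, 286, 25), (9, 250, 59), (12, 250, 5)]]⟩)))
(.node (.node (.leaf ⟨3000, 24, 0, 24, 3, [(18, 31), (9, 31), (12, 15), (17, 21), (6, 6)], [[(2, 16, 15)], [(2, 6, 9), (8, 6, 18), (16, 6, 14), (18, 15, 60)]]⟩)
(.leaf ⟨4569, 24, 0, 24, 3, [(14, 31), (9, 27), (20, 28), (26, 26)], [[(2, 138, 9), (4, 66, 19)], [(1, 115, 45), (4, 115, 37), (5, 163, 40), (8, 138, 1), (9, 158, 34), (16, 111, 24), (20, 143, 2)]]⟩))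
(.node (.leaf ⟨4000, 16, 0, 20, 4, [(17, 31), (30, 31), (24, 28)], [[(2, 59, 15)], [(1, 60, 33), (2, 60, 15), (3, 73, 65), (4, 55, 3), (6, 72, 16), (8, 55, 1), (9, 72, 34)]]⟩)
(.leaf ⟨5603, 24, 0, 24, 3, [(20, 31), (9, 29), (22, 22)], [[(2, 241, 75), (4, 311, 37), (6, 359, 16)], [(1, 345, 35), (2, 281, 67), (3, 213, 65), (4, 286, 76), (5, 213, 41), (8, 345, 1), (9, 356, 34), (10, 304, 52), (11, 357, 66), (16, 345, 30), (18, 300, 8), (20, 326, 2)]]⟩))))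
(.node (.node (.node (.leaf ⟨2603, 16, 0, 19, 4, [(24, 26), (18, 19), (20, 28)], [[], [(1, 1, 57)], [], [(2, 1, 9), (8, 1, 49)]]⟩)
(.leaf ⟨4569, 28, 0, 12, 2, [(13, 31), (14, 30), (17, 19), (18, 18)], [[(1, 154, 89), (2, 139, 11), (3, 136, 64), (16, 138, 60)], [(4, 138, 5), (8, 138, 4), (16, 138, 60), (20, 135, 72), (24, 135, 48)]]⟩))
(.node (.leaf ⟨3603, 16, 0, 25, 4, [(20, 30), (18, 27), (24, 28)], [[], [(1, 26, 39), (2, 26, 15)], [], []]⟩)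
(.leaf ⟨5569, 28, 0, 28, 2, [(21, 31), (10, 31), (9, 25), (18, 18)], [[(1, 282, 93), (2, 285, 51), (3, 305, 88)], [(2, 285, 9), (4, 285, 73), (8, 281, 66), (10, 283, 10)], [(4, 282, 43), (16, 306, 74)], [(1, 282, 45), (4, 281, 43), (5, 269, 46), (8, 241, 25), (12, 245, 28), (16, 285, 0), (20, 297, 26), (24, 284, 24)]]⟩)))
(.node (.node (.leaf ⟨3206, 24, 16, 8, 3, [(14, 30), (9, 11), (20, 30), (18, 18)], [[(2, 1, 9), (4, 3, 3)], [(4, 3, 3), (8, 1, 1)]]⟩)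
(.leaf ⟨5000, 24, 0, 25, 3, [(28, 31), (12, 28), (18, 22)], [[(2, 203, 53)], [(1, 203, 59), (2, 203, 53), (3, 208, 65)], [(8, 202, 7), (16, 202, 0)], [(1, 204, 39), (4, 203, 3), (8, 202, 7), (9, 220, 105), (12, 225, 4), (16, 202, 0), (17, 220, 87)]]⟩))
(.node (.leaf ⟨4000, 24, 0, 24, 3, [(26, 31), (1, 7), (12, 28), (22, 22)], [[(2, 74, 53)], [(4, 55, 13), (8, 60, 25), (12, 78, 28), (16, 55, 0)]]⟩)
(.leaf ⟨6569, 24, 0, 28, 3, [(30, 31), (9, 31), (18, 22)], [[(2, 394, 23)], [(1, 394, 39), (2, 394, 15), (3, 420, 64), (4, 394, 13), (6, 408, 16)], [(1, 395, 83), (8, 395, 4), (9, 421, 34), (16, 395, 26)], [(1, 396, 87), (4, 394, 3), (5, 425, 40), (8, 394, 18), (9, 408, 34), (12, 399, 5), (13, 445, 42), (16, 403, 12), (17, 426, 32), (20, 398, 2)]]⟩)))))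
(.node (.node (.node (.node (.leaf ⟨2603, 24, 0, 8, 3, [(1, 7), (14, 30), (18, 22), (20, 22)], [[(2, 1, 9), (4, 1, 3), (16, 1, 72)]]⟩)
(.leaf ⟨4569, 24, 0, 28, 3, [(21, 31), (9, 29), (18, 22), (28, 28)], [[(2, 138, 11)], [(1, 19, 119), (2, 138, 11), (3, 80, 65), (4, 66, 19), (6, 137, 22)], [(1, 115, 69), (8, 111, 55), (9, 143, 34), (16, 111, 48)], []]⟩))
(.node (.leaf ⟨3569, 24, 0, 16, 4, [(13, 31), (14, 31), (17, 23), (28, 28), (2, 6)], [[(4, 23, 3), (8, 13, 4)]]⟩)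
(.leaf ⟨5569, 24, 0, 28, 3, [(21, 31), (10, 31), (9, 25), (18, 22)], [[], [(2, 285, 75), (4, 285, 73)], [(1, 286, 33), (8, 285, 25), (9, 290, 58), (16, 281, 12)], [(1, 286, 81), (2, 281, 67), (3, 310, 64), (4, 281, 43), (5, 310, 40), (8, 286, 1), (10, 302, 52), (12, 302, 28), (16, 281, 12), (18, 279, 14), (20, 279, 12)]]⟩)))
(.node (.node (.leaf ⟨3000, 24, 0, 10, 3, [(12, 31), (18, 31), (1, 5), (20, 20)], [[(16, 8, 24)], [(2, 9, 51), (4, 5, 73), (16, 5, 2), (18, 7, 74)]]⟩)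
(.leaf ⟨4603, 16, 0, 24, 4, [(28, 31), (19, 31), (20, 28)], [[(1, 170, 33), (2, 170, 9)], [(1, 138, 33), (2, 138, 9), (3, 176, 64), (8, 170, 7), (9, 165, 58), (10, 165, 52)]]⟩))
(.node (.leaf ⟨4000, 24, 0, 24, 3, [(17, 31), (10, 31), (13, 13), (20, 20)], [[(1, 59, 111), (4, 55, 3)], [(1, 66, 93), (2, 74, 17), (3, 73, 95), (8, 55, 1), (10, 72, 20), (16, 60, 0), (17, 76, 32)]]⟩)
(.leaf ⟨6569, 24, 0, 24, 3, [(19, 31), (12, 31), (28, 28)], [[(1, 394, 39), (2, 394, 15), (3, 420, 64)], [(1, 395, 89), (2, 395, 88), (3, 425, 64), (8, 403, 18), (9, 421, 58), (10, 421, 52), (16, 395, 8), (17, 421, 56), (18, 421, 50), (19, 429, 60)]]⟩))))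
(.node (.node (.node (.leaf ⟨3000, 16, 0, 21, 4, [(22, 31), (25, 31), (18, 30), (24, 25)], [[], [(1, 5, 87)], [(4, 16, 5)], [(1, 5, 87), (2, 6, 21), (4, 6, 46), (5, 7, 47), (8, 5, 1), (10, 7, 66)]]⟩)
(.leaf ⟨4569, 24, 0, 28, 3, [(25, 31), (28, 28), (2, 6)], [[(1, 138, 35)], [(1, 65, 93), (2, 138, 11), (3, 141, 89), (4, 138, 5), (5, 140, 92)], [(8, 111, 55), (16, 111, 54)], []]⟩))
(.node (.leaf ⟨3603, 24, 0, 26, 3, [(18, 31), (10, 31), (28, 28), (1, 3)], [[(4, 23, 3)], [], [(8, 37, 55), (16, 37, 54)], [(1, 44, 65), (2, 44, 64)]]⟩)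
(.leaf ⟨5569, 24, 0, 24, 3, [(26, 31), (5, 23), (3, 7), (20, 22)], [[(1, 281, 35), (2, 319, 51), (4, 311, 13), (6, 328, 77)], [(1, 282, 33), (8, 281, 98), (9, 276, 34), (16, 281, 72), (17, 279, 33)]]⟩)))
(.node (.node (.leaf ⟨3206, 24, 2, 24, 3, [(9, 31), (10, 30), (12, 31), (17, 29), (20, 20)], [[], [], [(1, 2, 65), (8, 1, 25), (16, 0, 0)], [(1, 2, 65), (8, 1, 25)]]⟩)
(.leaf ⟨5206, 16, 0, 24, 4, [(18, 31), (20, 28)], [[(1, 246, 33)], [(1, 246, 63), (2, 246, 61), (3, 269, 71), (4, 238, 3), (5, 244, 41), (6, 244, 17), (7, 266, 93), (8, 238, 1), (9, 244, 35)]]⟩))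
(.node (.leaf ⟨4206, 24, 0, 24, 3, [(17, 31), (10, 27), (18, 30), (13, 31), (28, 28)], [[(1, 66, 69), (4, 98, 90)], [(1, 115, 63), (2, 115, 61), (3, 114, 70), (8, 111, 55), (16, 111, 0), (17, 113, 32)]]⟩)
(.leaf ⟨7569, 24, 0, 24, 3, [(14, 31), (17, 31)], [[(1, 479, 33), (2, 477, 17), (3, 469, 64), (4, 477, 16), (5, 469, 40)], [(1, 482, 33), (2, 480, 17), (3, 473, 70), (4, 480, 16), (5, 473, 46), (6, 468, 22), (7, 464, 117), (8, 479, 4), (10, 469, 20), (12, 469, 18), (14, 464, 96), (16, 479, 2), (17, 473, 32), (18, 466, 14), (19, 463, 62), (20, 466, 12), (21, 463, 38)]]⟩))))))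

/-- A part of the certificate. -/
def T12 : BT Lem := (.node (.node (.node (.node (.node (.leaf ⟨2000, 24, 0, 26, 3, [(9, 31), (2, 7), (12, 31), (17, 23), (20, 23)], [[], [], [(8, 0, 1), (16, 0, 0)], []]⟩)
(.leaf ⟨4206, 24, 0, 24, 4, [(21, 31), (25, 31), (20, 23), (2, 6)], [[(1, 70, 35)], [(8, 111, 55), (16, 111, 54)]]⟩))
(.node (.leaf ⟨3569, 24, 0, 25, 3, [(30, 31), (26, 31), (10, 27), (9, 11), (20, 28)], [[(4, 3, 3)], [], [(4, 3, 3), (8, 23, 1), (16, 1, 48), (20, 12, 26)], []]⟩)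
(.leaf ⟨5569, 16, 0, 16, 4, [(26, 31), (6, 14), (25, 29)], [[(1, 281, 107), (2, 281, 61), (3, 287, 113), (4, 285, 29), (5, 289, 41), (8, 285, 4), (12, 292, 19)]]⟩)))
(.node (.node (.leaf ⟨3000, 24, 0, 24, 3, [(12, 31), (27, 31), (17, 31), (10, 26), (20, 20)], [[(1, 18, 33)], [(1, 10, 81), (2, 9, 109), (8, 5, 55), (10, 7, 10), (16, 5, 24), (17, 11, 56)]]⟩)
(.leaf ⟨4569, 28, 0, 12, 2, [(29, 31), (10, 31), (1, 11), (18, 18)], [[(2, 111, 85), (16, 111, 74)], [(1, 66, 105), (2, 115, 112), (3, 76, 64), (4, 66, 43), (5, 104, 40), (8, 138, 4), (10, 148, 53), (16, 115, 26), (20, 76, 12), (24, 148, 6)]]⟩))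
(.node (.leaf ⟨4000, 16, 0, 16, 4, [(31, 31), (17, 29), (12, 14)], [[(2, 60, 51), (4, 60, 13), (6, 76, 17), (8, 60, 7), (10, 76, 11)]]⟩)
(.leaf ⟨5603, 24, 0, 26, 3, [(22, 31), (9, 29), (20, 22)], [[(4, 311, 13)], [(2, 241, 75), (4, 311, 37), (6, 359, 16)], [(1, 286, 57), (8, 345, 1), (9, 360, 34), (16, 345, 30)], [(1, 345, 35), (2, 281, 67), (3, 213, 65), (4, 286, 76), (5, 213, 41), (8, 345, 1), (9, 356, 34), (10, 304, 52), (11, 357, 66), (16, 345, 30), (18, 300, 8), (20, 326, 2)]]⟩))))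
(.node (.node (.node (.leaf ⟨2603, 16, 0, 16, 4, [(17, 31), (22, 30), (24, 24)], [[(2, 1, 9), (4, 1, 3)]]⟩)
(.leaf ⟨4569, 24, 0, 24, 3, [(11, 31), (14, 31), (17, 23), (20, 20)], [[(1, 115, 107), (2, 56, 15), (4, 138, 3), (5, 146, 40)], [(2, 138, 17), (8, 138, 1), (10, 109, 10), (16, 68, 2), (18, 147, 8)]]⟩))
(.node (.leaf ⟨3603, 24, 0, 24, 3, [(14, 31), (17, 27), (9, 29), (28, 28), (18, 22)], [[(2, 24, 11), (4, 23, 3)], [(1, 46, 33), (8, 26, 1), (16, 26, 24)]]⟩)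
(.leaf ⟨5569, 28, 0, 28, 2, [(10, 31), (21, 29), (1, 19), (18, 18)], [[(2, 285, 53)], [(2, 286, 51), (4, 285, 13), (8, 281, 66), (10, 304, 53)], [(4, 293, 13), (16, 238, 24)], [(1, 282, 45), (4, 281, 43), (5, 215, 83), (8, 281, 42), (12, 283, 5), (16, 240, 24), (20, 252, 72), (24, 251, 25)]]⟩)))
(.node (.node (.leaf ⟨3206, 24, 16, 8, 3, [(9, 11), (18, 22), (20, 30), (14, 14)], [[(2, 1, 9), (4, 2, 3)], [(4, 2, 3), (8, 1, 1)]]⟩)
(.leaf ⟨5000, 24, 0, 24, 3, [(14, 31), (12, 14), (18, 22)], [[(1, 203, 59), (2, 203, 53), (3, 208, 65)], [(1, 205, 33), (8, 202, 7), (9, 220, 105), (16, 202, 0), (17, 220, 87)]]⟩))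
(.node (.leaf ⟨4000, 16, 0, 26, 4, [(25, 31), (20, 28)], [[(1, 63, 33)], [(1, 68, 33), (2, 68, 9), (3, 90, 64)], [(4, 55, 3), (8, 55, 1)], [(1, 60, 57), (2, 60, 51), (4, 55, 3), (5, 57, 47), (6, 57, 23), (8, 55, 1), (9, 57, 45), (10, 57, 21)]]⟩)
(.leaf ⟨6569, 24, 0, 24, 3, [(10, 31), (28, 28)], [[(1, 394, 39), (4, 394, 13), (5, 419, 40)], [(1, 395, 89), (2, 395, 88), (3, 425, 64), (8, 403, 18), (9, 421, 58), (10, 421, 52), (11, 446, 66), (16, 395, 2), (17, 421, 56)]]⟩)))))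
(.node (.node (.node (.node (.leaf ⟨2603, 24, 0, 8, 3, [(1, 7), (18, 31), (10, 10), (20, 22)], [[(4, 1, 3), (16, 2, 6)]]⟩)
(.leaf ⟨4569, 24, 0, 24, 3, [(21, 31), (10, 31), (9, 25), (18, 26), (28, 28)], [[(4, 138, 3)], [(1, 138, 57), (2, 115, 61), (3, 144, 64), (8, 138, 1), (9, 134, 68), (16, 138, 30)]]⟩))
(.node (.leaf ⟨3569, 24, 0, 24, 3, [(12, 31), (9, 15), (15, 31), (26, 30), (20, 20)], [[(2, 24, 11)], [(8, 23, 1), (16, 6, 14)]]⟩)
(.leaf ⟨5569, 24, 0, 28, 3, [(28, 31), (9, 25), (18, 22)], [[(2, 311, 15)], [(2, 285, 75), (4, 285, 73), (6, 315, 16)], [(1, 286, 33), (8, 285, 28), (9, 302, 34), (16, 281, 12)], []]⟩)))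
(.node (.node (.leaf ⟨3000, 24, 0, 24, 3, [(18, 31), (10, 31), (12, 31), (1, 3), (6, 6)], [[], [(2, 6, 88), (4, 5, 16), (8, 6, 18), (12, 7, 97), (16, 6, 12)]]⟩)
(.leaf ⟨4603, 16, 0, 24, 4, [(21, 31), (6, 14), (9, 13)], [[(1, 169, 45), (2, 170, 9), (3, 179, 112), (4, 170, 3)], [(2, 168, 99), (4, 183, 97), (6, 177, 16), (8, 183, 96), (10, 177, 10), (12, 134, 18)]]⟩))
(.node (.leaf ⟨4000, 24, 0, 24, 3, [(20, 31), (18, 31), (10, 31), (9, 9)], [[(4, 59, 97)], [(2, 74, 112), (4, 74, 106), (6, 92, 16), (8, 63, 1), (16, 55, 30), (20, 91, 2)]]⟩)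
(.leaf ⟨6569, 24, 0, 24, 3, [(11, 31), (4, 15), (22, 22)], [[(1, 394, 39), (2, 394, 15), (4, 394, 13), (5, 420, 40), (6, 408, 16)], [(1, 396, 81), (2, 394, 9), (3, 425, 64), (4, 394, 3), (5, 425, 40), (8, 394, 18), (9, 408, 34), (10, 399, 11), (11, 385, 108), (16, 403, 12), (17, 426, 32), (18, 398, 8), (20, 398, 2), (21, 427, 36)]]⟩))))
(.node (.node (.node (.leaf ⟨3000, 16, 0, 25, 4, [(18, 31), (23, 31), (24, 24)], [[(4, 8, 16)], [(1, 5, 87), (2, 5, 75), (4, 5, 73), (5, 7, 40)], [], []]⟩)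
(.leaf ⟨4569, 24, 0, 24, 3, [(10, 31), (17, 23), (28, 30), (6, 6)], [[(1, 68, 93), (4, 138, 5), (5, 153, 116)], [(2, 115, 70), (8, 117, 25), (10, 76, 10), (16, 115, 80)]]⟩))
(.node (.leaf ⟨3603, 16, 0, 16, 4, [(26, 31), (20, 28), (17, 19)], [[(2, 37, 15), (8, 37, 55)]]⟩)
(.leaf ⟨5569, 24, 0, 24, 3, [(11, 31), (20, 31), (5, 7), (18, 22)], [[(1, 281, 59), (2, 311, 15), (4, 311, 13), (6, 294, 77)], [(1, 282, 57), (4, 216, 13), (8, 281, 96), (9, 276, 58), (16, 281, 72), (17, 279, 57), (20, 289, 2)]]⟩)))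
(.node (.node (.leaf ⟨3206, 24, 2, 24, 3, [(4, 7), (9, 29), (17, 21), (6, 7)], [[], [], [(8, 2, 20), (16, 2, 14)], [(8, 2, 20), (16, 2, 14)]]⟩)
(.leaf ⟨5206, 28, 8, 20, 2, [(6, 31), (17, 23), (5, 21), (26, 26)], [[], [(2, 138, 9), (4, 138, 5), (6, 179, 16)], [(1, 169, 39), (2, 138, 11), (3, 182, 64), (4, 138, 3), (6, 181, 16), (16, 184, 0)], [(1, 171, 81), (4, 168, 3), (16, 183, 0), (20, 180, 2)]]⟩))
(.node (.leaf ⟨4206, 24, 0, 24, 3, [(28, 31), (12, 28), (25, 31), (18, 22)], [[(1, 70, 33), (2, 70, 9), (3, 40, 118)], [(8, 111, 55), (16, 111, 6)]]⟩)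
(.leaf ⟨7569, 16, 0, 18, 4, [(29, 31)], [[(1, 478, 69), (4, 478, 19), (5, 465, 106), (8, 478, 18), (9, 465, 104), (12, 465, 102)], [(1, 479, 35), (2, 479, 11), (3, 468, 70), (4, 479, 5), (5, 468, 46), (6, 468, 22), (7, 497, 90), (8, 479, 4), (9, 468, 44), (10, 468, 20), (11, 497, 66), (12, 468, 18), (13, 497, 42), (14, 497, 18)]]⟩))))))

/-- A part of the certificate. -/
def T13 : BT Lem := (.node (.node (.node (.node (.node (.leaf ⟨2000, 16, 0, 20, 4, [(30, 31), (17, 31), (18, 26), (29, 31), (24, 31)], [[], [(1, 0, 33), (4, 0, 3), (8, 0, 1)]]⟩)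
(.leaf ⟨4206, 24, 0, 24, 3, [(12, 31), (19, 31), (13, 15), (10, 14), (22, 22)], [[(1, 66, 69)], [(1, 68, 33), (4, 115, 43), (8, 117, 25), (9, 118, 34), (12, 119, 4), (16, 111, 54), (17, 61, 32)]]⟩))
(.node (.leaf ⟨3569, 24, 0, 16, 4, [(26, 30), (1, 7), (10, 31), (30, 30), (4, 7)], [[(2, 24, 9), (8, 2, 7)]]⟩)
(.leaf ⟨5569, 28, 0, 20, 2, [(22, 31), (9, 15), (5, 21), (26, 26)], [[(2, 285, 51), (8, 306, 102), (10, 256, 10)], [(1, 311, 93), (4, 281, 116), (5, 244, 47), (8, 257, 1), (9, 242, 58), (12, 206, 4), (16, 311, 26), (24, 294, 0)]]⟩)))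
(.node (.node (.leaf ⟨3000, 24, 0, 24, 3, [(17, 31), (10, 31), (3, 7), (4, 22), (20, 20)], [[(1, 9, 57)], [(1, 9, 57), (2, 9, 109), (8, 5, 55), (10, 7, 10), (16, 9, 32), (17, 15, 32)]]⟩)
(.leaf ⟨4569, 24, 0, 25, 3, [(26, 31), (10, 26), (20, 20)], [[(4, 138, 3)], [(1, 138, 35), (4, 138, 3), (5, 137, 47)], [(8, 138, 1), (16, 138, 6)], [(1, 138, 41), (2, 138, 17), (8, 138, 1), (9, 146, 34), (10, 146, 10), (16, 138, 6), (17, 135, 56)]]⟩))
(.node (.leaf ⟨4000, 16, 0, 16, 4, [(21, 31), (26, 31), (28, 28)], [[(1, 60, 33), (2, 60, 15), (3, 73, 65), (4, 55, 3), (6, 72, 16), (8, 55, 1), (9, 72, 34)]]⟩)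
(.leaf ⟨6412, 28, 16, 13, 3, [(17, 31), (6, 23), (26, 26)], [[(2, 319, 11)], [(1, 293, 33), (2, 217, 115), (3, 338, 64)], [(4, 254, 3), (8, 203, 28)], [(1, 348, 33), (2, 263, 9), (4, 255, 3), (5, 344, 40), (6, 343, 16), (8, 347, 1), (9, 342, 34), (10, 341, 10)], [(8, 203, 1)], [(1, 204, 33)], [(4, 285, 27), (8, 205, 1), (12, 361, 4)], [(1, 346, 33), (4, 286, 76), (5, 340, 40), (8, 345, 1), (9, 339, 34)]]⟩))))
(.node (.node (.node (.leaf ⟨2603, 16, 0, 16, 4, [(21, 29), (18, 30), (24, 30), (28, 29)], [[(1, 0, 33), (4, 1, 27)]]⟩)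
(.leaf ⟨4569, 28, 0, 28, 2, [(9, 31), (1, 11), (10, 26), (18, 18)], [[(2, 138, 9)], [(1, 138, 69), (4, 115, 37), (8, 138, 4)], [(4, 115, 43), (16, 66, 12)], [(1, 138, 65), (4, 138, 16), (5, 88, 40), (8, 138, 10), (12, 155, 4), (16, 138, 8), (17, 87, 32), (20, 86, 2), (24, 134, 0)]]⟩))
(.node (.leaf ⟨3603, 24, 0, 24, 3, [(18, 31), (9, 27), (10, 14), (20, 20)], [[(4, 37, 27)], [(1, 50, 33), (8, 37, 1), (9, 41, 35), (16, 26, 0)]]⟩)
(.leaf ⟨5569, 28, 0, 28, 2, [(14, 31), (17, 31), (1, 19), (18, 18)], [[(2, 285, 53)], [(4, 285, 13), (8, 285, 7)], [(1, 281, 47), (4, 293, 13), (16, 281, 2)], [(1, 282, 45), (4, 281, 43), (5, 253, 82), (8, 281, 42), (9, 253, 58), (12, 291, 4), (16, 282, 0), (20, 298, 3), (24, 298, 1)]]⟩)))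
(.node (.node (.leaf ⟨3206, 24, 16, 8, 3, [(17, 31), (13, 31), (14, 31), (20, 22), (2, 6)], [[(1, 3, 33), (4, 3, 97)], [(1, 3, 33), (8, 1, 1)]]⟩)
(.leaf ⟨5000, 16, 0, 20, 4, [(17, 29), (30, 30)], [[(2, 202, 51), (8, 202, 25), (10, 214, 52)], [(1, 202, 33), (2, 202, 9), (3, 219, 65), (4, 202, 13), (6, 212, 16), (8, 202, 7), (9, 212, 34), (12, 219, 5)]]⟩))
(.node (.leaf ⟨4000, 24, 0, 28, 3, [(21, 31), (14, 31), (1, 7), (2, 6)], [[], [(1, 59, 41), (4, 55, 90)], [(8, 56, 4), (16, 56, 2)], [(1, 66, 83), (2, 60, 23), (3, 78, 94), (4, 55, 13), (8, 55, 4), (10, 76, 10), (12, 61, 28), (16, 55, 2), (17, 75, 80), (20, 61, 2)]]⟩)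
(.leaf ⟨6569, 24, 0, 24, 3, [(26, 31), (13, 31), (22, 22)], [[(1, 394, 39), (2, 394, 15), (3, 420, 64), (4, 394, 13), (6, 408, 16)], [(1, 396, 87), (4, 394, 3), (5, 425, 40), (8, 394, 18), (9, 408, 34), (12, 399, 5), (13, 445, 42), (16, 403, 12), (17, 426, 32), (20, 398, 2)]]⟩)))))
(.node (.node (.node (.node (.leaf ⟨2603, 24, 0, 24, 3, [(25, 31), (12, 30), (20, 22), (2, 6)], [[(1, 0, 33)], [(8, 1, 1), (16, 1, 0)]]⟩)
(.leaf ⟨4569, 16, 0, 24, 4, [(17, 29), (22, 31), (28, 28)], [[(2, 115, 112), (4, 138, 3)], [(1, 139, 35), (2, 111, 85), (3, 136, 65), (8, 111, 49), (10, 143, 10)]]⟩))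
(.node (.leaf ⟨3569, 24, 0, 26, 4, [(25, 31), (17, 31), (18, 23), (12, 28), (20, 23)], [[], [], [(8, 10, 1), (16, 23, 0)], []]⟩)
(.leaf ⟨5569, 24, 0, 26, 3, [(14, 31), (9, 13), (20, 22)], [[(4, 311, 13)], [(2, 281, 91)], [(8, 285, 52), (16, 285, 0)], [(2, 281, 67), (4, 282, 43), (8, 246, 31), (10, 304, 52), (12, 305, 28), (16, 285, 2), (18, 295, 9)]]⟩)))
(.node (.node (.leaf ⟨3000, 24, 0, 18, 4, [(12, 31), (15, 31), (10, 11), (20, 22), (1, 5)], [[(8, 16, 96)], [(2, 13, 9), (4, 13, 43)]]⟩)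
(.leaf ⟨4603, 28, 0, 29, 4, [(14, 31), (18, 19), (1, 3)], [[], [], [(4, 171, 92), (16, 188, 0)], [], [(8, 171, 68), (16, 188, 2)], [], [(4, 169, 92), (8, 169, 68), (12, 186, 4), (16, 169, 62), (20, 187, 2), (24, 187, 0)], []]⟩))
(.node (.leaf ⟨4000, 28, 0, 12, 2, [(14, 31), (1, 3), (18, 18)], [[(2, 63, 9), (16, 55, 60)], [(4, 64, 3), (8, 64, 1), (16, 55, 60), (20, 57, 73), (24, 57, 49)]]⟩)
(.leaf ⟨6569, 16, 0, 21, 4, [(24, 31), (2, 14)], [[], [(1, 395, 41), (8, 395, 28)], [(2, 394, 11), (4, 394, 5), (8, 395, 10), (10, 391, 11)], [(1, 396, 47), (2, 394, 11), (3, 389, 70), (4, 394, 5), (5, 389, 46), (8, 403, 18), (9, 419, 44), (10, 398, 10), (11, 422, 108), (12, 398, 4)]]⟩))))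
(.node (.node (.node (.leaf ⟨3000, 24, 0, 24, 3, [(10, 31), (9, 15), (18, 31), (15, 31), (20, 20)], [[(4, 8, 16)], [(2, 13, 85), (8, 5, 49), (16, 6, 12)]]⟩)
(.leaf ⟨4569, 24, 0, 26, 3, [(20, 22), (22, 31), (9, 9)], [[(4, 138, 13)], [(2, 138, 11), (4, 138, 5), (6, 155, 17)], [(8, 111, 31), (16, 138, 30)], [(2, 138, 17), (4, 138, 16), (8, 115, 110), (10, 148, 52), (16, 138, 30), (18, 135, 50), (20, 135, 26)]]⟩))
(.node (.leaf ⟨3603, 16, 0, 26, 4, [(17, 19), (20, 28)], [[], [(1, 26, 33), (2, 26, 9)], [(4, 26, 73), (8, 26, 49)], [(1, 26, 57), (2, 26, 51), (4, 26, 13), (5, 34, 41), (6, 34, 17), (8, 26, 7), (9, 34, 35), (10, 34, 11)]]⟩)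
(.leaf ⟨5569, 28, 0, 20, 2, [(14, 31), (9, 11), (18, 18)], [[(1, 281, 81), (2, 285, 53), (3, 295, 65), (8, 282, 1)], [(1, 281, 47), (4, 281, 116), (5, 310, 93), (8, 281, 4), (12, 310, 18), (16, 281, 62), (17, 208, 32), (24, 287, 48)]]⟩)))
(.node (.node (.leaf ⟨3206, 24, 4, 24, 3, [(25, 31), (17, 27), (10, 30), (12, 30), (18, 18)], [[(1, 0, 33)], [], [(8, 1, 49), (16, 1, 0)], [(1, 3, 35), (8, 1, 49)]]⟩)
(.leaf ⟨5206, 28, 0, 28, 2, [(17, 31), (6, 23), (5, 7), (26, 26)], [[], [(4, 254, 3), (8, 239, 28)], [(2, 255, 9), (4, 263, 3), (6, 234, 16), (16, 239, 2)], [(4, 202, 13), (8, 240, 28), (12, 272, 4), (16, 240, 2), (20, 271, 2), (24, 270, 0)]]⟩))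
(.node (.leaf ⟨4206, 24, 0, 28, 3, [(25, 31), (10, 31), (12, 14), (18, 22)], [[(1, 70, 33)], [], [(8, 111, 55), (16, 111, 30)], []]⟩)
(.leaf ⟨7569, 16, 0, 22, 4, [(25, 31)], [[(1, 477, 45), (8, 477, 44)], [(1, 478, 45), (2, 478, 21), (3, 465, 112), (8, 478, 20), (9, 465, 110), (10, 465, 108)], [(1, 478, 69), (4, 478, 19), (5, 465, 106), (8, 478, 18), (9, 465, 104), (12, 465, 102)], [(1, 479, 35), (2, 479, 11), (3, 468, 70), (4, 479, 5), (5, 468, 46), (6, 468, 22), (7, 497, 90), (8, 479, 4), (9, 468, 44), (10, 468, 20), (11, 497, 66), (12, 468, 18), (13, 497, 42), (14, 497, 18)]]⟩))))))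

/-- A part of the certificate. -/
def T14 : BT Lem := (.node (.node (.node (.node (.node (.leaf ⟨2000, 24, 0, 26, 3, [(20, 31), (9, 31), (12, 15), (17, 23), (2, 7)], [[], [], [(8, 0, 1), (16, 0, 0)], []]⟩)
(.leaf ⟨4206, 24, 0, 26, 3, [(13, 31), (18, 23), (1, 7), (28, 28)], [[(4, 98, 90)], [(1, 64, 93), (2, 64, 91), (4, 98, 90), (5, 57, 41), (6, 57, 17)], [(8, 63, 49), (16, 115, 74)], []]⟩))
(.node (.leaf ⟨3569, 24, 0, 24, 3, [(30, 31), (10, 15), (15, 31), (9, 11), (20, 28)], [[(4, 18, 3)], [(4, 10, 73), (8, 23, 1), (16, 6, 12), (20, 17, 2)]]⟩)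
(.leaf ⟨5569, 24, 0, 25, 3, [(30, 31), (10, 26), (20, 28)], [[(4, 285, 27)], [(1, 203, 35), (4, 285, 27), (5, 209, 40)], [(2, 286, 51), (4, 286, 29), (8, 281, 66), (10, 337, 52), (16, 281, 36), (20, 337, 26)], [(1, 247, 35), (2, 246, 9), (3, 288, 70), (4, 246, 5), (5, 288, 40), (6, 144, 16), (8, 281, 66), (9, 300, 58), (10, 300, 52), (11, 299, 66), (16, 281, 36), (17, 300, 32), (20, 300, 26), (21, 299, 36)]]⟩)))
(.node (.node (.leaf ⟨3000, 24, 0, 24, 3, [(9, 31), (18, 31), (12, 28), (27, 31), (20, 20)], [[(2, 18, 9)], [(1, 9, 111), (2, 10, 75), (8, 5, 49), (9, 7, 34), (16, 5, 54), (18, 11, 8)]]⟩)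
(.leaf ⟨4569, 24, 0, 16, 4, [(10, 31), (17, 21), (12, 12)], [[(2, 138, 9), (4, 138, 3), (6, 146, 22), (8, 111, 96), (10, 147, 20)]]⟩))
(.node (.leaf ⟨4000, 24, 0, 24, 3, [(25, 27), (23, 31), (12, 28), (18, 22)], [[(1, 70, 33), (2, 70, 9), (3, 40, 118)], [(4, 66, 13), (8, 60, 1), (12, 78, 4), (16, 55, 0)]]⟩)
(.leaf ⟨6569, 28, 0, 12, 2, [(6, 31), (17, 23), (26, 26)], [[(1, 374, 33), (16, 366, 0), (17, 387, 32)], [(1, 396, 33), (2, 394, 21), (3, 393, 64), (4, 394, 13), (5, 390, 40), (6, 392, 16), (7, 384, 90), (8, 395, 1), (9, 373, 34), (16, 394, 0), (17, 389, 32), (20, 388, 2), (24, 391, 0), (25, 386, 30)]]⟩))))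
(.node (.node (.node (.leaf ⟨2603, 16, 0, 17, 4, [(20, 29), (18, 30), (24, 30), (29, 29)], [[], [(1, 0, 33), (4, 1, 27)]]⟩)
(.leaf ⟨4569, 24, 0, 26, 3, [(9, 15), (14, 30), (20, 20)], [[(4, 138, 3)], [(1, 138, 35), (2, 138, 11)], [(8, 138, 1), (16, 117, 24)], [(1, 138, 41), (2, 138, 17), (8, 138, 1), (9, 146, 34), (10, 146, 10), (16, 111, 30), (17, 147, 32), (18, 160, 8)]]⟩))
(.node (.leaf ⟨3603, 24, 0, 24, 3, [(13, 29), (17, 31), (10, 14), (20, 20)], [[(1, 49, 41), (4, 26, 13)], [(1, 50, 33), (8, 37, 25), (16, 26, 0), (17, 38, 32)]]⟩)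
(.leaf ⟨5569, 24, 0, 28, 3, [(25, 31), (9, 25), (18, 22)], [[(2, 311, 15)], [(2, 285, 75), (4, 281, 90), (6, 315, 16)], [(8, 285, 28), (16, 281, 12)], [(1, 286, 57), (2, 281, 67), (3, 213, 65), (4, 281, 43), (8, 246, 31), (9, 322, 34), (10, 302, 52), (11, 266, 66), (12, 302, 28), (16, 281, 12), (18, 279, 14), (20, 279, 12)]]⟩)))
(.node (.node (.leaf ⟨3206, 24, 2, 24, 3, [(17, 29), (9, 31), (11, 31), (12, 29), (20, 20)], [[], [], [(1, 2, 65), (8, 1, 25), (16, 2, 60)], [(1, 2, 65), (8, 1, 25), (16, 2, 60)]]⟩)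
(.leaf ⟨5000, 16, 0, 16, 4, [(29, 31), (26, 26)], [[(1, 202, 33), (2, 202, 9), (3, 212, 88), (4, 202, 3), (5, 212, 82), (6, 212, 76), (7, 233, 91), (8, 202, 1), (9, 201, 69), (12, 201, 19)]]⟩))
(.node (.leaf ⟨4206, 16, 0, 16, 4, [(29, 31), (26, 27), (20, 28)], [[(1, 111, 87), (2, 111, 15), (3, 114, 64), (8, 111, 1), (9, 113, 34)]]⟩)
(.leaf ⟨6569, 16, 0, 24, 4, [(29, 31), (23, 31)], [[(1, 403, 45), (2, 403, 21), (3, 419, 94), (4, 403, 19), (5, 419, 46), (6, 419, 90)], [(1, 394, 45), (2, 394, 21), (3, 420, 70), (4, 394, 19), (6, 420, 22), (8, 394, 18), (9, 420, 44), (10, 420, 20), (11, 418, 108), (12, 420, 18), (14, 418, 98)]]⟩)))))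
(.node (.node (.node (.node (.leaf ⟨2603, 24, 0, 8, 3, [(10, 31), (20, 23), (12, 28), (17, 23), (18, 22)], [[(1, 2, 65), (16, 1, 72)]]⟩)
(.leaf ⟨4569, 16, 0, 22, 4, [(17, 31), (24, 29), (29, 29)], [[], [(1, 117, 57), (2, 60, 15)], [(1, 111, 63), (4, 111, 13), (8, 139, 28)], [(1, 111, 63), (2, 68, 9), (3, 145, 64), (4, 111, 13), (5, 152, 46), (6, 145, 17), (8, 139, 28), (10, 136, 10)]]⟩))
(.node (.leaf ⟨3569, 24, 0, 8, 3, [(12, 31), (9, 31), (18, 22), (20, 20)], [[(2, 24, 11), (16, 23, 12)]]⟩)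
(.leaf ⟨5569, 24, 0, 24, 3, [(17, 31), (3, 19), (28, 28)], [[(1, 281, 47), (2, 293, 51), (4, 217, 90), (5, 253, 41), (6, 253, 17)], [(1, 285, 59), (2, 285, 53), (3, 316, 64), (8, 286, 1), (10, 327, 10), (16, 306, 2), (17, 298, 62), (18, 320, 50)]]⟩)))
(.node (.node (.leaf ⟨3000, 24, 0, 24, 3, [(12, 31), (29, 31), (18, 31), (1, 5), (6, 6)], [[(2, 5, 23)], [(2, 5, 23), (4, 6, 5), (8, 6, 18), (12, 15, 42), (16, 6, 14), (18, 7, 75)]]⟩)
(.leaf ⟨4603, 24, 0, 26, 3, [(28, 31), (5, 7), (2, 6)], [[(1, 171, 117), (4, 189, 3)], [], [(1, 169, 93), (8, 170, 1), (9, 164, 105), (16, 170, 0), (17, 164, 81)], []]⟩))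
(.node (.leaf ⟨4000, 24, 0, 27, 3, [(30, 31), (1, 5), (4, 6)], [[], [], [(2, 55, 91), (4, 63, 16)], [], [(8, 56, 10), (16, 56, 8)], [], [(2, 55, 15), (8, 55, 10), (10, 57, 98), (16, 55, 8), (18, 57, 74)], []]⟩)
(.leaf ⟨6569, 16, 0, 20, 4, [(25, 31), (2, 14)], [[(1, 395, 41), (8, 395, 28)], [(1, 396, 47), (2, 394, 11), (3, 389, 70), (4, 394, 5), (5, 389, 46), (8, 403, 18), (9, 419, 44), (10, 398, 10), (11, 422, 108), (12, 398, 4)]]⟩))))
(.node (.node (.node (.leaf ⟨3000, 24, 0, 27, 3, [(18, 31), (12, 31), (1, 7), (10, 31), (20, 20)], [[], [], [], [(4, 8, 16)], [(8, 5, 49), (16, 10, 0)], [], [(2, 16, 85)], [(1, 13, 87), (8, 5, 49), (16, 6, 12)]]⟩)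
(.leaf ⟨4569, 24, 0, 26, 3, [(25, 31), (10, 27), (20, 20)], [[(1, 74, 59), (4, 138, 3), (5, 91, 82)], [], [(8, 138, 1), (16, 111, 0)], [(1, 66, 47), (2, 66, 23), (8, 138, 1), (9, 146, 34), (10, 146, 10)]]⟩))
(.node (.leaf ⟨3603, 28, 0, 29, 2, [(6, 31), (10, 11), (1, 3), (18, 19)], [[], [], [(4, 25, 90), (8, 25, 66)], [], [(4, 25, 114), (16, 25, 60)], [], [(4, 16, 79), (8, 16, 55), (12, 52, 4), (16, 16, 54), (20, 52, 2), (24, 51, 0)], []]⟩)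
(.leaf ⟨5569, 28, 0, 28, 2, [(10, 31), (1, 19), (18, 18)], [[(2, 285, 53)], [(2, 286, 51), (4, 285, 13), (8, 285, 7), (10, 320, 11)], [(1, 281, 47), (4, 293, 13), (5, 324, 93), (16, 238, 24)], [(1, 282, 45), (4, 281, 43), (5, 226, 83), (8, 281, 42), (9, 232, 58), (12, 291, 4), (13, 323, 105), (16, 240, 24), (20, 252, 72), (24, 272, 0)]]⟩)))
(.node (.node (.leaf ⟨3206, 24, 8, 16, 4, [(9, 31), (22, 31), (21, 23), (12, 15), (2, 6)], [[(1, 2, 35), (4, 3, 73)], [(1, 2, 35), (16, 3, 24)]]⟩)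
(.leaf ⟨5206, 24, 0, 24, 3, [(28, 31), (13, 13), (18, 22)], [[(1, 254, 33), (2, 254, 15), (3, 258, 71), (4, 203, 106), (6, 260, 16)], [(1, 241, 33), (8, 246, 1), (9, 220, 105), (16, 246, 6), (17, 245, 57)]]⟩))
(.node (.leaf ⟨4206, 16, 0, 16, 4, [(29, 31), (26, 30), (22, 30)], [[(1, 68, 33), (2, 111, 61), (3, 69, 65), (4, 111, 79), (5, 69, 41), (8, 111, 55), (9, 69, 35), (12, 110, 28)]]⟩)
(.leaf ⟨7569, 16, 0, 30, 4, [(17, 31)], [[], [(1, 477, 71), (2, 477, 70)], [(1, 477, 47), (4, 477, 46)], [(1, 478, 47), (2, 478, 23), (3, 465, 118), (4, 478, 22), (5, 465, 116), (6, 465, 114)], [(1, 477, 45), (8, 477, 44)], [(1, 478, 45), (2, 478, 21), (3, 465, 112), (8, 478, 20), (9, 465, 110), (10, 465, 108)], [(1, 478, 69), (4, 478, 19), (5, 465, 106), (8, 478, 18), (9, 465, 104), (12, 465, 102)], [(1, 479, 35), (2, 479, 11), (3, 468, 70), (4, 479, 5), (5, 468, 46), (6, 468, 22), (7, 497,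 90), (8, 479, 4), (9, 468, 44), (10, 468, 20), (11, 497, 66), (12, 468, 18), (13, 497, 42), (14, 497, 18)]]⟩))))))

/-- A part of the certificate. -/
def T15 : BT Lem := (.node (.node (.node (.node (.node (.leaf ⟨2000, 24, 0, 26, 3, [(10, 31), (20, 31), (17, 31), (9, 11), (18, 19), (12, 31)], [[], [], [(4, 0, 3), (8, 0, 1), (16, 0, 0)], []]⟩)
(.leaf ⟨4206, 24, 1, 24, 3, [(13, 31), (18, 27), (17, 31), (10, 30), (28, 28)], [[(4, 23, 3)], [], [(2, 46, 9), (8, 37, 49), (16, 26, 0)], [(2, 45, 9), (16, 37, 6)]]⟩))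
(.node (.leaf ⟨3569, 24, 0, 24, 3, [(26, 31), (25, 31), (10, 30), (12, 30), (20, 20)], [[(1, 9, 117)], [(8, 23, 1), (16, 1, 0)]]⟩)
(.leaf ⟨5569, 24, 0, 24, 3, [(30, 31), (12, 28), (18, 22)], [[(1, 293, 39), (2, 281, 94), (3, 258, 89)], [(1, 306, 117), (4, 286, 27), (5, 303, 40), (8, 285, 28), (9, 302, 34), (12, 210, 4), (13, 301, 42), (16, 281, 60), (17, 296, 33)]]⟩)))
(.node (.node (.leaf ⟨3000, 24, 0, 24, 3, [(27, 31), (17, 31), (10, 30), (12, 14), (20, 20)], [[(1, 3, 57)], [(1, 3, 57), (2, 9, 109), (8, 5, 55), (10, 7, 10), (16, 1, 0), (17, 12, 32)]]⟩)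
(.leaf ⟨4569, 24, 0, 28, 3, [(9, 31), (10, 30), (28, 28), (17, 25)], [[], [(1, 115, 87), (2, 70, 9), (3, 159, 65), (4, 115, 73)], [(1, 115, 63), (2, 115, 67), (3, 163, 65), (8, 138, 31), (10, 158, 52), (16, 111, 54)], []]⟩))
(.node (.leaf ⟨4000, 24, 0, 24, 3, [(10, 31), (13, 13), (18, 22), (20, 28)], [[(1, 64, 57), (4, 55, 43)], [(1, 55, 45), (4, 55, 43), (8, 55, 1), (9, 61, 34), (16, 60, 0), (17, 61, 56), (20, 78, 2)]]⟩)
(.leaf ⟨6569, 28, 0, 20, 4, [(21, 31), (10, 31), (26, 26)], [[(1, 404, 33), (2, 403, 15), (3, 402, 64), (8, 403, 1), (9, 401, 34)], [(2, 394, 15), (4, 394, 19), (6, 400, 16), (8, 375, 7), (12, 399, 4), (16, 375, 0), (18, 399, 8), (24, 398, 0)]]⟩))))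
(.node (.node (.node (.leaf ⟨2603, 24, 0, 8, 3, [(1, 7), (10, 26), (18, 23), (20, 22)], [[(4, 1, 3), (16, 1, 72)]]⟩)
(.leaf ⟨4569, 24, 0, 26, 3, [(17, 31), (1, 21), (20, 22), (6, 6)], [[(4, 138, 5)], [(2, 66, 21)], [(1, 138, 81), (8, 138, 1), (16, 138, 6)], [(1, 138, 81), (2, 138, 17), (3, 87, 64), (8, 138, 1), (9, 124, 104), (10, 86, 11), (16, 138, 12), (18, 134, 8)]]⟩))
(.node (.leaf ⟨3603, 24, 0, 26, 3, [(19, 31), (12, 30), (1, 7), (10, 31), (20, 20)], [[], [], [(8, 26, 7), (16, 37, 0)], [(1, 48, 39), (2, 45, 77), (8, 26, 7), (10, 39, 10)]]⟩)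
(.leaf ⟨5569, 24, 0, 28, 3, [(22, 31), (2, 22), (25, 25)], [[(1, 319, 57)], [(1, 217, 93), (2, 281, 70), (3, 253, 64), (4, 293, 3), (5, 253, 40)], [(2, 285, 9), (8, 246, 31), (10, 320, 10), (16, 285, 26)], [(2, 285, 11), (4, 285, 5), (6, 316, 16), (8, 286, 25), (12, 327, 28), (16, 306, 32), (18, 298, 14), (20, 320, 2)]]⟩)))
(.node (.node (.leaf ⟨3206, 16, 4, 17, 4, [(18, 27), (24, 24)], [[], [(1, 1, 57), (2, 1, 51)], [], [(1, 1, 57), (2, 1, 51)]]⟩)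
(.leaf ⟨5000, 16, 0, 24, 4, [(21, 31), (18, 26)], [[(1, 202, 39), (4, 202, 13)], [(1, 202, 33), (2, 202, 9), (3, 212, 88), (4, 202, 3), (5, 212, 82), (6, 212, 76), (7, 233, 91), (8, 202, 1), (9, 201, 69), (12, 201, 19)]]⟩))
(.node (.leaf ⟨4206, 16, 0, 28, 4, [(17, 31), (18, 27), (24, 28)], [[], [(1, 115, 113), (4, 111, 13)], [], [(1, 111, 87), (2, 111, 15), (3, 114, 64), (8, 111, 1), (9, 113, 34)]]⟩)
(.leaf ⟨6569, 24, 0, 27, 3, [(20, 20)], [[(4, 394, 13)], [(1, 394, 39), (4, 394, 13), (5, 399, 41)], [(2, 394, 15), (4, 394, 13), (6, 399, 17)], [(1, 394, 39), (2, 394, 15), (3, 420, 64), (4, 394, 13), (5, 399, 41), (6, 399, 17), (7, 418, 94)], [(8, 394, 7), (16, 403, 12)], [(1, 394, 33), (8, 394, 7), (9, 399, 35), (16, 403, 12), (17, 398, 32)], [(2, 394, 9), (8, 394, 7), (10, 399, 11), (16, 403, 12), (18, 398, 8)], [(1, 394, 33), (2, 394, 9), (3, 420, 88), (8, 394, 7), (9, 399,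 35), (10, 399, 11), (11, 418, 70), (16, 403, 12), (17, 398, 32), (18, 398, 8), (19, 372, 60)]]⟩)))))
(.node (.node (.node (.node (.leaf ⟨2603, 24, 0, 16, 4, [(12, 31), (23, 31), (10, 11), (20, 23), (1, 5)], [[(2, 2, 91), (8, 2, 1)]]⟩)
(.leaf ⟨4569, 24, 0, 24, 3, [(28, 31), (13, 29), (17, 25), (10, 14)], [[(1, 115, 63), (4, 115, 13)], [(1, 138, 35), (8, 138, 31), (16, 138, 30), (17, 134, 38)]]⟩))
(.node (.leaf ⟨3569, 24, 0, 24, 3, [(9, 15), (12, 15), (22, 30), (2, 6)], [[], [(8, 24, 7), (16, 9, 54)]]⟩)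
(.leaf ⟨5569, 24, 0, 24, 3, [(17, 31), (9, 25), (22, 22)], [[(2, 285, 75), (4, 285, 73), (6, 315, 16)], [(1, 286, 81), (2, 281, 67), (3, 316, 64), (4, 281, 43), (5, 316, 40), (8, 286, 1), (10, 302, 52), (12, 302, 28), (16, 281, 12), (18, 279, 14), (20, 279, 12)]]⟩)))
(.node (.node (.leaf ⟨3000, 24, 0, 24, 3, [(27, 31), (10, 27), (1, 3), (20, 20)], [[(4, 5, 73)], [(2, 9, 109), (8, 5, 55), (10, 7, 10), (16, 16, 54)]]⟩)
(.leaf ⟨4603, 24, 0, 28, 4, [(9, 31), (2, 22), (20, 20)], [[(1, 138, 83), (2, 138, 15), (3, 131, 113)], [], [(1, 138, 41), (2, 138, 15), (3, 131, 113), (8, 170, 7), (9, 131, 111), (10, 110, 52), (11, 190, 66), (16, 170, 0)], []]⟩))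
(.node (.leaf ⟨4000, 24, 0, 25, 3, [(28, 31), (1, 5), (6, 6)], [[(2, 55, 91), (4, 63, 16)], [], [(2, 55, 15), (8, 55, 10), (10, 57, 98), (16, 55, 8), (18, 57, 74)], []]⟩)
(.leaf ⟨6569, 16, 0, 26, 4, [(20, 28)], [[(1, 395, 35)], [(1, 395, 35), (2, 395, 11), (3, 419, 94)], [(1, 394, 45), (4, 394, 13), (5, 390, 40), (8, 394, 7), (9, 390, 34)], [(1, 394, 45), (2, 394, 21), (3, 408, 64), (4, 394, 13), (5, 390, 40), (6, 390, 16), (7, 418, 118), (8, 394, 7), (9, 390, 34), (10, 390, 10), (11, 418, 112)]]⟩))))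
(.node (.node (.node (.leaf ⟨3000, 16, 0, 25, 4, [(20, 31), (18, 31), (24, 24)], [[], [(1, 5, 81), (2, 5, 85), (4, 5, 79), (6, 7, 16)], [], []]⟩)
(.leaf ⟨4569, 16, 0, 29, 4, [(24, 31), (18, 31), (20, 28)], [[], [(1, 111, 87), (2, 111, 85)], [], [], [], [(2, 138, 9), (8, 138, 1), (10, 134, 20)], [(2, 111, 61)], [(1, 111, 63), (2, 111, 61), (3, 78, 64), (4, 60, 27), (6, 78, 17)]]⟩))
(.node (.leaf ⟨3603, 24, 0, 24, 3, [(26, 31), (12, 28), (22, 22), (1, 3)], [[(2, 54, 9)], [(4, 43, 90), (8, 26, 49), (12, 28, 19), (16, 26, 48)]]⟩)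
(.leaf ⟨5569, 24, 0, 28, 3, [(30, 31), (17, 31), (13, 31), (2, 6)], [[(1, 311, 39)], [(2, 282, 91), (4, 285, 73)], [(1, 240, 59), (8, 285, 28), (16, 281, 30), (17, 318, 56)], [(1, 202, 39), (4, 281, 37), (5, 321, 93), (8, 281, 108), (9, 322, 34), (12, 317, 28), (16, 282, 72), (20, 304, 26)]]⟩)))
(.node (.node (.leaf ⟨3206, 24, 8, 16, 4, [(12, 31), (19, 31), (9, 29), (21, 23), (26, 30), (6, 7)], [[(1, 3, 59), (2, 0, 9), (4, 2, 5)], [(1, 3, 59), (4, 2, 5), (16, 2, 14)]]⟩)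
(.leaf ⟨5206, 24, 0, 24, 3, [(14, 31), (13, 13), (18, 22)], [[(1, 254, 33), (2, 254, 15), (3, 258, 71), (4, 239, 29)], [(1, 241, 33), (4, 240, 29), (8, 246, 1), (9, 220, 105), (12, 225, 4), (16, 246, 6), (17, 245, 57), (20, 242, 27)]]⟩))
(.node (.leaf ⟨4206, 16, 0, 17, 4, [(28, 31), (26, 30), (22, 30)], [[(2, 111, 61), (4, 111, 79), (8, 111, 55)], [(1, 68, 33), (2, 111, 61), (3, 69, 65), (4, 111, 79), (5, 69, 41), (8, 111, 55), (9, 69, 35), (12, 110, 28)]]⟩)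
(.leaf ⟨7569, 28, 0, 29, 2, [(30, 31), (1, 3)], [[(2, 417, 75)], [], [(2, 368, 9), (4, 477, 97), (6, 499, 16), (8, 477, 96), (10, 499, 10)], [], [(2, 368, 11), (4, 477, 73), (6, 499, 22), (16, 477, 72), (18, 499, 8)], [], [(4, 478, 73), (8, 478, 49), (12, 465, 4), (16, 478, 48), (20, 465, 2), (24, 465, 0)], []]⟩))))))

/-- The certificate. -/
def tree : BT Lem := (.node (.node (.node (.node T0 T8) (.node T4 T12)) (.node (.node T2 T10) (.node T6 T14))) (.node (.node (.node T1 T9) (.node T5 T13)) (.node (.node T3 T11) (.node T7 T15))))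

/-- The configuration. -/
def cfg : Cfg where
  k := 5
  smax := 2
  cost := fun s => if s = 0 then 1000 else if s = 1 then 1603 else 2569
  disj := 41855804997449509270092889397307565719241886080395648109563430448045063460466369534345748691420280205462221438900863931385339896492457076438047660465094462394205552316292706862080457215979139703778415015161663536671972707557908458409385067707997943639619598455472841085603301216668012781940164788223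
  sup := 89884656774507649118716256217114320966095737427111458228273915827558139713226652408891268016089390323446203108731018674748380563142855886301323039587660595160774939841764405321070658650762304229250390720781357619413117191160788942357763394667975507065187867884419007303781593780504538432288798604041058779135
  perms := perms
  tree := tree

/-- The root lemmas. -/
def roots : List (ℕ × ℕ) := [(0, 0), (523, 33), (523, 9), (522, 64), (523, 3), (522, 40), (522, 16), (521, 90), (523, 1), (522, 34), (522, 10), (521, 66), (522, 4), (521, 42), (521, 18), (520, 96), (523, 0), (522, 32), (522, 8), (521, 60), (522, 2), (521, 36), (521, 12), (520, 72), (522, 0), (521, 30), (521, 6), (520, 48), (521, 0), (520, 24), (520, 0), (519, 0)]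

end Pool.Agent.H141.PF.Cert5
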